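import Pool.Agent.H45.KC.EichG
import Pool.Agent.H9.FC.LocDeg
import Pool.Agent.H9.FC.FormS

/-!
# KC, module KCount: counting the places, and the relation `m_a - m_b = n_a - n_b`

PROOF of `card_ZZ`. `Fin d` is the disjoint union of `ZZ ψ a b c` and the sets `{i : ψ_i a = 0}`,
`{i : ψ_i b = 0}`, `{i : ψ_i c = 0}` (not two of the values vanish, `cop_hom`), whose cardinalities are
`mm K p a`, `mm K p b`, `mm K p c` (`card_zero_eq_mm`, `q = p`).
PROOF of `rel_mm`. Let `a_i = ψ_i a` etc., `a_i + b_i + c_i = 0`.  The terms of `hrel` with `c_i = 0` are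
`0` (division by zero), those with `a_i = 0` (`c_i = -b_i`) are `1`, those with `b_i = 0`
(`c_i = -a_i`) are `-1`.  By `hS` and `H9FC.sum_antisymm` (for the index type `{i // i ∈ ZZ ψ a b c}`;
`Finset.prod_coe_sort`, `Finset.sum_coe_sort`) the sum over `ZZ ψ a b c` is `0`.  So
`(mm K p a : Ω) - mm K p b = m`, i.e. `p ∣ mm K p a - mm K p b - m`; the integer
`mm K p a - mm K p b - m` has absolute value `≤ d + d < p` (`mm K p a ≤ d` by `card_zero_eq_mm`), so it is
`0`.
-/

open Polynomial NumberField H9FC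

namespace H45KC

private theorem KCount_mm {K : Type*} [Field K] [NumberField K] (p : ℕ) [Fact p.Prime]
    {Ω : Type*} [Field Ω] [CharP Ω p] [DecidableEq Ω]
    {ψ : Fin (Module.finrank ℚ K) → (𝓞 K →+* Ω)} (hψ : IsRedFam ψ) (x : 𝓞 K) :
    mm K p x = ∑ i, (if ψ i x = 0 then 1 else 0) := by
  rw [← card_zero_eq_mm p hψ x, Nat.card_eq_fintype_card, Fintype.card_subtype,
    Finset.card_filter]

theorem card_ZZ (K : Type*) [Field K] [NumberField K] (p : ℕ) [Fact p.Prime] (a b c : 𝓞 K)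
    (h : FSol K p a b c) (hcp : CopAt K p a b c) {Ω : Type*} [Field Ω] [CharP Ω p]
    {ψ : Fin (Module.finrank ℚ K) → (𝓞 K →+* Ω)} (hψ : IsRedFam ψ) :
    (ZZ ψ a b c).card + mm K p a + mm K p b + mm K p c = Module.finrank ℚ K := by
  classical
  have hZ : (ZZ ψ a b c).card = ∑ i, (if i ∈ ZZ ψ a b c then 1 else 0) := by
    rw [← Finset.card_filter]
    congr 1
    ext i
    simp
  rw [hZ, KCount_mm p hψ a, KCount_mm p hψ b, KCount_mm p hψ c, ← Finset.sum_add_distrib,
    ← Finset.sum_add_distrib, ← Finset.sum_add_distrib]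
  have hone : ∀ i ∈ (Finset.univ : Finset (Fin (Module.finrank ℚ K))),
      (if i ∈ ZZ ψ a b c then 1 else 0) + (if ψ i a = 0 then 1 else 0) +
        (if ψ i b = 0 then 1 else 0) + (if ψ i c = 0 then 1 else 0) = 1 := by
    intro i _
    obtain ⟨h1, h2, h3⟩ := cop_hom h hcp (ψ i)
    simp only [mem_ZZ]
    by_cases ha : ψ i a = 0
    · have hb : ψ i b ≠ 0 := fun hb => h1 ⟨ha, hb⟩
      have hc : ψ i c ≠ 0 := fun hc => h3 ⟨hc, ha⟩
      simp [ha, hb, hc]
    · by_cases hb : ψ i b = 0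
      · have hc : ψ i c ≠ 0 := fun hc => h2 ⟨hb, hc⟩
        simp [ha, hb, hc]
      · by_cases hc : ψ i c = 0
        · simp [ha, hb, hc]
        · simp [ha, hb, hc]
  rw [Finset.sum_congr rfl hone]
  simp

theorem rel_mm (K : Type*) [Field K] [NumberField K] (p : ℕ) [Fact p.Prime] (a b c : 𝓞 K)
    (hd : 2 * Module.finrank ℚ K < p)
    (h : FSol K p a b c) (hcp : CopAt K p a b c) {Ω : Type*} [Field Ω] [Infinite Ω] [CharP Ω p]
    {ψ : Fin (Module.finrank ℚ K) → (𝓞 K →+* Ω)} (hψ : IsRedFam ψ)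
    (hS : ∀ x y : Ω, ∏ i ∈ ZZ ψ a b c, (x * ψ i b + y * ψ i a)
      = ∏ i ∈ ZZ ψ a b c, (x * ψ i a + y * ψ i b))
    (m : ℤ) (hm : |m| ≤ Module.finrank ℚ K)
    (hrel : ∑ i, (ψ i a - ψ i b) / ψ i c = (m : Ω)) :
    (mm K p a : ℤ) - mm K p b = m := by
  classical
  have hcard := card_ZZ K p a b c h hcp hψ
  have hanti : ∑ i ∈ ZZ ψ a b c, (ψ i a - ψ i b) / ψ i c = 0 := by
    have h1 := sum_antisymm (Ω := Ω) (ι := {i // i ∈ ZZ ψ a b c}) (fun i => ψ i a)
      (fun i => ψ i b) (fun i => ψ i c)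
      (fun i => ((mem_ZZ ψ a b c i.1).1 i.2).2.2) (fun i => fsol_hom h (ψ i)) (by
        intro x y
        rw [Finset.prod_coe_sort (ZZ ψ a b c) (fun i => x * ψ i b + y * ψ i a),
          Finset.prod_coe_sort (ZZ ψ a b c) (fun i => x * ψ i a + y * ψ i b)]
        exact hS x y)
    rw [Finset.sum_coe_sort (ZZ ψ a b c) (fun i => (ψ i a - ψ i b) / ψ i c)] at h1
    exact h1
  have hsplit : ∀ i ∈ (Finset.univ : Finset (Fin (Module.finrank ℚ K))),
      (ψ i a - ψ i b) / ψ i c = (if i ∈ ZZ ψ a b c then (ψ i a - ψ i b) / ψ i c else 0) +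
        ((if ψ i a = 0 then (1 : Ω) else 0) - (if ψ i b = 0 then (1 : Ω) else 0)) := by
    intro i _
    obtain ⟨h1, h2, h3⟩ := cop_hom h hcp (ψ i)
    have hs := fsol_hom h (ψ i)
    simp only [mem_ZZ]
    by_cases ha : ψ i a = 0
    · have hb : ψ i b ≠ 0 := fun hb => h1 ⟨ha, hb⟩
      have hc : ψ i c ≠ 0 := fun hc => h3 ⟨hc, ha⟩
      have hbc : ψ i c = - ψ i b := by
        rw [ha] at hs
        linear_combination hs
      simp only [ha, hb, hc, ne_eq, not_true_eq_false, false_and, if_false, if_true, zero_sub,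
        sub_zero, zero_add]
      rw [hbc]
      field_simp
    · by_cases hb : ψ i b = 0
      · have hc : ψ i c ≠ 0 := fun hc => h2 ⟨hb, hc⟩
        have hac : ψ i c = - ψ i a := by
          rw [hb] at hs
          linear_combination hs
        simp only [ha, hb, hc, ne_eq, not_true_eq_false, not_false_eq_true, false_and, true_and,
          if_false, if_true, zero_sub, sub_zero, zero_add]
        rw [hac]
        field_simp
      · by_cases hc : ψ i c = 0
        · simp [ha, hb, hc]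
        · simp [ha, hb, hc]
  have hA : ∀ x : 𝓞 K, ∑ i, (if ψ i x = 0 then (1 : Ω) else 0) = (mm K p x : Ω) := by
    intro x
    rw [KCount_mm p hψ x]
    push_cast
    rfl
  have hm2 : (m : Ω) = (mm K p a : Ω) - (mm K p b : Ω) := by
    rw [← hrel, Finset.sum_congr rfl hsplit, Finset.sum_add_distrib, Finset.sum_sub_distrib,
      hA, hA]
    have e1 : ∑ i, (if i ∈ ZZ ψ a b c then (ψ i a - ψ i b) / ψ i c else 0) =
        ∑ i ∈ ZZ ψ a b c, (ψ i a - ψ i b) / ψ i c := by
      rw [Finset.sum_ite_mem, Finset.univ_inter]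
    rw [e1, hanti, zero_add]
  have hz : (((mm K p a : ℤ) - mm K p b - m : ℤ) : Ω) = 0 := by
    push_cast
    rw [hm2]
    ring
  have hdvd : (p : ℤ) ∣ (mm K p a : ℤ) - mm K p b - m := (CharP.intCast_eq_zero_iff Ω p _).1 hz
  have habs : |(mm K p a : ℤ) - mm K p b - m| < p := by
    rw [abs_le] at hm
    rw [abs_lt]
    obtain ⟨hm1, hm3⟩ := hm
    constructor <;> omega
  have h0 := Int.eq_zero_of_abs_lt_dvd hdvd habs
  omega

end H45KC
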