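import Pool.Agent.H9.FC.FormS
import Pool.Agent.H9.FC.CountS

/-!
# KC, module KSym: consequences of the `S₃`-symmetry of a product of linear forms

`u_i + v_i + w_i = 0`, all of `u_i, v_i, w_i ≠ 0`, and the products `∏ (x u_i + y v_i)`, `∏ (x v_i + y w_i)`
are symmetric.

PROOF of `sym_even`: if `#ι` were odd, `H9FC.count_odd` would give an `i` with `u_i = v_i`; its hypothesis
`h2` is one of the identities of `H9FC.forms_eq`.
PROOF of `sym_three`: `count_odd`.
PROOF of `sym_five`. Suppose `#ι ≤ 5` and `u_i ≠ v_i`, `v_i ≠ w_i`, `w_i ≠ u_i` for all `i`.  For `t ∈ Ω` let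
`n(t)` be the number of the `i` with `v_i = t u_i`. As in the proof of `count_odd` (module CountS):
`n(t) = n(1/t)` and `n(t) = n(-1-t)` for `t ≠ 0`, `-1`: the polynomial `∏ (T u_i - v_i)` in `T` (all
`u_i ≠ 0`) has the zero `t` with multiplicity `n(t)`; by `h1` with `x = T`, `y = -1` for all `T ∈ Ω`
(infinite), it equals `∏ (T v_i - u_i)`, for which the multiplicity of `t ≠ 0` is
`#{i : u_i = t v_i} = n(1/t)`; by the symmetry in `v, w` (`forms_eq`, `∏ (x u_i + y w_i) =
∏ (x u_i + y v_i)`) it equals `∏ (T u_i - w_i)`, `w_i = -u_i - v_i`, with multiplicity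
`#{i : w_i = t u_i} = #{i : v_i = (-1-t) u_i} = n(-1-t)`.
Let `i₀` be given and `t = v/u` at `i₀`; `t ≠ 0, -1` (`w ≠ 0`), `t ≠ 1`, `t ≠ -2` (`w ≠ u`), `-2 t ≠ 1`...
precisely `t ≠ -1/2` (`w_i ≠ v_i`: `w = v` iff `-u = 2v`). The six elements
`t, 1/t, -1-t, -1/(1+t), -(1+t)/t, -t/(1+t)` all have `n > 0`. If `t² + t + 1 ≠ 0` they are pairwise
different: each equality between two of them is one of `t² = 1`, `t² + t + 1 = 0`, `2 t = -1`,
`t = -2`, `t (t + 2) = 0`, `2t + 1 = 0`, ... (the fixed points of the five non trivial elements of the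
anharmonic group are `±1`; `-1/2`; `-2` and `0`; and the zeros of `t²+t+1`), so `#ι ≥ 6`, a contradiction.
So `t² + t + 1 = 0`: `u² + u v + v² = 0`.
(Characteristic `≠ 2, 3`. For the differences: `t = 1/t`, `t = -1-t`, `t = -t/(1+t)` are excluded
directly, `t = -1/(1+t)` and `t = -(1+t)/t` mean `t² + t + 1 = 0`; since the group acts and the set of
excluded values is stable, all equalities reduce to these.)
-/

open Polynomial NumberField H9FC

namespace H45KC

/-- the roots of a product of linear polynomials -/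
private theorem KSym_roots {Ω : Type*} [Field Ω] {ι : Type*} [Fintype ι] (a b : ι → Ω)
    (ha : ∀ i, a i ≠ 0) :
    (∏ i, (Polynomial.C (a i) * Polynomial.X - Polynomial.C (b i))).roots =
      Finset.univ.val.map fun i => b i / a i := by
  have h1 : ∀ i, Polynomial.C (a i) * Polynomial.X - Polynomial.C (b i) =
      Polynomial.C (a i) * (Polynomial.X - Polynomial.C (b i / a i)) := by
    intro i
    rw [mul_sub, ← Polynomial.C_mul, mul_div_cancel₀ _ (ha i)]
  rw [Finset.prod_congr rfl fun i _ => h1 i, Finset.prod_mul_distrib, ← map_prod,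
    Polynomial.roots_C_mul _ (Finset.prod_ne_zero_iff.2 fun i _ => ha i)]
  have h2 : ∏ i, (Polynomial.X - Polynomial.C (b i / a i)) =
      ((Finset.univ.val.map fun i => b i / a i).map fun x =>
        Polynomial.X - Polynomial.C x).prod := by
    rw [Multiset.map_map]
    rfl
  rw [h2, Polynomial.roots_multiset_prod_X_sub_C]

private theorem KSym_eq {Ω : Type*} [Field Ω] [Infinite Ω] {ι : Type*} [Fintype ι]
    (a b c d : ι → Ω) (ha : ∀ i, a i ≠ 0) (hc : ∀ i, c i ≠ 0)
    (h : ∀ T : Ω, ∏ i, (a i * T - b i) = ∏ i, (c i * T - d i)) :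
    (Finset.univ.val.map fun i => b i / a i) = Finset.univ.val.map fun i => d i / c i := by
  rw [← KSym_roots a b ha, ← KSym_roots c d hc]
  congr 1
  apply Polynomial.funext
  intro T
  rw [Polynomial.eval_prod, Polynomial.eval_prod]
  simpa using h T

/-- the two symmetries -/
private theorem KSym_symm {Ω : Type*} [Field Ω] [Infinite Ω] {ι : Type*}
    [Fintype ι] (u v w : ι → Ω) (hu : ∀ i, u i ≠ 0) (hv : ∀ i, v i ≠ 0)
    (huvw : ∀ i, u i + v i + w i = 0)
    (h1 : ∀ x y : Ω, ∏ i, (x * v i + y * u i) = ∏ i, (x * u i + y * v i))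
    (h2 : ∀ x y : Ω, ∏ i, (x * u i + y * w i) = ∏ i, (x * u i + y * v i)) :
    ((Finset.univ.val.map fun i => v i / u i).map fun t => t⁻¹) =
        (Finset.univ.val.map fun i => v i / u i) ∧
      ((Finset.univ.val.map fun i => v i / u i).map fun t => -1 - t) =
        (Finset.univ.val.map fun i => v i / u i) := by
  constructor
  · rw [Multiset.map_map]
    have h := KSym_eq v u u v hv hu (fun T => by
      have := h1 T (-1)
      calc ∏ i, (v i * T - u i) = ∏ i, (T * v i + -1 * u i) :=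
            Finset.prod_congr rfl fun i _ => by ring
        _ = ∏ i, (T * u i + -1 * v i) := this
        _ = _ := Finset.prod_congr rfl fun i _ => by ring)
    rw [← h]
    refine Multiset.map_congr rfl fun i _ => ?_
    rw [Function.comp_apply, inv_div]
  · rw [Multiset.map_map]
    have h := KSym_eq u w u v hu hu (fun T => by
      have := h2 T (-1)
      calc ∏ i, (u i * T - w i) = ∏ i, (T * u i + -1 * w i) :=
            Finset.prod_congr rfl fun i _ => by ring
        _ = ∏ i, (T * u i + -1 * v i) := this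
        _ = _ := Finset.prod_congr rfl fun i _ => by ring)
    rw [← h]
    refine Multiset.map_congr rfl fun i _ => ?_
    rw [Function.comp_apply, eq_div_iff (hu i), sub_mul, div_mul_cancel₀ _ (hu i)]
    linear_combination -(huvw i)

/-- a set with at most five elements, closed under `t ↦ 1/t` and `t ↦ -1-t` -/
private theorem KSym_six {Ω : Type*} [Field Ω] (M : Multiset Ω) (h5 : Multiset.card M ≤ 5)
    (m1 : ∀ t ∈ M, t⁻¹ ∈ M) (m2 : ∀ t ∈ M, -1 - t ∈ M) (t : Ω) (ht : t ∈ M)
    (h0 : t ≠ 0) (hm1 : t ≠ -1) (ht1 : t ≠ 1) (ht2 : t + 2 ≠ 0) (ht3 : 2 * t + 1 ≠ 0) :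
    t ^ 2 + t + 1 = 0 := by
  classical
  by_contra hcon
  have h1t : 1 + t ≠ 0 := fun h => hm1 (by linear_combination h)
  obtain ⟨a, ha⟩ : ∃ a : Ω, a = t⁻¹ := ⟨_, rfl⟩
  obtain ⟨b, hb⟩ : ∃ b : Ω, b = (1 + t)⁻¹ := ⟨_, rfl⟩
  have hta : t * a = 1 := by rw [ha, mul_inv_cancel₀ h0]
  have htb : (1 + t) * b = 1 := by rw [hb, mul_inv_cancel₀ h1t]
  have e2 : a ∈ M := by rw [ha]; exact m1 t ht
  have e3 : -1 - t ∈ M := m2 t ht
  have e4 : -b ∈ M := by
    have h := m1 _ e3
    have h' : (-1 - t)⁻¹ = -b := by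
      rw [hb, show (-1 - t : Ω) = -(1 + t) by ring, inv_neg]
    rwa [h'] at h
  have e5 : -1 - a ∈ M := m2 a e2
  have e6 : -1 + b ∈ M := by
    have h := m2 _ e4
    rwa [sub_neg_eq_add] at h
  have hle : ({t, a, -1 - t, -b, -1 - a, -1 + b} : Multiset Ω) ≤ M := by
    rw [Multiset.le_iff_subset]
    · intro x hx
      simp only [Multiset.insert_eq_cons, Multiset.mem_cons, Multiset.mem_singleton] at hx
      rcases hx with rfl | rfl | rfl | rfl | rfl | rfl
      · exact ht
      · exact e2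
      · exact e3
      · exact e4
      · exact e5
      · exact e6
    · simp only [Multiset.insert_eq_cons, Multiset.nodup_cons, Multiset.mem_cons,
        Multiset.mem_singleton, not_or]
      have q1 : t ≠ a := by
        intro h
        have h' : (t - 1) * (t + 1) = 0 := by linear_combination t * h + hta
        rcases mul_eq_zero.1 h' with h'' | h''
        · exact ht1 (by linear_combination h'')
        · exact hm1 (by linear_combination h'')
      have q2 : t ≠ -1 - t := fun h => ht3 (by linear_combination h)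
      have q3 : t ≠ -b := fun h => hcon (by linear_combination (1 + t) * h - htb)
      have q4 : t ≠ -1 - a := fun h => hcon (by linear_combination t * h - hta)
      have q5 : t ≠ -1 + b := by
        intro h
        have h' : t * (t + 2) = 0 := by linear_combination (1 + t) * h + htb
        rcases mul_eq_zero.1 h' with h'' | h''
        · exact h0 h''
        · exact ht2 h''
      have q6 : a ≠ -1 - t := fun h => hcon (by linear_combination t * h - hta)
      have q7 : a ≠ -b := fun h =>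
        ht3 (by linear_combination t * (1 + t) * h - (1 + t) * hta - t * htb)
      have q8 : a ≠ -1 - a := fun h => ht2 (by linear_combination t * h - 2 * hta)
      have q9 : a ≠ -1 + b := fun h =>
        hcon (by linear_combination t * (1 + t) * h - (1 + t) * hta + t * htb)
      have q10 : -1 - t ≠ -b := by
        intro h
        have h' : t * (t + 2) = 0 := by linear_combination -(1 + t) * h + htb
        rcases mul_eq_zero.1 h' with h'' | h''
        · exact h0 h''
        · exact ht2 h''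
      have q11 : -1 - t ≠ -1 - a := fun h => q1 (by linear_combination -h)
      have q12 : -1 - t ≠ -1 + b := fun h =>
        hcon (by linear_combination -(1 + t) * h - htb)
      have q13 : -b ≠ -1 - a := fun h =>
        hcon (by linear_combination t * (1 + t) * h + t * htb - (1 + t) * hta)
      have q14 : -b ≠ -1 + b := fun h => ht1 (by linear_combination (1 + t) * h + 2 * htb)
      have q15 : -1 - a ≠ -1 + b := fun h => q7 (by linear_combination -h)
      exact ⟨⟨q1, q2, q3, q4, q5⟩, ⟨q6, q7, q8, q9⟩, ⟨q10, q11, q12⟩, ⟨q13, q14⟩, q15,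
        Multiset.nodup_singleton _⟩
  have hc := Multiset.card_le_card hle
  have hcard : Multiset.card ({t, a, -1 - t, -b, -1 - a, -1 + b} : Multiset Ω) = 6 := by simp
  omega

section
variable {Ω : Type*} [Field Ω] [Infinite Ω] {ι : Type*} [Fintype ι] (u v w : ι → Ω)

theorem sym_even (h2Ω : (2 : Ω) ≠ 0)
    (hu : ∀ i, u i ≠ 0) (hv : ∀ i, v i ≠ 0) (hw : ∀ i, w i ≠ 0)
    (huvw : ∀ i, u i + v i + w i = 0)
    (h1 : ∀ x y : Ω, ∏ i, (x * v i + y * u i) = ∏ i, (x * u i + y * v i))
    (h2 : ∀ x y : Ω, ∏ i, (x * w i + y * v i) = ∏ i, (x * v i + y * w i))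
    (hne : ∀ i, u i ≠ v i) : Even (Fintype.card ι) := by
  by_contra hodd
  rw [Nat.not_even_iff_odd] at hodd
  obtain ⟨⟨i, hi⟩, -, -⟩ := count_odd h2Ω u v w hu hv hw huvw h1
    (fun x y => (forms_eq u v w huvw h1 h2 x y).2.2.2) hodd
  exact hne i hi

theorem sym_three (h2Ω : (2 : Ω) ≠ 0)
    (hu : ∀ i, u i ≠ 0) (hv : ∀ i, v i ≠ 0) (hw : ∀ i, w i ≠ 0)
    (huvw : ∀ i, u i + v i + w i = 0)
    (h1 : ∀ x y : Ω, ∏ i, (x * v i + y * u i) = ∏ i, (x * u i + y * v i))
    (h2 : ∀ x y : Ω, ∏ i, (x * w i + y * v i) = ∏ i, (x * v i + y * w i))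
    (hodd : Odd (Fintype.card ι)) :
    (∃ i, u i = v i) ∧ (∃ i, v i = w i) ∧ (∃ i, w i = u i) :=
  count_odd h2Ω u v w hu hv hw huvw h1
    (fun x y => (forms_eq u v w huvw h1 h2 x y).2.2.2) hodd

theorem sym_five (h2Ω : (2 : Ω) ≠ 0) (h3Ω : (3 : Ω) ≠ 0)
    (hu : ∀ i, u i ≠ 0) (hv : ∀ i, v i ≠ 0) (hw : ∀ i, w i ≠ 0)
    (huvw : ∀ i, u i + v i + w i = 0)
    (h1 : ∀ x y : Ω, ∏ i, (x * v i + y * u i) = ∏ i, (x * u i + y * v i))
    (h2 : ∀ x y : Ω, ∏ i, (x * w i + y * v i) = ∏ i, (x * v i + y * w i))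
    (hne : ∀ i, u i ≠ v i) (hne' : ∀ i, v i ≠ w i) (hne'' : ∀ i, w i ≠ u i)
    (h5 : Fintype.card ι ≤ 5) (i : ι) : u i ^ 2 + u i * v i + v i ^ 2 = 0 := by
  classical
  have _ := h2Ω
  have _ := h3Ω
  obtain ⟨s1, s2⟩ := KSym_symm u v w hu hv huvw h1
    (fun x y => (forms_eq u v w huvw h1 h2 x y).2.2.2)
  obtain ⟨M, hM⟩ : ∃ M : Multiset Ω, M = Finset.univ.val.map fun i => v i / u i := ⟨_, rfl⟩
  rw [← hM] at s1 s2
  have hcard : Multiset.card M ≤ 5 := by
    rw [hM, Multiset.card_map]
    exact h5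
  have m1 : ∀ t ∈ M, t⁻¹ ∈ M := fun t ht => by
    have := Multiset.mem_map_of_mem (fun t => t⁻¹) ht
    rwa [s1] at this
  have m2 : ∀ t ∈ M, -1 - t ∈ M := fun t ht => by
    have := Multiset.mem_map_of_mem (fun t => -1 - t) ht
    rwa [s2] at this
  obtain ⟨t, htd⟩ : ∃ t : Ω, t = v i / u i := ⟨_, rfl⟩
  have hvt : v i = t * u i := by rw [htd, div_mul_cancel₀ _ (hu i)]
  have ht : t ∈ M := by
    rw [hM, htd]
    exact Multiset.mem_map.2 ⟨i, Finset.mem_univ_val i, rfl⟩
  have hwt : w i = -(1 + t) * u i := by linear_combination huvw i - hvt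
  have h := KSym_six M hcard m1 m2 t ht
    (fun h => hv i (by rw [hvt, h, zero_mul]))
    (fun h => hw i (by rw [hwt, h]; ring))
    (fun h => hne i (by rw [hvt, h, one_mul]))
    (fun h => hne'' i (by rw [hwt]; linear_combination -(u i) * h))
    (fun h => hne' i (by rw [hwt, hvt]; linear_combination (u i) * h))
  rw [hvt]
  linear_combination (u i) ^ 2 * h

end

end H45KC
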