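import Pool.Agent.H9.FC.Scale
import Pool.Agent.H9.FC.Red

/-!
# KC, module KVal: from solutions in `K` to normalised solutions in `𝓞 K`

`Dv v x y z`: the prime `v` divides `x` relative to the triple `x, y, z` (`v(x)` is larger than the
minimum of the other two, in the multiplicative notation of Mathlib).
`nu K q x y z`: the sum of the local degrees `e f` over the primes above `q` with `Dv v x y z`.

PROOF of `exists_norm`. There is an integer `N ≠ 0` with `N a, N b, N c ∈ 𝓞 K` (`IsLocalization.exist_integer_multiples`,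
or `IsIntegral` clearing), `A = N a`, ... satisfy `FSol`.  `H9FC.exists_scale` with `n = p q` gives
`a', b', c'`, `y, m` with `y a' = m A` etc.; `λ = m N / y`.  A prime `P` with `p ∈ P` (or `q ∈ P`)
contains `n = p q`.
PROOF of `dv_iff`. `v` a prime above `q`, `P = v.asIdeal`.  Valuations: `v(x') = v(λ) v(x)`, `v(λ) ≠ 0`, so
`Dv v a b c ↔ v(a') < max (v(b'), v(c'))`.  All three values are `≤ 1`
(`valuation_le_one`), and `v(x') < 1 ↔ x' ∈ P` (`valuation_lt_one_iff_mem`); not all three are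
in `P` (`CopAt`), so: if `a' ∈ P` then `max (v b', v c') = 1 > v a'`; if `a' ∉ P` then `v a' = 1` is not
`< max ≤ 1`.
PROOF of `nu_eq_mm`. Both are finite sums of `e f` over corresponding index sets:
`v ↦ v.asIdeal` is a bijection from `{v : q ∈ v.asIdeal ∧ Dv v a b c}` to
`{P : P ∈ primesOver (q) ∧ a' ∈ P}` (`q ≠ 0`, so such `P ≠ ⊥`; `Ideal.mem_primesOver`, `liesOver` iff
`q ∈ P` for a prime number `q`).  (`finsum_mem_eq_of_bijOn` or `finsum_mem_image`.)
PROOF of `first_iff`. For a prime `v` above `p`: if none of `Dv v a b c`, `Dv v b c a`, `Dv v c a b`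
then none of `a', b', c'` is in `P`, and `v(a) = v(b) = v(c)`, and conversely.
-/

open NumberField IsDedekindDomain H9FC

namespace H45KC

/-- the prime `v` divides `x` relative to the triple `x, y, z` -/
def Dv {K : Type*} [Field K] [NumberField K] (v : HeightOneSpectrum (𝓞 K)) (x y z : K) : Prop :=
  v.valuation K x < max (v.valuation K y) (v.valuation K z)

/-- the sum of the local degrees `e f` over the primes of `K` above `q` dividing `x` relative to
the triple `x, y, z` -/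
noncomputable def nu (K : Type*) [Field K] [NumberField K] (q : ℕ) (x y z : K) : ℕ :=
  ∑ᶠ v ∈ {v : HeightOneSpectrum (𝓞 K) | (q : 𝓞 K) ∈ v.asIdeal ∧ Dv v x y z},
    v.asIdeal.ramificationIdx ℤ * v.asIdeal.inertiaDeg ℤ

private theorem KVal_ne {K : Type*} [Field K] [NumberField K] {x : 𝓞 K} {y : K}
    (h : (x : K) = y) (hy : y ≠ 0) : x ≠ 0 := by
  rintro rfl
  exact hy (h.symm.trans (map_zero (algebraMap (𝓞 K) K)))

theorem exists_norm (K : Type*) [Field K] [NumberField K] (p : ℕ) [Fact p.Prime] (q : ℕ)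
    [Fact q.Prime] (a b c : K) (ha : a ≠ 0) (hb : b ≠ 0) (hc : c ≠ 0)
    (h : a ^ p + b ^ p + c ^ p = 0) :
    ∃ (l : K) (a' b' c' : 𝓞 K), l ≠ 0 ∧ (a' : K) = l * a ∧ (b' : K) = l * b ∧ (c' : K) = l * c ∧
      FSol K p a' b' c' ∧ CopAt K p a' b' c' ∧ CopAt K q a' b' c' := by
  classical
  have hp : p.Prime := Fact.out
  have hq : q.Prime := Fact.out
  obtain ⟨N, hN⟩ := IsLocalization.exist_integer_multiples_of_finset
    (nonZeroDivisors (𝓞 K)) ({a, b, c} : Finset K)
  have hint : ∀ x ∈ ({a, b, c} : Finset K), ∃ X : 𝓞 K, (X : K) = ((N : 𝓞 K) : K) * x := by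
    intro x hx
    obtain ⟨X, hX⟩ := hN x hx
    refine ⟨X, ?_⟩
    rw [Algebra.smul_def] at hX
    exact hX
  obtain ⟨A, hA⟩ := hint a (by simp)
  obtain ⟨B, hB⟩ := hint b (by simp)
  obtain ⟨C, hC⟩ := hint c (by simp)
  have hN0 : (N : 𝓞 K) ≠ 0 := nonZeroDivisors.coe_ne_zero N
  have hN0' : ((N : 𝓞 K) : K) ≠ 0 := RingOfIntegers.coe_ne_zero_iff.2 hN0
  have hF : FSol K p A B C := by
    refine ⟨KVal_ne hA (mul_ne_zero hN0' ha), KVal_ne hB (mul_ne_zero hN0' hb),
      KVal_ne hC (mul_ne_zero hN0' hc), ?_⟩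
    apply FaithfulSMul.algebraMap_injective (𝓞 K) K
    rw [map_add, map_add, map_pow, map_pow, map_pow, map_zero]
    show (A : K) ^ p + (B : K) ^ p + (C : K) ^ p = 0
    rw [hA, hB, hC, mul_pow, mul_pow, mul_pow, ← mul_add, ← mul_add, h, mul_zero]
  obtain ⟨a', b', c', y, m, hy, hm, ea, eb, ec, hF', hcop⟩ :=
    exists_scale K p (p * q) (mul_ne_zero hp.ne_zero hq.ne_zero) A B C hF
  have hy' : (y : K) ≠ 0 := RingOfIntegers.coe_ne_zero_iff.2 hy
  have hm' : (m : K) ≠ 0 := RingOfIntegers.coe_ne_zero_iff.2 hm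
  have key : ∀ (x : K) (X x' : 𝓞 K), (X : K) = ((N : 𝓞 K) : K) * x → y * x' = m * X →
      (x' : K) = (m : K) * ((N : 𝓞 K) : K) / (y : K) * x := by
    intro x X x' hX hx'
    have h1 : (y : K) * (x' : K) = (m : K) * (X : K) := by exact_mod_cast congrArg (algebraMap (𝓞 K) K) hx'
    rw [hX] at h1
    field_simp
    linear_combination h1
  refine ⟨(m : K) * ((N : 𝓞 K) : K) / (y : K), a', b', c', div_ne_zero (mul_ne_zero hm' hN0') hy',
    key a A a' hA ea, key b B b' hB eb, key c C c' hC ec, hF', ?_, ?_⟩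
  · intro P hP hpP
    refine hcop P hP ?_
    rw [Nat.cast_mul]
    exact P.mul_mem_right _ hpP
  · intro P hP hpP
    refine hcop P hP ?_
    rw [Nat.cast_mul]
    exact P.mul_mem_left _ hpP

theorem dv_iff {K : Type*} [Field K] [NumberField K] {q : ℕ} {a b c l : K} (hl : l ≠ 0)
    {a' b' c' : 𝓞 K} (ea : (a' : K) = l * a) (eb : (b' : K) = l * b) (ec : (c' : K) = l * c)
    (hcq : CopAt K q a' b' c') (v : HeightOneSpectrum (𝓞 K)) (hv : (q : 𝓞 K) ∈ v.asIdeal) :
    Dv v a b c ↔ a' ∈ v.asIdeal := by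
  have hvl : v.valuation K l ≠ 0 := (Valuation.ne_zero_iff _).2 hl
  have hvl0 : 0 < v.valuation K l := zero_lt_iff.2 hvl
  have h1 : Dv v a b c ↔
      v.valuation K (a' : K) < max (v.valuation K (b' : K)) (v.valuation K (c' : K)) := by
    unfold Dv
    rw [ea, eb, ec, map_mul, map_mul, map_mul, ← mul_max, mul_lt_mul_iff_right₀ hvl0]
  have hle : ∀ x : 𝓞 K, v.valuation K (x : K) ≤ 1 := fun x => v.valuation_le_one x
  have hmem : ∀ x : 𝓞 K, v.valuation K (x : K) < 1 ↔ x ∈ v.asIdeal :=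
    fun x => v.valuation_lt_one_iff_mem x
  have heq : ∀ x : 𝓞 K, x ∉ v.asIdeal → v.valuation K (x : K) = 1 := fun x hx =>
    le_antisymm (hle x) (not_lt.1 fun h => hx ((hmem x).1 h))
  rw [h1]
  constructor
  · intro h2
    rw [← hmem]
    exact h2.trans_le (max_le (hle b') (hle c'))
  · intro h2
    have h3 := hcq v.asIdeal v.isPrime hv
    have h4 := (hmem a').2 h2
    by_cases hb : b' ∈ v.asIdeal
    · have hc : c' ∉ v.asIdeal := fun hc => h3 ⟨h2, hb, hc⟩
      exact lt_max_of_lt_right (by rw [heq c' hc]; exact h4)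
    · exact lt_max_of_lt_left (by rw [heq b' hb]; exact h4)

private theorem KVal_over {K : Type*} [Field K] [NumberField K] {q : ℕ} [Fact q.Prime]
    (P : Ideal (𝓞 K)) (hP : P.IsPrime) :
    P.LiesOver (Ideal.span {(q : ℤ)}) ↔ (q : 𝓞 K) ∈ P := by
  have hq : q.Prime := Fact.out
  constructor
  · intro h
    have h1 : (q : ℤ) ∈ P.under ℤ := by
      rw [← h.over]
      exact Ideal.mem_span_singleton_self _
    rw [Ideal.under_def, Ideal.mem_comap] at h1
    rwa [map_natCast] at h1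
  · intro h
    refine ⟨?_⟩
    have hmax : (Ideal.span {(q : ℤ)}).IsMaximal :=
      PrincipalIdealRing.isMaximal_of_irreducible (Nat.prime_iff_prime_int.1 hq).irreducible
    refine hmax.eq_of_le ?_ ?_
    · rw [Ideal.under_def]
      exact Ideal.comap_ne_top _ hP.ne_top
    · rw [Ideal.span_singleton_le_iff_mem, Ideal.under_def, Ideal.mem_comap, map_natCast]
      exact h

theorem nu_eq_mm {K : Type*} [Field K] [NumberField K] {q : ℕ} [Fact q.Prime] {a b c l : K}
    (hl : l ≠ 0)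
    {a' b' c' : 𝓞 K} (ea : (a' : K) = l * a) (eb : (b' : K) = l * b) (ec : (c' : K) = l * c)
    (hcq : CopAt K q a' b' c') :
    nu K q a b c = mm K q a' := by
  have hq : q.Prime := Fact.out
  unfold nu mm
  refine finsum_mem_eq_of_bijOn (fun v : HeightOneSpectrum (𝓞 K) => v.asIdeal) ⟨?_, ?_, ?_⟩
    (fun v _ => rfl)
  · rintro v ⟨hv, hd⟩
    exact ⟨⟨v.isPrime, (KVal_over v.asIdeal v.isPrime).2 hv⟩,
      (dv_iff hl ea eb ec hcq v hv).1 hd⟩
  · intro v _ w _ hvw
    exact HeightOneSpectrum.ext hvw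
  · rintro P ⟨⟨hP, hPq⟩, haP⟩
    have hqP := (KVal_over P hP).1 hPq
    have hne : P ≠ ⊥ := by
      rintro rfl
      rw [Ideal.mem_bot] at hqP
      exact hq.ne_zero (by exact_mod_cast hqP)
    let v : HeightOneSpectrum (𝓞 K) := ⟨P, hP, hne⟩
    exact ⟨v, ⟨hqP, (dv_iff hl ea eb ec hcq v hqP).2 haP⟩, rfl⟩

/-- `v` divides none of `a, b, c` iff the three valuations are equal -/
theorem not_dv_iff {K : Type*} [Field K] [NumberField K] {p : ℕ} [Fact p.Prime] {a b c : K}
    (ha : a ≠ 0) (hb : b ≠ 0) (hc : c ≠ 0) (h : a ^ p + b ^ p + c ^ p = 0)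
    (v : HeightOneSpectrum (𝓞 K)) :
    (¬ Dv v a b c ∧ ¬ Dv v b c a ∧ ¬ Dv v c a b) ↔
      (v.valuation K a = v.valuation K b ∧ v.valuation K b = v.valuation K c) := by
  unfold Dv
  constructor
  · rintro ⟨h1, h2, h3⟩
    rw [not_lt, max_le_iff] at h1 h2 h3
    exact ⟨le_antisymm h2.2 h1.1, le_antisymm h3.2 h2.1⟩
  · rintro ⟨h1, h2⟩
    rw [h1, h2, max_self]
    exact ⟨lt_irrefl _, lt_irrefl _, lt_irrefl _⟩

end H45KC
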