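import Pool.Agent.H45.KC.KPal
import Pool.Agent.H45.KC.KSym
import Pool.Agent.H45.KC.KCount
import Pool.Agent.H45.KC.KVal
import Pool.Agent.H9.FC.Eich
import Pool.Agent.H9.FC.LocCM
import Pool.Agent.H9.FC.WCond

/-!
# KC, module KMain: the theorems for normalised integral solutions
-/

open Polynomial NumberField IsDedekindDomain H9FC

namespace H45KC

/-- the hypothesis on `p` (with respect to the degree `d`) -/
def Cond (d p : ℕ) [Fact p.Prime] : Prop :=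
  (∃ r : ℕ, Nat.card {x : ClassGroup (𝓞 (CyclotomicField p ℚ)) // x ^ p = 1} ≤ p ^ r ∧
    d * (r + 1) * (r + 2) < p - 2) ∨
  (∃ r : ℕ, (irr p).card ≤ r ∧ d * (r + 1) * (r + 2) < p - 2) ∨
  (2 * d + 3 ≤ p ∧ ∀ j, Odd j → 3 ≤ j → j ≤ 2 * d + 1 →
    ¬ (p : ℤ) ∣ (_root_.bernoulli (p - j)).num)

theorem Cond.bound {d p : ℕ} [Fact p.Prime] (h : Cond d p) : 2 * d + 3 ≤ p := by
  have aux : ∀ r : ℕ, d * (r + 1) * (r + 2) < p - 2 → 2 * d + 3 ≤ p := by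
    intro r hr
    have h1 : d * 1 * 2 ≤ d * (r + 1) * (r + 2) :=
      Nat.mul_le_mul (Nat.mul_le_mul le_rfl (by omega)) (by omega)
    omega
  rcases h with ⟨r, -, h⟩ | ⟨r, -, h⟩ | ⟨h, -⟩
  · exact aux r h
  · exact aux r h
  · exact h

section
variable (K : Type*) [Field K] [NumberField K] (p : ℕ) [Fact p.Prime]

theorem qpal_of_cond (hC : Cond (Module.finrank ℚ K) p) (a b c : 𝓞 K) (h : FSol K p a b c)
    (hcp : CopAt K p a b c) : QPal p (nf K a b) (Module.finrank ℚ K) := by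
  have : IsCyclotomicExtension {p} ℚ (CyclotomicField p ℚ) :=
    CyclotomicField.isCyclotomicExtension p ℚ
  have hd0 : 0 < Module.finrank ℚ K := Module.finrank_pos
  have hb := hC.bound
  have hI : ∀ ζ : 𝓞 (CyclotomicField p ℚ), IsPrimitiveRoot ζ p →
      ∃ I : Ideal (𝓞 (CyclotomicField p ℚ)),
        I ^ p = Ideal.span {aeval ζ (nf K a b) * (aeval (ζ ^ (p - 1)) (nf K a b)) ^ (p - 1)} :=
    fun ζ hζ => (exists_pow_ideal K p (by omega) (by omega) a b c h (CyclotomicField p ℚ) hζ).2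
  rcases hC with ⟨r, h1, h2⟩ | ⟨r, h1, h2⟩ | ⟨h1, h2⟩
  · exact eich p (by omega) (CyclotomicField p ℚ) r h1 (nf K a b) (Module.finrank ℚ K)
      (nf_natDegree_le K a b) h2 (nf_map_ne_zero K p a b c h hcp) hI
  · exact eich_bern p (by omega) (CyclotomicField p ℚ) r h1 (nf K a b) (Module.finrank ℚ K)
      (nf_natDegree_le K a b) h2 (nf_map_ne_zero K p a b c h hcp) hI
  · exact eich_mir p (CyclotomicField p ℚ) (nf K a b) (Module.finrank ℚ K)
      (nf_natDegree_le K a b) h1 h2 (nf_map_ne_zero K p a b c h hcp) hI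

variable {K p}

theorem pal_ab (hC : Cond (Module.finrank ℚ K) p) {a b c : 𝓞 K} (h : FSol K p a b c)
    (hcp : CopAt K p a b c) {Ω : Type*} [Field Ω] [CharP Ω p]
    {ψ : Fin (Module.finrank ℚ K) → (𝓞 K →+* Ω)} (hψ : IsRedFam ψ) (x y : Ω) :
    ∏ i ∈ ZZ ψ a b c, (x * ψ i b + y * ψ i a) = ∏ i ∈ ZZ ψ a b c, (x * ψ i a + y * ψ i b) :=
  eich_fc_gen K p a b c h hcp (qpal_of_cond K p hC a b c h hcp) hψ x y

theorem ZZ_rot {Ω : Type*} [Field Ω] (ψ : Fin (Module.finrank ℚ K) → (𝓞 K →+* Ω)) (a b c : 𝓞 K) :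
    ZZ ψ b c a = ZZ ψ a b c := by
  ext i
  rw [mem_ZZ, mem_ZZ]
  tauto

theorem pal_bc (hC : Cond (Module.finrank ℚ K) p) {a b c : 𝓞 K} (h : FSol K p a b c)
    (hcp : CopAt K p a b c) {Ω : Type*} [Field Ω] [CharP Ω p]
    {ψ : Fin (Module.finrank ℚ K) → (𝓞 K →+* Ω)} (hψ : IsRedFam ψ) (x y : Ω) :
    ∏ i ∈ ZZ ψ a b c, (x * ψ i c + y * ψ i b) = ∏ i ∈ ZZ ψ a b c, (x * ψ i b + y * ψ i c) := by
  have := pal_ab hC h.rot hcp.rot hψ x y
  rwa [ZZ_rot] at this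

/-- the residues at the places not dividing `a b c` -/
theorem sym_data (hC : Cond (Module.finrank ℚ K) p) {a b c : 𝓞 K} (h : FSol K p a b c)
    (hcp : CopAt K p a b c) {Ω : Type*} [Field Ω] [CharP Ω p]
    {ψ : Fin (Module.finrank ℚ K) → (𝓞 K →+* Ω)} (hψ : IsRedFam ψ) :
    (∀ i : {i // i ∈ ZZ ψ a b c}, ψ i a ≠ 0) ∧ (∀ i : {i // i ∈ ZZ ψ a b c}, ψ i b ≠ 0) ∧
    (∀ i : {i // i ∈ ZZ ψ a b c}, ψ i c ≠ 0) ∧
    (∀ i : {i // i ∈ ZZ ψ a b c}, ψ i a + ψ i b + ψ i c = 0) ∧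
    (∀ x y : Ω, ∏ i : {i // i ∈ ZZ ψ a b c}, (x * ψ i b + y * ψ i a)
      = ∏ i : {i // i ∈ ZZ ψ a b c}, (x * ψ i a + y * ψ i b)) ∧
    (∀ x y : Ω, ∏ i : {i // i ∈ ZZ ψ a b c}, (x * ψ i c + y * ψ i b)
      = ∏ i : {i // i ∈ ZZ ψ a b c}, (x * ψ i b + y * ψ i c)) := by
  refine ⟨fun i => ((mem_ZZ ψ a b c i).mp i.2).1, fun i => ((mem_ZZ ψ a b c i).mp i.2).2.1,
    fun i => ((mem_ZZ ψ a b c i).mp i.2).2.2, fun i => fsol_hom h (ψ i), fun x y => ?_,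
    fun x y => ?_⟩
  · rw [Finset.prod_coe_sort (ZZ ψ a b c) (fun i => x * ψ i b + y * ψ i a),
      Finset.prod_coe_sort (ZZ ψ a b c) (fun i => x * ψ i a + y * ψ i b)]
    exact pal_ab hC h hcp hψ x y
  · rw [Finset.prod_coe_sort (ZZ ψ a b c) (fun i => x * ψ i c + y * ψ i b),
      Finset.prod_coe_sort (ZZ ψ a b c) (fun i => x * ψ i b + y * ψ i c)]
    exact pal_bc hC h hcp hψ x y

theorem char_ne {p : ℕ} [Fact p.Prime] (h5 : 5 ≤ p) {Ω : Type*} [Field Ω] [CharP Ω p] :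
    (2 : Ω) ≠ 0 ∧ (3 : Ω) ≠ 0 := by
  constructor
  · intro h0
    have h1 : ((2 : ℕ) : Ω) = 0 := by exact_mod_cast h0
    rw [CharP.cast_eq_zero_iff Ω p] at h1
    have := Nat.le_of_dvd (by norm_num) h1
    omega
  · intro h0
    have h1 : ((3 : ℕ) : Ω) = 0 := by exact_mod_cast h0
    rw [CharP.cast_eq_zero_iff Ω p] at h1
    have := Nat.le_of_dvd (by norm_num) h1
    omega

theorem five_le (hC : Cond (Module.finrank ℚ K) p) : 5 ≤ p := by
  have := hC.bound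
  have hd0 : 0 < Module.finrank ℚ K := Module.finrank_pos
  omega

/-- (1) parity -/
theorem main_even (hC : Cond (Module.finrank ℚ K) p) (hW : ¬ p ^ 2 ∣ 2 ^ (p - 1) - 1)
    {a b c : 𝓞 K} (h : FSol K p a b c) (hcp : CopAt K p a b c) :
    ∃ s : ℕ, Even s ∧ s + mm K p a + mm K p b + mm K p c = Module.finrank ℚ K := by
  obtain ⟨ψ, hψ⟩ := exists_redFam K p (AlgebraicClosure (ZMod p))
  obtain ⟨e1, e2, e3, e4, e5, e6⟩ := sym_data hC h hcp hψ
  have h5 := five_le hC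
  have hb := hC.bound
  refine ⟨(ZZ ψ a b c).card, ?_, card_ZZ K p a b c h hcp hψ⟩
  have := sym_even (fun i : {i // i ∈ ZZ ψ a b c} => ψ i a)
    (fun i : {i // i ∈ ZZ ψ a b c} => ψ i b) (fun i : {i // i ∈ ZZ ψ a b c} => ψ i c)
    (char_ne h5).1 e1 e2 e3 e4 e5 e6
    (fun i => cm_one (by omega) (by omega) h hW (ψ i) (e1 i))
  rwa [Fintype.card_coe] at this

/-- (2) three primes -/
theorem main_three (hC : Cond (Module.finrank ℚ K) p)
    {a b c : 𝓞 K} (h : FSol K p a b c) (hcp : CopAt K p a b c) (s : ℕ) (hs : Odd s)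
    (hsum : s + mm K p a + mm K p b + mm K p c = Module.finrank ℚ K) :
    ∃ P₁ P₂ P₃ : Ideal (𝓞 K), P₁ ≠ P₂ ∧ P₂ ≠ P₃ ∧ P₃ ≠ P₁ ∧
      ∀ P : Ideal (𝓞 K), P = P₁ ∨ P = P₂ ∨ P = P₃ →
        P.IsPrime ∧ (p : 𝓞 K) ∈ P ∧ a ∉ P ∧ b ∉ P ∧ c ∉ P := by
  obtain ⟨ψ, hψ⟩ := exists_redFam K p (AlgebraicClosure (ZMod p))
  obtain ⟨e1, e2, e3, e4, e5, e6⟩ := sym_data hC h hcp hψ
  have h5 := five_le hC
  have hcard : Odd (Fintype.card {i // i ∈ ZZ ψ a b c}) := by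
    rw [Fintype.card_coe]
    have := card_ZZ K p a b c h hcp hψ
    have h1 : (ZZ ψ a b c).card = s := by omega
    rwa [h1]
  obtain ⟨⟨i, hi⟩, ⟨j, hj⟩, ⟨k, hk⟩⟩ := sym_three (fun i : {i // i ∈ ZZ ψ a b c} => ψ i a)
    (fun i : {i // i ∈ ZZ ψ a b c} => ψ i b) (fun i : {i // i ∈ ZZ ψ a b c} => ψ i c)
    (char_ne h5).1 e1 e2 e3 e4 e5 e6 hcard
  have key : ∀ i : {i // i ∈ ZZ ψ a b c}, (RingHom.ker (ψ i)).IsPrime ∧
      (p : 𝓞 K) ∈ RingHom.ker (ψ i) ∧ a ∉ RingHom.ker (ψ i) ∧ b ∉ RingHom.ker (ψ i) ∧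
      c ∉ RingHom.ker (ψ i) := by
    intro i
    refine ⟨RingHom.ker_isPrime _, ?_, ?_, ?_, ?_⟩
    · rw [RingHom.mem_ker, map_natCast, CharP.cast_eq_zero]
    · exact fun h0 => e1 i h0
    · exact fun h0 => e2 i h0
    · exact fun h0 => e3 i h0
  have aux : ∀ (m : {i // i ∈ ZZ ψ a b c}), ψ m a = ψ m b → ψ m b = ψ m c → False := by
    intro m h1 h2
    have h3 := e4 m
    rw [← h2, h1] at h3
    have h4 : (3 : AlgebraicClosure (ZMod p)) * ψ m b = 0 := by linear_combination h3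
    rcases mul_eq_zero.mp h4 with h6 | h6
    · exact (char_ne (p := p) h5).2 h6
    · exact e2 m h6
  have mem : ∀ (m : {i // i ∈ ZZ ψ a b c}) (x y : 𝓞 K), ψ m x = ψ m y ↔
      x - y ∈ RingHom.ker (ψ m) := by
    intro m x y
    rw [RingHom.mem_ker, map_sub, sub_eq_zero]
  refine ⟨RingHom.ker (ψ i), RingHom.ker (ψ j), RingHom.ker (ψ k), ?_, ?_, ?_, ?_⟩
  · intro h0
    have h1 : ψ j a = ψ j b := by
      rw [mem, ← h0, ← mem]
      exact hi
    exact aux j h1 hj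
  · intro h0
    have h1 : ψ k b = ψ k c := by
      rw [mem, ← h0, ← mem]
      exact hj
    exact aux k (by rw [← hk]; exact h1.symm ▸ rfl) h1
  · intro h0
    have h1 : ψ i c = ψ i a := by
      rw [mem, ← h0, ← mem]
      exact hk
    exact aux i hi (by rw [h1]; exact hi.symm)
  · rintro P (rfl | rfl | rfl)
    · exact key i
    · exact key j
    · exact key k

/-- (3) the relation between the places above `q` and above `p`, `q ∈ {2, 3}` -/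
theorem main_rel (hC : Cond (Module.finrank ℚ K) p) (q : ℕ) [Fact q.Prime]
    (hWq : ¬ p ^ 2 ∣ q ^ (p - 1) - 1)
    (hq : (q = 2 ∧ ∀ P : Ideal (𝓞 K), P.IsPrime → (q : 𝓞 K) ∈ P → Nat.card (𝓞 K ⧸ P) ≤ 4) ∨
      (q = 3 ∧ ∀ P : Ideal (𝓞 K), P.IsPrime → (q : 𝓞 K) ∈ P → Nat.card (𝓞 K ⧸ P) ≤ 3))
    {a b c : 𝓞 K} (h : FSol K p a b c) (hcp : CopAt K p a b c) (hcq : CopAt K q a b c) :
    (mm K p a : ℤ) - mm K p b = (mm K q a : ℤ) - mm K q b := by
  obtain ⟨ψ, hψ⟩ := exists_redFam K p (AlgebraicClosure (ZMod p))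
  obtain ⟨φ, hφ⟩ := exists_redFam K q (AlgebraicClosure (ZMod q))
  have h5 := five_le hC
  have hb := hC.bound
  have h1 := wief_cond K p h5 (by omega) q hWq hq a b c h hcp hcq hψ
  have ha : mm K q a ≤ Module.finrank ℚ K := by
    rw [← card_zero_eq_mm q hφ a]
    refine (Nat.card_le_card_of_injective _ Subtype.val_injective).trans ?_
    simp
  have hb' : mm K q b ≤ Module.finrank ℚ K := by
    rw [← card_zero_eq_mm q hφ b]
    refine (Nat.card_le_card_of_injective _ Subtype.val_injective).trans ?_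
    simp
  apply rel_mm K p a b c (by omega) h hcp hψ (fun x y => pal_ab hC h hcp hψ x y) _ _
  · rw [h1]
    push_cast
    rfl
  · rw [abs_le]
    constructor <;> omega

/-- (4) Furtwängler -/
theorem main_furt (hC : Cond (Module.finrank ℚ K) p) (q : ℕ) [Fact q.Prime] (hqp : q ≠ p)
    (hWq : ¬ p ^ 2 ∣ q ^ (p - 1) - 1)
    {a b c : 𝓞 K} (h : FSol K p a b c) (hcp : CopAt K p a b c) (hcq : CopAt K q a b c)
    (hb : ∀ P : Ideal (𝓞 K), P.IsPrime → (q : 𝓞 K) ∈ P → b ∈ P)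
    (P : Ideal (𝓞 K)) (hP : P.IsPrime) (hpP : (p : 𝓞 K) ∈ P) : b ∈ P := by
  obtain ⟨ψ, hψ⟩ := exists_redFam K p (AlgebraicClosure (ZMod p))
  have h5 := five_le hC
  have hbd := hC.bound
  have h1 := furt_cond K p (by omega) (by omega) q hqp hWq a b c h hcp hcq hb hψ
  have h2 : (mm K p a : ℤ) - mm K p b = - (Module.finrank ℚ K : ℤ) := by
    apply rel_mm K p a b c (by omega) h hcp hψ (fun x y => pal_ab hC h hcp hψ x y) _ _
    · rw [h1]
      push_cast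
      rfl
    · rw [abs_neg, Nat.abs_cast]
  have h3 : mm K p b = Nat.card {i // ψ i b = 0} := (card_zero_eq_mm p hψ b).symm
  have h4 : Nat.card {i // ψ i b = 0} = Nat.card (Fin (Module.finrank ℚ K)) := by
    have h6 : Nat.card {i // ψ i b = 0} ≤ Nat.card (Fin (Module.finrank ℚ K)) :=
      Nat.card_le_card_of_injective _ Subtype.val_injective
    have h7 : Nat.card (Fin (Module.finrank ℚ K)) = Module.finrank ℚ K := by simp
    omega
  have h6 : ∀ i, ψ i b = 0 := by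
    intro i
    have h7 : Function.Bijective (Subtype.val : {i // ψ i b = 0} → Fin (Module.finrank ℚ K)) :=
      (Nat.bijective_iff_injective_and_card _).mpr ⟨Subtype.val_injective, h4⟩
    obtain ⟨j, hj⟩ := h7.2 i
    rw [← hj]
    exact j.2
  obtain ⟨i, hi⟩ := exists_redFam_ker hψ p P hP hpP
  rw [← hi, RingHom.mem_ker]
  exact h6 i

/-- (5) degree at most five, first case -/
theorem main_five (hC : Cond (Module.finrank ℚ K) p) (hW : ¬ p ^ 2 ∣ 2 ^ (p - 1) - 1)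
    {a b c : 𝓞 K} (h : FSol K p a b c) (hcp : CopAt K p a b c) (h5d : Module.finrank ℚ K ≤ 5)
    (P : Ideal (𝓞 K)) (hP : P.IsPrime) (hpP : (p : 𝓞 K) ∈ P)
    (ha : a ∉ P) (hb : b ∉ P) (hc : c ∉ P) : a ^ 2 + a * b + b ^ 2 ∈ P := by
  obtain ⟨ψ, hψ⟩ := exists_redFam K p (AlgebraicClosure (ZMod p))
  obtain ⟨e1, e2, e3, e4, e5, e6⟩ := sym_data hC h hcp hψ
  have h5 := five_le hC
  have hbd := hC.bound
  obtain ⟨i, hi⟩ := exists_redFam_ker hψ p P hP hpP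
  subst hi
  have hiZ : i ∈ ZZ ψ a b c := by
    rw [mem_ZZ]
    exact ⟨fun h0 => ha (RingHom.mem_ker.mpr h0), fun h0 => hb (RingHom.mem_ker.mpr h0),
      fun h0 => hc (RingHom.mem_ker.mpr h0)⟩
  have := sym_five (fun i : {i // i ∈ ZZ ψ a b c} => ψ i a)
    (fun i : {i // i ∈ ZZ ψ a b c} => ψ i b) (fun i : {i // i ∈ ZZ ψ a b c} => ψ i c)
    (char_ne h5).1 (char_ne h5).2 e1 e2 e3 e4 e5 e6
    (fun i => cm_one (by omega) (by omega) h hW (ψ i) (e1 i))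
    (fun i => cm_one (by omega) (by omega) h.rot hW (ψ i) (e2 i))
    (fun i => cm_one (by omega) (by omega) h.rot.rot hW (ψ i) (e3 i))
    (by
      rw [Fintype.card_coe]
      have := card_ZZ K p a b c h hcp hψ
      omega) ⟨i, hiZ⟩
  rw [RingHom.mem_ker]
  simpa using this

end

end H45KC
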