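import Pool.Agent.H45.KC.EichG

/-!
# KC, module QCore: from `P` to `F` (quasi-palindromic polynomials)

PROOF of `qpal_of_core`. Work in `k[X]`, `k = ZMod p`; `F̄ = F mod p`, and `F̄* = (F.reflect d) mod p`
`= F̄.reflect d` (`reflect_map`, or coefficientwise).  `F̄ = (X-1)^μ P̄`, `deg P̄ ≤ d - μ`, so
(`Polynomial.reflect_mul` with degree bounds `μ` and `d - μ`)
`F̄* = ((X-1)^μ).reflect μ * P̄.reflect (d-μ) = (1-X)^μ Q̄ = (-1)^μ (X-1)^μ Q̄`
(`(X-1).reflect 1 = 1 - X`, induction with `reflect_mul`).  `P̄(1) ≠ 0` and `Q̄(1) = P̄(1) ≠ 0`.  So the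
multiplicity of `1` in `F̄` is `μ`, that of `0` in `F̄` is `i` = the one in `P̄`, that of `0` in `F̄*` is `j`
= the one in `Q̄` (`rootMultiplicity_mul`, `X - 1` does not vanish at `0`; constants do not
matter). `X^j F̄ = (X-1)^μ X^j P̄ = (X-1)^μ X^i Q̄ = (-1)^μ X^i F̄*`.
PROOF of `exists_fact`. `F̄ ≠ 0`, `μ` = multiplicity of `1` in `F̄`, `F̄ = (X-1)^μ P̄`, `P̄(1) ≠ 0`
(`exists_eq_pow_rootMultiplicity_mul_and_not_dvd`), `deg P̄ = deg F̄ - μ ≤ d - μ`, `μ ≤ deg F̄ ≤ d`;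
lift `P̄` to `P ∈ ℤ[X]` coefficientwise with `natDegree P ≤ natDegree P̄`
(`Polynomial.lifts_and_natDegree_eq_and_monic`-like, `lifts_iff...`, or
`P = ∑ i ∈ range (deg P̄ + 1), C ((P̄.coeff i).val) X^i`).
-/

open Polynomial NumberField H9FC

namespace H45KC

private theorem QCore_reflect_pow {k : Type*} [Field k] (μ : ℕ) :
    ((X - 1 : k[X]) ^ μ).natDegree ≤ μ ∧ ((X - 1 : k[X]) ^ μ).reflect μ = (1 - X) ^ μ := by
  have hd : ∀ n : ℕ, ((X - 1 : k[X]) ^ n).natDegree ≤ n := by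
    intro n
    have h1 : (X - 1 : k[X]) = X - C 1 := by rw [C_1]
    rw [h1, natDegree_pow, natDegree_X_sub_C, mul_one]
  refine ⟨hd μ, ?_⟩
  induction μ with
  | zero => simp
  | succ n ih =>
    have h1 : (X - 1 : k[X]).natDegree ≤ 1 := by simpa using hd 1
    rw [pow_succ, reflect_mul _ _ (hd n) h1, ih, pow_succ]
    congr 1
    rw [reflect_sub, reflect_one_X, reflect_one, pow_one]

theorem qpal_of_core (p : ℕ) [Fact p.Prime] (F : ℤ[X]) (d μ : ℕ) (hμ : μ ≤ d)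
    (P Q : (ZMod p)[X])
    (hF : F.map (Int.castRingHom (ZMod p)) = (X - 1) ^ μ * P) (hP1 : P.eval 1 ≠ 0)
    (hP : P.natDegree ≤ d - μ) (hQ : Q = P.reflect (d - μ))
    (h : X ^ (Q.rootMultiplicity 0) * P = X ^ (P.rootMultiplicity 0) * Q) :
    QPal p F d := by
  have hP0 : P ≠ 0 := by
    rintro rfl
    simp at hP1
  have hQ0 : Q ≠ 0 := by
    rw [hQ]
    intro h0
    exact hP0 (reflect_eq_zero_iff.1 h0)
  have hX1 : (X - 1 : (ZMod p)[X]) = X - C 1 := by rw [C_1]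
  have hXne : (X - 1 : (ZMod p)[X]) ≠ 0 := by
    rw [hX1]
    exact X_sub_C_ne_zero 1
  have h1X : (1 - X : (ZMod p)[X]) ≠ 0 := by
    intro h0
    apply hXne
    rw [← neg_sub, h0, neg_zero]
  have hFs : (F.reflect d).map (Int.castRingHom (ZMod p)) = (1 - X) ^ μ * Q := by
    rw [← reflect_map, hF]
    have e1 : d = μ + (d - μ) := by omega
    conv_lhs => rw [e1]
    rw [reflect_mul _ _ (QCore_reflect_pow μ).1 hP, (QCore_reflect_pow μ).2, hQ]
  have m1 : (F.map (Int.castRingHom (ZMod p))).rootMultiplicity 1 = μ := by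
    rw [hF, rootMultiplicity_mul (mul_ne_zero (pow_ne_zero _ hXne) hP0), hX1,
      rootMultiplicity_X_sub_C_pow, rootMultiplicity_eq_zero hP1, add_zero]
  have m0 : (F.map (Int.castRingHom (ZMod p))).rootMultiplicity 0 = P.rootMultiplicity 0 := by
    rw [hF, rootMultiplicity_mul (mul_ne_zero (pow_ne_zero _ hXne) hP0)]
    have e1 : ((X - 1 : (ZMod p)[X]) ^ μ).rootMultiplicity 0 = 0 := by
      apply rootMultiplicity_eq_zero
      simp [IsRoot.def]
    rw [e1, zero_add]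
  have m0' : ((F.reflect d).map (Int.castRingHom (ZMod p))).rootMultiplicity 0 =
      Q.rootMultiplicity 0 := by
    rw [hFs, rootMultiplicity_mul (mul_ne_zero (pow_ne_zero _ h1X) hQ0)]
    have e1 : ((1 - X : (ZMod p)[X]) ^ μ).rootMultiplicity 0 = 0 := by
      apply rootMultiplicity_eq_zero
      simp [IsRoot.def]
    rw [e1, zero_add]
  unfold QPal
  rw [m1, m0, m0', hF, hFs]
  have e2 : (1 - X : (ZMod p)[X]) ^ μ = (-1) ^ μ * (X - 1) ^ μ := by
    rw [← mul_pow]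
    congr 1
    ring
  have e3 : (C ((-1) ^ μ) : (ZMod p)[X]) * (-1) ^ μ = 1 := by
    rw [C_pow, C_neg, C_1, ← mul_pow]
    simp
  calc X ^ (Q.rootMultiplicity 0) * ((X - 1) ^ μ * P)
      = (X - 1) ^ μ * (X ^ (Q.rootMultiplicity 0) * P) := by ring
    _ = (X - 1) ^ μ * (X ^ (P.rootMultiplicity 0) * Q) := by rw [h]
    _ = 1 * ((X - 1) ^ μ * (X ^ (P.rootMultiplicity 0) * Q)) := by rw [one_mul]
    _ = (C ((-1) ^ μ) * (-1) ^ μ) * ((X - 1) ^ μ * (X ^ (P.rootMultiplicity 0) * Q)) := by rw [e3]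
    _ = C ((-1) ^ μ) * X ^ (P.rootMultiplicity 0) * ((1 - X) ^ μ * Q) := by
      rw [e2]
      ring

theorem exists_fact (p : ℕ) [Fact p.Prime] (F : ℤ[X]) (d : ℕ) (hd : F.natDegree ≤ d)
    (hF : F.map (Int.castRingHom (ZMod p)) ≠ 0) :
    ∃ (μ : ℕ) (P : ℤ[X]), μ ≤ d ∧ P.natDegree ≤ d - μ ∧ ¬ (p : ℤ) ∣ P.eval 1 ∧
      F.map (Int.castRingHom (ZMod p)) = (X - 1) ^ μ * P.map (Int.castRingHom (ZMod p)) := by
  obtain ⟨q, hq, hnd⟩ := exists_eq_pow_rootMultiplicity_mul_and_not_dvd _ hF (1 : ZMod p)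
  set μ : ℕ := (F.map (Int.castRingHom (ZMod p))).rootMultiplicity 1 with hμ
  have hq0 : q ≠ 0 := by
    rintro rfl
    exact hnd (dvd_zero _)
  have hdeg : (F.map (Int.castRingHom (ZMod p))).natDegree = μ + q.natDegree := by
    rw [hq, natDegree_mul (pow_ne_zero _ (X_sub_C_ne_zero 1)) hq0, natDegree_pow,
      natDegree_X_sub_C, mul_one]
  have hle : (F.map (Int.castRingHom (ZMod p))).natDegree ≤ d := natDegree_map_le.trans hd
  have hlift : q ∈ lifts (Int.castRingHom (ZMod p)) := by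
    rw [lifts_iff_coeff_lifts]
    intro n
    exact ⟨((q.coeff n).val : ℤ), by simp⟩
  obtain ⟨P, hP, hPd⟩ := exists_natDegree_eq_of_mem_lifts hlift
  refine ⟨μ, P, by omega, by omega, ?_, ?_⟩
  · intro hdvd
    apply hnd
    have e1 : (P.map (Int.castRingHom (ZMod p))).eval 1 = ((P.eval 1 : ℤ) : ZMod p) :=
      eval_one_map _ _
    rw [dvd_iff_isRoot, IsRoot.def, ← hP, e1]
    exact (ZMod.intCast_zmod_eq_zero_iff_dvd _ p).2 hdvd
  · rw [hP]
    rw [C_1] at hq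
    exact hq

end H45KC
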