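import Pool.Agent.H45.KC.Bern

/-!
# KC, module BernB: the sums `∑_{t ∈ TB p b} t^(-j)`

PROOF. Let `j` be odd, `3 ≤ j ≤ p - 2`, `m = p - j`, which is even, `2 ≤ m ≤ p - 3`.
`S = ∑_{t=1}^{p-1} t^m`; `p ∣ S` (`m` is not divisible by `p - 1`: `FiniteField.sum_pow_lt_card_sub_one`
or `ZMod`), `β := (S/p) / m` in `ZMod p` (`S/p` the integer quotient, `m` is a unit).  By `bern_iff`,
`β = 0` iff `p^2 ∣ S` iff `p` divides the numerator of `B_m`.
For an integer `c` with `1 ≤ c ≤ p - 1` and `1 ≤ t < p` put `u = c t mod p`, `1 ≤ u < p`,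
`c t = u + p q_t`.
Modulo `p^2`: `u^m = (c t - p q_t)^m ≡ (c t)^m - m (c t)^(m-1) p q_t`, so
`m c^(m-1) t^(m-1) p q_t ≡ c^m t^m - u^m`, and (all modulo `p^2`; multiply by `m c^(m-1)`, which is
prime to `p`)
`m c^(m-1) ∑_t t^(m-1) u = m c^(m-1) ∑_t t^(m-1) (c t - p q_t) ≡ m c^m S - (c^m S - S)`,
because `t ↦ u` permutes `1..p-1`, so `∑ u^m = S`.  Put `W_c = ∑_t t^(m-1) (c t mod p)`. So
(*) `m c^(m-1) W_c ≡ (m c^m - c^m + 1) S` modulo `p^2`; `W_1 = S`.
Now for `1 ≤ b ≤ p - 2` and `1 ≤ t < p`: `t + (b t mod p) - ((b+1) t mod p)` is divisible by `p` and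
lies between `-p + 3` and `2p - 3`, hence it is `0` or `p`; it is `p` iff `p < t + (b t mod p)`
(note `t + (b t mod p) ≠ p` since `(b+1) t` is not divisible by `p`).  So
`p ∑_{t ∈ TB} t^(m-1) = S + W_b - W_(b+1)`.  Modulo `p^2`, multiplied by `m`, with `b, b+1` units:
`m (S + W_b - W_(b+1)) ≡ S (m + (m b - b + b^(1-m)) - (m (b+1) - (b+1) + (b+1)^(1-m)))
= S (1 + b^(1-m) - (b+1)^(1-m))`.
Divide by `p` (`S = p (S/p)`): in `ZMod p`: `m ∑_{t ∈ TB} t^(m-1) = (S/p) (1 + b^(1-m) - (b+1)^(1-m))`, and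
for units of `ZMod p`: `t^(m-1) = t^(p-1-j) = t^(-j)`, `b^(1-m) = b^(1-p+j) = b^j`.
-/

namespace H45KC

private theorem BernB_pow {R : Type*} [CommRing R] (a e : R) (he : e * e = 0) (k : ℕ) :
    (a - e) ^ (k + 1) = a ^ (k + 1) - (k + 1 : ℕ) * a ^ k * e := by
  induction k with
  | zero => simp
  | succ k ih =>
    rw [pow_succ, ih]
    push_cast
    have h1 : a ^ (k + 1 + 1) = a ^ (k + 1) * a := pow_succ _ _
    have h2 : a ^ (k + 1) = a ^ k * a := pow_succ _ _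
    linear_combination ((k : R) + 1) * a ^ k * he - h1 + (-((k : R) + 1) * e) * h2

/-- Multiplication by `p` in `ZMod (p ^ 2)`. -/
private theorem BernB_div (p : ℕ) [Fact p.Prime] (Z : ZMod (p ^ 2)) (h : (p : ZMod (p ^ 2)) * Z = 0) :
    ZMod.castHom (Dvd.intro_left p (by ring) : p ∣ p ^ 2) (ZMod p) Z = 0 := by
  have hp : p.Prime := Fact.out
  have hne : NeZero (p ^ 2) := ⟨pow_ne_zero 2 hp.ne_zero⟩
  have h1 : ((Z.val : ℕ) : ZMod (p ^ 2)) = Z := ZMod.natCast_zmod_val Z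
  rw [← h1, ← Nat.cast_mul, ZMod.natCast_eq_zero_iff] at h
  have h2 : p ∣ Z.val := by
    have h3 : p * p ∣ p * Z.val := (pow_two p).symm.dvd.trans h
    exact Nat.dvd_of_mul_dvd_mul_left hp.pos h3
  rw [← h1, map_natCast]
  exact (ZMod.natCast_eq_zero_iff _ _).2 h2

private theorem BernB_units (p : ℕ) [Fact p.Prime] {m : ℕ} (hm : m ≠ 0) :
    ∑ t : (ZMod p)ˣ, t.val.val ^ m = ∑ t ∈ Finset.range p, t ^ m := by
  have hp : p.Prime := Fact.out
  refine Finset.sum_of_injOn (fun t : (ZMod p)ˣ => t.val.val) ?_ ?_ ?_ ?_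
  · intro s _ t _ h
    exact Units.ext (ZMod.val_injective p h)
  · intro t _
    exact Finset.mem_coe.2 (Finset.mem_range.2 (ZMod.val_lt _))
  · intro i hi hni
    rcases Nat.eq_zero_or_pos i with h0 | h0
    · rw [h0, zero_pow hm]
    · exfalso
      apply hni
      have hi' := Finset.mem_range.1 hi
      have h1 : ((i : ℕ) : ZMod p) ≠ 0 := by
        rw [Ne, ZMod.natCast_eq_zero_iff]
        exact Nat.not_dvd_of_pos_of_lt h0 hi'
      refine ⟨Units.mk0 _ h1, Finset.mem_coe.2 (Finset.mem_univ _), ?_⟩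
      show ((Units.mk0 (i : ZMod p) h1 : (ZMod p)ˣ) : ZMod p).val = i
      rw [Units.val_mk0, ZMod.val_natCast, Nat.mod_eq_of_lt hi']
  · intro t _
    rfl

private theorem BernB_val (p : ℕ) [Fact p.Prime] (c : ℕ) (hc : ((c : ℕ) : ZMod p) ≠ 0) (t : (ZMod p)ˣ) :
    ((Units.mk0 (c : ZMod p) hc * t : (ZMod p)ˣ) : ZMod p).val = (c * t.val.val) % p := by
  have h1 : ((Units.mk0 (c : ZMod p) hc * t : (ZMod p)ˣ) : ZMod p) =
      ((c * t.val.val : ℕ) : ZMod p) := by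
    rw [Units.val_mul, Units.val_mk0, Nat.cast_mul, ZMod.natCast_zmod_val]
  rw [h1, ZMod.val_natCast]

private theorem BernB_perm (p : ℕ) [Fact p.Prime] (c : ℕ) (hc : ((c : ℕ) : ZMod p) ≠ 0) (m : ℕ) :
    ∑ t : (ZMod p)ˣ, ((c * t.val.val) % p) ^ m = ∑ t : (ZMod p)ˣ, t.val.val ^ m := by
  rw [← Equiv.sum_comp (Equiv.mulLeft (Units.mk0 (c : ZMod p) hc))
    (fun t : (ZMod p)ˣ => t.val.val ^ m)]
  refine Finset.sum_congr rfl fun t _ => ?_
  rw [Equiv.coe_mulLeft, BernB_val]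

/-- The weighted sums. -/
private def BernB_W (p : ℕ) [Fact p.Prime] (m c : ℕ) : ℕ :=
  ∑ t : (ZMod p)ˣ, t.val.val ^ (m - 1) * ((c * t.val.val) % p)

private theorem BernB_star (p : ℕ) [Fact p.Prime] {m : ℕ} (hm : 2 ≤ m) (c : ℕ)
    (hc : ((c : ℕ) : ZMod p) ≠ 0) :
    (m : ZMod (p ^ 2)) * (c : ZMod (p ^ 2)) ^ (m - 1) * (BernB_W p m c : ZMod (p ^ 2)) =
      ((m : ZMod (p ^ 2)) * (c : ZMod (p ^ 2)) ^ m - (c : ZMod (p ^ 2)) ^ m + 1) *
        ((∑ t : (ZMod p)ˣ, t.val.val ^ m : ℕ) : ZMod (p ^ 2)) := by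
  have hpp : (p : ZMod (p ^ 2)) * (p : ZMod (p ^ 2)) = 0 := by
    rw [← Nat.cast_mul, ← pow_two, ZMod.natCast_self]
  obtain ⟨k, rfl⟩ : ∃ k, m = k + 1 := ⟨m - 1, by omega⟩
  have hterm : ∀ x : ℕ, ((k + 1 : ℕ) : ZMod (p ^ 2)) * (c : ZMod (p ^ 2)) ^ k *
      ((x : ZMod (p ^ 2)) ^ k * (((c * x) % p : ℕ) : ZMod (p ^ 2))) =
      (((k + 1 : ℕ) : ZMod (p ^ 2)) * (c : ZMod (p ^ 2)) ^ (k + 1) - (c : ZMod (p ^ 2)) ^ (k + 1)) *
        (x : ZMod (p ^ 2)) ^ (k + 1) + (((c * x) % p : ℕ) : ZMod (p ^ 2)) ^ (k + 1) := by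
    intro x
    set q : ℕ := c * x / p with hq
    have h1 : (((c * x) % p : ℕ) : ZMod (p ^ 2)) =
        (c : ZMod (p ^ 2)) * x - (p : ZMod (p ^ 2)) * q := by
      have h2 : (c * x) % p + p * q = c * x := Nat.mod_add_div (c * x) p
      have h3 : (((c * x) % p + p * q : ℕ) : ZMod (p ^ 2)) = ((c * x : ℕ) : ZMod (p ^ 2)) := by
        rw [h2]
      push_cast at h3
      linear_combination h3
    rw [h1]
    have h4 := BernB_pow ((c : ZMod (p ^ 2)) * x) ((p : ZMod (p ^ 2)) * q)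
      (by linear_combination ((q : ZMod (p ^ 2)) * q) * hpp) k
    rw [h4]
    ring
  have hS : ((∑ t : (ZMod p)ˣ, t.val.val ^ (k + 1) : ℕ) : ZMod (p ^ 2)) =
      ∑ t : (ZMod p)ˣ, (t.val.val : ZMod (p ^ 2)) ^ (k + 1) := by
    push_cast
    rfl
  have hS2 : ∑ t : (ZMod p)ˣ, (((c * t.val.val) % p : ℕ) : ZMod (p ^ 2)) ^ (k + 1) =
      ∑ t : (ZMod p)ˣ, (t.val.val : ZMod (p ^ 2)) ^ (k + 1) := by
    rw [← hS, ← BernB_perm p c hc (k + 1)]
    push_cast
    rfl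
  have hW : (BernB_W p (k + 1) c : ZMod (p ^ 2)) =
      ∑ t : (ZMod p)ˣ, (t.val.val : ZMod (p ^ 2)) ^ k *
        (((c * t.val.val) % p : ℕ) : ZMod (p ^ 2)) := by
    unfold BernB_W
    rw [Nat.cast_sum]
    refine Finset.sum_congr rfl fun t _ => ?_
    rw [Nat.cast_mul, Nat.cast_pow, Nat.add_sub_cancel]
  rw [hW, Nat.add_sub_cancel, Finset.mul_sum, Finset.sum_congr rfl fun t _ => hterm t.val.val,
    Finset.sum_add_distrib, ← Finset.mul_sum, hS2, hS]
  ring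

private theorem BernB_ne (p : ℕ) {c : ℕ} (h1 : 1 ≤ c) (h2 : c < p) : ((c : ℕ) : ZMod p) ≠ 0 := by
  rw [Ne, ZMod.natCast_eq_zero_iff]
  exact Nat.not_dvd_of_pos_of_lt h1 h2

open Classical in
private theorem BernB_key (p : ℕ) [Fact p.Prime] {b : ℕ} (hb1 : 1 ≤ b) (hb2 : b + 2 ≤ p)
    (t : (ZMod p)ˣ) :
    t.val.val + (b * t.val.val) % p =
      ((b + 1) * t.val.val) % p + if p < t.val.val + (b * t.val.val) % p then p else 0 := by
  have hp : p.Prime := Fact.out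
  set x := t.val.val with hx
  have hxp : x < p := ZMod.val_lt _
  have h1 : ((b + 1) * x) % p = (x + (b * x) % p) % p := by
    rw [Nat.add_mod_mod]
    congr 1
    ring
  have h2 : (b * x) % p < p := Nat.mod_lt _ hp.pos
  set y := x + (b * x) % p with hy
  rw [h1]
  have hyp : y ≠ p := by
    intro h3
    rw [h3, Nat.mod_self] at h1
    have h4 := BernB_val p (b + 1) (BernB_ne p (by omega) (by omega)) t
    rw [← hx, h1] at h4
    have h5 := (ZMod.val_eq_zero _).1 h4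
    exact Units.ne_zero _ h5
  rcases lt_or_gt_of_ne hyp with h3 | h3
  · rw [if_neg (by omega), add_zero, Nat.mod_eq_of_lt h3]
  · rw [if_pos h3, Nat.mod_eq_sub_mod h3.le, Nat.mod_eq_of_lt (by omega)]
    omega

private theorem BernB_sum (p : ℕ) [Fact p.Prime] {m b : ℕ} (hm : 2 ≤ m) (hb1 : 1 ≤ b)
    (hb2 : b + 2 ≤ p) :
    ∑ t : (ZMod p)ˣ, t.val.val ^ m + BernB_W p m b =
      BernB_W p m (b + 1) + p * ∑ t ∈ TB p b, t.val.val ^ (m - 1) := by
  classical
  have h1 : p * ∑ t ∈ TB p b, t.val.val ^ (m - 1) =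
      ∑ t : (ZMod p)ˣ, t.val.val ^ (m - 1) *
        (if p < t.val.val + (b * t.val.val) % p then p else 0) := by
    unfold TB
    rw [Finset.mul_sum, Finset.sum_filter]
    refine Finset.sum_congr rfl fun t _ => ?_
    split_ifs
    · ring
    · ring
  rw [h1]
  unfold BernB_W
  rw [← Finset.sum_add_distrib, ← Finset.sum_add_distrib]
  refine Finset.sum_congr rfl fun t _ => ?_
  have h2 := BernB_key p hb1 hb2 t
  have h3 : t.val.val ^ m = t.val.val ^ (m - 1) * t.val.val := by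
    rw [← pow_succ]
    congr 1
    omega
  rw [h3, ← mul_add, ← mul_add]
  exact congrArg (fun z => t.val.val ^ (m - 1) * z) h2

theorem bern_sum (p : ℕ) [Fact p.Prime] (j : ℕ) (hj : Odd j) (h3 : 3 ≤ j) (hjp : j + 2 ≤ p) :
    ∃ β : ZMod p, (β = 0 ↔ (p : ℤ) ∣ (bernoulli (p - j)).num) ∧
      ∀ b : ℕ, 1 ≤ b → b + 2 ≤ p →
        ∑ t ∈ TB p b, (((t⁻¹ : (ZMod p)ˣ) : ZMod p)) ^ j
          = (1 + (b : ZMod p) ^ j - ((b : ZMod p) + 1) ^ j) * β := by
  have hp : p.Prime := Fact.out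
  have hpodd : Odd p := hp.odd_of_ne_two (by omega)
  set m : ℕ := p - j with hmdef
  have hm2 : 2 ≤ m := by omega
  have hm3 : m + 3 ≤ p := by omega
  have hmj : m + j = p := by omega
  have hme : Even m := Nat.Odd.sub_odd hpodd hj
  set S : ℕ := ∑ t : (ZMod p)ˣ, t.val.val ^ m with hS
  have hSr : S = ∑ t ∈ Finset.range p, t ^ m := BernB_units p (by omega)
  have hpS : p ∣ S := by
    rw [← ZMod.natCast_eq_zero_iff, hS, Nat.cast_sum]
    have h1 : ∀ t ∈ (Finset.univ : Finset (ZMod p)ˣ), ((t.val.val ^ m : ℕ) : ZMod p) =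
        (t : ZMod p) ^ m := by
      intro t _
      rw [Nat.cast_pow, ZMod.natCast_zmod_val]
    rw [Finset.sum_congr rfl h1]
    have h2 := FiniteField.sum_pow_units (ZMod p) m
    rw [h2, if_neg]
    rw [ZMod.card]
    intro h3
    have := Nat.le_of_dvd (by omega) h3
    omega
  obtain ⟨s, hs⟩ := hpS
  have hm0 : ((m : ℕ) : ZMod p) ≠ 0 := BernB_ne p (by omega) (by omega)
  refine ⟨(s : ZMod p) / m, ?_, fun b hb1 hb2 => ?_⟩
  · rw [bern_iff p m hme hm2 hm3, ← hSr, hs, div_eq_zero_iff, or_iff_left hm0,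
      ZMod.natCast_eq_zero_iff, pow_two]
    exact (Nat.mul_dvd_mul_iff_left hp.pos).symm
  · -- the identity modulo `p ^ 2`
    have hcop : ∀ c : ℕ, 1 ≤ c → c < p → (c : ZMod (p ^ 2)) * (c : ZMod (p ^ 2))⁻¹ = 1 := by
      intro c h1 h2
      refine ZMod.coe_mul_inv_eq_one c ?_
      refine Nat.Coprime.pow_right 2 (Nat.Coprime.symm ?_)
      exact (Nat.Prime.coprime_iff_not_dvd hp).2 (Nat.not_dvd_of_pos_of_lt h1 h2)
    have hW : ∀ c : ℕ, 1 ≤ c → c < p → (m : ZMod (p ^ 2)) * (BernB_W p m c : ZMod (p ^ 2)) =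
        (((m : ZMod (p ^ 2)) - 1) * c + ((c : ZMod (p ^ 2))⁻¹) ^ (m - 1)) * (S : ZMod (p ^ 2)) := by
      intro c h1 h2
      have e1 := BernB_star p hm2 c (BernB_ne p h1 h2)
      rw [← hS] at e1
      have e2 := hcop c h1 h2
      have e3 : (c : ZMod (p ^ 2)) ^ (m - 1) * ((c : ZMod (p ^ 2))⁻¹) ^ (m - 1) = 1 := by
        rw [← mul_pow, e2, one_pow]
      have e4 : (c : ZMod (p ^ 2)) ^ m = (c : ZMod (p ^ 2)) ^ (m - 1) * c := by
        rw [← pow_succ]
        congr 1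
        omega
      rw [e4] at e1
      linear_combination ((c : ZMod (p ^ 2))⁻¹) ^ (m - 1) * e1 +
        (-(m : ZMod (p ^ 2)) * (BernB_W p m c : ZMod (p ^ 2)) +
          ((m : ZMod (p ^ 2)) - 1) * c * (S : ZMod (p ^ 2))) * e3
    have e1 := hW b hb1 (by omega)
    have e2 := hW (b + 1) (by omega) (by omega)
    have e3 : ((S + BernB_W p m b : ℕ) : ZMod (p ^ 2)) =
        ((BernB_W p m (b + 1) + p * ∑ t ∈ TB p b, t.val.val ^ (m - 1) : ℕ) : ZMod (p ^ 2)) := by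
      rw [hS, BernB_sum p hm2 hb1 hb2]
    push_cast at e2 e3
    have hSs : (S : ZMod (p ^ 2)) = (p : ZMod (p ^ 2)) * s := by
      rw [hs]
      push_cast
      rfl
    have e4 : (p : ZMod (p ^ 2)) * ((m : ZMod (p ^ 2)) *
          ∑ t ∈ TB p b, (t.val.val : ZMod (p ^ 2)) ^ (m - 1) -
        s * (1 + ((b : ZMod (p ^ 2))⁻¹) ^ (m - 1) -
          (((b : ZMod (p ^ 2)) + 1)⁻¹) ^ (m - 1))) = 0 := by
      linear_combination (-(m : ZMod (p ^ 2))) * e3 + e1 - e2 +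
        (1 + ((b : ZMod (p ^ 2))⁻¹) ^ (m - 1) - (((b : ZMod (p ^ 2)) + 1)⁻¹) ^ (m - 1)) * hSs
    have e5 := BernB_div p _ e4
    set f : ZMod (p ^ 2) →+* ZMod p :=
      ZMod.castHom (Dvd.intro_left p (by ring) : p ∣ p ^ 2) (ZMod p) with hf
    have hfinv : ∀ c : ℕ, 1 ≤ c → c < p →
        (f ((c : ZMod (p ^ 2))⁻¹)) ^ (m - 1) = (c : ZMod p) ^ j := by
      intro c h1 h2
      have g1 : (c : ZMod p) * f ((c : ZMod (p ^ 2))⁻¹) = 1 := by
        have g2 := congrArg f (hcop c h1 h2)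
        rw [map_mul, map_natCast, map_one] at g2
        exact g2
      have g2 : (c : ZMod p) ^ (m - 1) * (c : ZMod p) ^ j = 1 := by
        rw [← pow_add]
        have : m - 1 + j = p - 1 := by omega
        rw [this]
        exact ZMod.pow_card_sub_one_eq_one (BernB_ne p h1 h2)
      have g3 : (c : ZMod p) ^ (m - 1) * (f ((c : ZMod (p ^ 2))⁻¹)) ^ (m - 1) = 1 := by
        rw [← mul_pow, g1, one_pow]
      have g4 : (c : ZMod p) ^ (m - 1) ≠ 0 := pow_ne_zero _ (BernB_ne p h1 h2)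
      exact mul_left_cancel₀ g4 (g3.trans g2.symm)
    have f1 := hfinv b hb1 (by omega)
    have f2 := hfinv (b + 1) (by omega) (by omega)
    push_cast at f2
    have f3 : f (∑ t ∈ TB p b, (t.val.val : ZMod (p ^ 2)) ^ (m - 1)) =
        ∑ t ∈ TB p b, (((t⁻¹ : (ZMod p)ˣ) : ZMod p)) ^ j := by
      rw [map_sum]
      refine Finset.sum_congr rfl fun t _ => ?_
      rw [map_pow, map_natCast, ZMod.natCast_zmod_val]
      have g1 : (t : ZMod p) ^ (m - 1) * (t : ZMod p) ^ j = 1 := by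
        rw [← pow_add]
        have : m - 1 + j = p - 1 := by omega
        rw [this]
        exact ZMod.pow_card_sub_one_eq_one (Units.ne_zero t)
      have g2 : (((t⁻¹ : (ZMod p)ˣ) : ZMod p)) ^ j * (t : ZMod p) ^ j = 1 := by
        rw [← mul_pow, Units.inv_mul, one_pow]
      exact mul_right_cancel₀ (pow_ne_zero j (Units.ne_zero t)) (g1.trans g2.symm)
    rw [map_sub, map_mul, map_mul, map_sub, map_add, map_one, map_pow, map_pow, map_natCast,
      map_natCast, f1, f2, f3] at e5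
    have e6 : (m : ZMod p) * ∑ t ∈ TB p b, (((t⁻¹ : (ZMod p)ˣ) : ZMod p)) ^ j =
        s * (1 + (b : ZMod p) ^ j - ((b : ZMod p) + 1) ^ j) := by
      linear_combination e5
    rw [mul_div_assoc', eq_div_iff hm0]
    linear_combination e6

/-- The polynomial `1 + T^j - (T+1)^j` over `ZMod p` has degree `j - 1` (leading coefficient `-j ≠ 0`;
`3 ≤ j ≤ p - 2`, `j` odd is not needed), so it has at most `j - 1 ≤ p - 3` zeros, less than the number
`p - 2` of the `b` with `1 ≤ b ≤ p - 2`. -/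
theorem exists_b (p : ℕ) [Fact p.Prime] (j : ℕ) (h3 : 3 ≤ j) (hjp : j + 2 ≤ p) :
    ∃ b : ℕ, 1 ≤ b ∧ b + 2 ≤ p ∧ 1 + (b : ZMod p) ^ j - ((b : ZMod p) + 1) ^ j ≠ 0 := by
  classical
  have hp : p.Prime := Fact.out
  by_contra hcon
  push Not at hcon
  set F : Polynomial (ZMod p) := 1 + Polynomial.X ^ j - (Polynomial.X + 1) ^ j with hF
  have hcoeff : ∀ k : ℕ, k ≠ 0 → F.coeff k = (if k = j then 1 else 0) - (j.choose k : ZMod p) := by
    intro k hk
    rw [hF, Polynomial.coeff_sub, Polynomial.coeff_add, Polynomial.coeff_one, if_neg hk,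
      Polynomial.coeff_X_pow, Polynomial.coeff_X_add_one_pow, zero_add]
  have hdeg : F.natDegree ≤ j - 1 := by
    rw [Polynomial.natDegree_le_iff_coeff_eq_zero]
    intro k hk
    rw [hcoeff k (by omega)]
    rcases (by omega : k = j ∨ j < k) with h1 | h1
    · rw [if_pos h1, h1, Nat.choose_self]
      push_cast
      ring
    · rw [if_neg (by omega), Nat.choose_eq_zero_of_lt h1]
      push_cast
      ring
  have hzero : F = 0 := by
    refine Polynomial.eq_zero_of_natDegree_lt_card_of_eval_eq_zero' F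
      ((Finset.Icc 1 (p - 2)).image fun b : ℕ => (b : ZMod p)) ?_ ?_
    · intro x hx
      obtain ⟨b, hb, rfl⟩ := Finset.mem_image.1 hx
      rw [Finset.mem_Icc] at hb
      have h1 := hcon b hb.1 (by omega)
      rw [hF]
      simp only [Polynomial.eval_sub, Polynomial.eval_add, Polynomial.eval_one,
        Polynomial.eval_pow, Polynomial.eval_X]
      exact h1
    · rw [Finset.card_image_of_injOn, Nat.card_Icc]
      · omega
      · intro a ha b hb hab
        have ha' := Finset.mem_Icc.1 (Finset.mem_coe.1 ha)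
        have hb' := Finset.mem_Icc.1 (Finset.mem_coe.1 hb)
        have h1 : ((a : ℕ) : ZMod p) = (b : ZMod p) := hab
        have h2 := congrArg ZMod.val h1
        rw [ZMod.val_natCast, ZMod.val_natCast, Nat.mod_eq_of_lt (by omega),
          Nat.mod_eq_of_lt (by omega)] at h2
        exact h2
  have h1 := hcoeff (j - 1) (by omega)
  rw [hzero, Polynomial.coeff_zero, if_neg (by omega)] at h1
  have h2 : j.choose (j - 1) = j := by
    rw [Nat.choose_symm_of_eq_add (show j = (j - 1) + 1 by omega), Nat.choose_one_right]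
  rw [h2] at h1
  have h3 : ((j : ℕ) : ZMod p) ≠ 0 := BernB_ne p (by omega) (by omega)
  apply h3
  linear_combination h1

end H45KC
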