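import Pool.Agent.H45.KC.Defs

/-!
# KC, module Bern: power sums modulo `p ^ 2` and Bernoulli numbers

PROOF. Let `m` be even, `2 ≤ m ≤ p - 3`, `S = ∑_{t=1}^{p-1} t^m` (`= ∑_{t<p} t^m`).
(1) `p` does not divide the denominator of `B_i = bernoulli i` for `i ≤ p - 2`: strong induction with
`B_i = - (1/(i+1)) ∑_{k<i} C(i+1,k) B_k` (`i ≥ 1`; Mathlib `sum_bernoulli` / `bernoulli_def`,
`bernoulli'_def`), `i + 1 < p` is prime to `p`; `B_0 = 1`.
(2) Mathlib `sum_range_pow`: `∑_{t<n} t^m = ∑_{i ≤ m} B_i C(m+1,i) n^(m+1-i)/(m+1)`; with `n = p`: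
`S = p B_m + (i = m - 1 term) + (terms with p^3)`. For `i = m - 1`: `B_(m-1) C(m+1,m-1) p^2/(m+1)`,
which is `p^2` times a `p`-integral number (`m + 1 < p`).  So `S - p B_m = p^2 x` with `x` a rational
number whose denominator is prime to `p`.
(3) Hence `p^2 ∣ S` iff `p^2` divides the `p`-integral number `p B_m`, iff `p` divides the numerator
of `B_m`.
-/

namespace H45KC

private theorem Bern_one (p : ℕ) [Fact p.Prime] (n : ℕ) (h0 : 0 < n) (hn : n < p) :
    padicNorm p (n : ℚ) = 1 := by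
  rw [padicNorm.nat_eq_one_iff]
  exact fun h => absurd (Nat.le_of_dvd h0 h) (by omega)

private theorem Bern_int' (p : ℕ) [Fact p.Prime] (n : ℕ) (hn : n + 2 ≤ p) :
    padicNorm p (bernoulli' n) ≤ 1 := by
  induction n using Nat.strong_induction_on with
  | _ n ih =>
    rw [bernoulli'_def]
    refine padicNorm.sub.trans (max_le padicNorm.one.le ?_)
    refine padicNorm.sum_le' (fun k hk => ?_) zero_le_one
    have hk' : k < n := Finset.mem_range.1 hk
    have e : ((n : ℚ) - k + 1) = ((n - k + 1 : ℕ) : ℚ) := by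
      rw [Nat.cast_add, Nat.cast_sub hk'.le, Nat.cast_one]
    rw [padicNorm.mul, padicNorm.div, e, Bern_one p (n - k + 1) (by omega) (by omega), div_one]
    exact mul_le_one₀ (padicNorm.of_nat _) (padicNorm.nonneg _) (ih k hk' (by omega))

private theorem Bern_int (p : ℕ) [Fact p.Prime] (n : ℕ) (hn : n + 2 ≤ p) :
    padicNorm p (bernoulli n) ≤ 1 := by
  rw [bernoulli]
  rcases neg_one_pow_eq_or ℚ n with h | h
  · rw [h, one_mul]
    exact Bern_int' p n hn
  · rw [h, neg_one_mul, padicNorm.neg]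
    exact Bern_int' p n hn

private theorem Bern_diff (p : ℕ) [Fact p.Prime] (m : ℕ) (hm' : m + 3 ≤ p) :
    padicNorm p ((∑ t ∈ Finset.range p, (t : ℚ) ^ m) - p * bernoulli m) ≤ (p : ℚ) ^ (-2 : ℤ) := by
  have hp0 : (0 : ℚ) < p := by exact_mod_cast Nat.Prime.pos Fact.out
  rw [sum_range_pow, Finset.sum_range_succ]
  have hm1 : ((m : ℚ) + 1) ≠ 0 := by positivity
  have e1 : bernoulli m * ((m + 1).choose m) * (p : ℚ) ^ (m + 1 - m) / (m + 1) =
      p * bernoulli m := by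
    rw [Nat.choose_succ_self_right, Nat.add_sub_cancel_left, pow_one]
    push_cast
    field_simp
  rw [e1, add_sub_cancel_right]
  refine padicNorm.sum_le' (fun i hi => ?_) (by positivity)
  have hi' : i < m := Finset.mem_range.1 hi
  have e2 : (p : ℚ) ^ (m + 1 - i) = p ^ (m - 1 - i) * p ^ 2 := by
    rw [← pow_add]
    congr 1
    omega
  have e3 : bernoulli i * ((m + 1).choose i) * (p : ℚ) ^ (m + 1 - i) / (m + 1) =
      bernoulli i * (((m + 1).choose i : ℕ) : ℚ) * (((p ^ (m - 1 - i) : ℕ) : ℚ)) /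
        ((m + 1 : ℕ) : ℚ) * (p ^ 2) := by
    rw [e2]
    push_cast
    ring
  have e4 : padicNorm p ((p : ℚ) ^ 2) = (p : ℚ) ^ (-2 : ℤ) := by
    rw [sq, padicNorm.mul, padicNorm.padicNorm_p_of_prime, zpow_neg, ← mul_inv]
    congr 1
    norm_cast
    rw [sq]
  rw [e3, padicNorm.mul, e4, padicNorm.div, Bern_one p (m + 1) (by omega) (by omega), div_one,
    padicNorm.mul, padicNorm.mul]
  refine mul_le_of_le_one_left (by positivity) ?_
  refine mul_le_one₀ (mul_le_one₀ (Bern_int p i (by omega)) (padicNorm.nonneg _)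
    (padicNorm.of_nat _)) (padicNorm.nonneg _) (padicNorm.of_nat _)

theorem bern_iff (p : ℕ) [Fact p.Prime] (m : ℕ) (hm : Even m) (h2 : 2 ≤ m) (hm' : m + 3 ≤ p) :
    (p : ℤ) ∣ (bernoulli m).num ↔ p ^ 2 ∣ ∑ t ∈ Finset.range p, t ^ m := by
  have hp0 : (0 : ℚ) < p := by exact_mod_cast Nat.Prime.pos Fact.out
  have hd := Bern_diff p m hm'
  set S : ℕ := ∑ t ∈ Finset.range p, t ^ m with hS
  have hSc : (∑ t ∈ Finset.range p, (t : ℚ) ^ m) = ((S : ℤ) : ℚ) := by
    rw [hS]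
    push_cast
    rfl
  rw [hSc] at hd
  have h1 : p ^ 2 ∣ S ↔ padicNorm p ((S : ℤ) : ℚ) ≤ (p : ℚ) ^ (-2 : ℤ) := by
    have := padicNorm.dvd_iff_norm_le (p := p) (n := 2) (z := (S : ℤ))
    rw [← Int.natCast_dvd_natCast]
    exact_mod_cast this
  have h3 : (p : ℤ) ∣ (bernoulli m).num ↔ padicNorm p ((bernoulli m).num : ℚ) ≤ (p : ℚ)⁻¹ := by
    have := padicNorm.dvd_iff_norm_le (p := p) (n := 1) (z := (bernoulli m).num)
    rw [pow_one] at this
    rw [this]
    norm_num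
  have h4 : padicNorm p ((p : ℚ) * bernoulli m) = (p : ℚ)⁻¹ * padicNorm p (bernoulli m) := by
    rw [padicNorm.mul, padicNorm.padicNorm_p_of_prime]
  have h5 : padicNorm p ((bernoulli m).num : ℚ) =
      padicNorm p (bernoulli m) * padicNorm p ((bernoulli m).den : ℚ) := by
    rw [← padicNorm.mul, Rat.mul_den_eq_num]
  have hpp : (p : ℚ) ^ (-2 : ℤ) = (p : ℚ)⁻¹ * (p : ℚ)⁻¹ := by
    rw [zpow_neg, ← mul_inv]
    congr 1
    norm_cast
    rw [sq]
  rw [h1]
  constructor
  · intro h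
    have hden : ¬ p ∣ (bernoulli m).den := by
      intro h'
      have h6 := (bernoulli m).reduced
      have h7 : p ∣ (bernoulli m).num.natAbs := Int.natCast_dvd.1 h
      exact (Nat.Prime.one_lt Fact.out).ne' (Nat.eq_one_of_dvd_coprimes h6 h7 h')
    rw [h3, h5, (padicNorm.nat_eq_one_iff _).2 hden, mul_one] at h
    have e : ((S : ℤ) : ℚ) = (((S : ℤ) : ℚ) - p * bernoulli m) + p * bernoulli m := by ring
    rw [e]
    refine padicNorm.nonarchimedean.trans (max_le hd ?_)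
    rw [h4, hpp]
    gcongr
  · intro h
    rw [h3, h5]
    have h6 : padicNorm p ((p : ℚ) * bernoulli m) ≤ (p : ℚ)⁻¹ * (p : ℚ)⁻¹ := by
      have e : (p : ℚ) * bernoulli m = ((S : ℤ) : ℚ) - (((S : ℤ) : ℚ) - p * bernoulli m) := by ring
      rw [e, ← hpp]
      exact padicNorm.sub.trans (max_le h hd)
    rw [h4] at h6
    have h7 : padicNorm p (bernoulli m) ≤ (p : ℚ)⁻¹ := le_of_mul_le_mul_left h6 (by positivity)
    calc padicNorm p (bernoulli m) * padicNorm p ((bernoulli m).den : ℚ)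
        ≤ (p : ℚ)⁻¹ * 1 := by
          apply mul_le_mul h7 (padicNorm.of_nat _) (padicNorm.nonneg _) (by positivity)
      _ = (p : ℚ)⁻¹ := mul_one _

end H45KC
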