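import Pool.Agent.H45.KC.Defs

/-!
# KC, module CycPow: congruences modulo powers of `ζ - 1`

`M = ℚ(ζ_p)`, `λ = ζ - 1`; `λ` is prime, `λ^(p-1)` is associated to `p`
(`IsCyclotomicExtension.Rat.associated_zeta_sub_one_pow_prime`), an integer is divisible by `λ` iff
by `p` (`IsCyclotomicExtension.Rat.zeta_sub_one_dvd_intCast_iff'`); these are stated in Mathlib
for `hζ.toInteger` with `hζ : IsPrimitiveRoot (z : M) p`; here `ζ : 𝓞 M`, `z = (ζ : M)`, and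
`hζ.toInteger = ζ` by `RingOfIntegers.ext`.  `𝓞 M = ℤ[ζ]` (`IsCyclotomicExtension.Rat...adjoin...`,
`IsPrimitiveRoot.integralPowerBasis`), so every `A : 𝓞 M` is `aeval ζ g` with `g : ℤ[X]`.

PROOF of `cyc_pow_dvd`, induction on `n` (for all `F`). `n = 0`: trivial. Let `1 ≤ n ≤ p - 1` and
`λ^n ∣ F(ζ)`. Write `F = C (F(1)) + (X - 1) F₁` (`F - C (F.eval 1)` is divisible by `X - C 1`).
`F(1) = F(ζ) - λ F₁(ζ)` is divisible by `λ`, so by `p`, hence by `λ^(p-1)`, hence by `λ^n`.  So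
`λ^n ∣ λ F₁(ζ)`, `λ^(n-1) ∣ F₁(ζ)`, and by induction `(X-1)^(n-1) ∣ F₁` modulo `p`.  Modulo `p`
we have `F = (X - 1) F₁`.
PROOF of `exists_semi`. `A = g(ζ)`, `g = g(1) + (X-1) g₁`, so `A ≡ x + y λ` modulo `λ²` with integers
`x = g(1)`, `y = g₁(1)` (`g₁(ζ) ≡ g₁(1)` modulo `λ`), and `p ∤ x` (else `λ ∣ A`, but the ideal `(λ)`
is a prime ideal containing `p`).  `ζ^j₀ ≡ 1 + j₀ λ` modulo `λ²`. So `ζ^j₀ A ≡ x + (y + j₀ x) λ`;
choose `j₀` with `y + j₀ x ≡ 0` modulo `p` (`λ ∣ p`).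
PROOF of `aeval_pow_congr`: for `λ^n ∣ A - F(ζ)` apply `σ`, `σ ζ = ζ^t`: `(ζ^t - 1)^n ∣ σ A - F(ζ^t)`
and `λ ∣ ζ^t - 1`.
-/

open Polynomial NumberField

namespace H45KC

section

variable (p : ℕ) [Fact p.Prime] (M : Type*) [Field M] [NumberField M]
  [IsCyclotomicExtension {p} ℚ M] {ζ : 𝓞 M}

private theorem CycPow_coe {M : Type*} [Field M] {p : ℕ} {ζ : 𝓞 M} (hζ : IsPrimitiveRoot ζ p) :
    IsPrimitiveRoot (ζ : M) p :=
  hζ.map_of_injective RingOfIntegers.coe_injective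

private theorem CycPow_dvd (hζ : IsPrimitiveRoot ζ p) (n : ℤ) :
    ζ - 1 ∣ (n : 𝓞 M) ↔ (p : ℤ) ∣ n :=
  IsCyclotomicExtension.Rat.zeta_sub_one_dvd_intCast_iff' p (CycPow_coe hζ)

private theorem CycPow_assoc (hζ : IsPrimitiveRoot ζ p) :
    Associated ((ζ - 1) ^ (p - 1)) (p : 𝓞 M) :=
  IsCyclotomicExtension.Rat.associated_zeta_sub_one_pow_prime p (CycPow_coe hζ)

private theorem CycPow_prime (hζ : IsPrimitiveRoot ζ p) : Prime (ζ - 1) :=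
  (CycPow_coe hζ).zeta_sub_one_prime'

private theorem CycPow_exists (hζ : IsPrimitiveRoot ζ p) (A : 𝓞 M) :
    ∃ g : ℤ[X], A = aeval ζ g := by
  have : NeZero p := ⟨(Fact.out : p.Prime).ne_zero⟩
  obtain ⟨g, hg⟩ := (CycPow_coe hζ).integralPowerBasis.exists_eq_aeval' A
  refine ⟨g, ?_⟩
  rw [(CycPow_coe hζ).integralPowerBasis_gen] at hg
  exact hg

end

private theorem CycPow_taylor {R : Type*} [CommRing R] (ζ : R) (F : ℤ[X]) :
    ∃ F₁ : ℤ[X], F = C (F.eval 1) + (X - 1) * F₁ ∧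
      aeval ζ F = ((F.eval 1 : ℤ) : R) + (ζ - 1) * aeval ζ F₁ := by
  obtain ⟨F₁, hF₁⟩ := X_sub_C_dvd_sub_C_eval (a := (1 : ℤ)) (p := F)
  have h1 : F = C (F.eval 1) + (X - 1) * F₁ := by
    rw [C_1] at hF₁
    rw [← hF₁]
    ring
  refine ⟨F₁, h1, ?_⟩
  conv_lhs => rw [h1]
  rw [map_add, map_mul, map_sub, aeval_X, map_one, aeval_C]
  rfl

private theorem CycPow_bin {R : Type*} [CommRing R] (ζ : R) (j : ℕ) :
    ∃ c : R, ζ ^ j = 1 + j * (ζ - 1) + (ζ - 1) ^ 2 * c := by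
  induction j with
  | zero => exact ⟨0, by rw [pow_zero]; push_cast; ring⟩
  | succ j ih =>
    obtain ⟨c, hc⟩ := ih
    refine ⟨ζ * c + j, ?_⟩
    rw [pow_succ, hc]
    push_cast
    ring

theorem cyc_pow_dvd (p : ℕ) [Fact p.Prime] (M : Type*) [Field M] [NumberField M]
    [IsCyclotomicExtension {p} ℚ M] {ζ : 𝓞 M} (hζ : IsPrimitiveRoot ζ p) (n : ℕ) (hn : n ≤ p - 1)
    (F : ℤ[X]) (h : (ζ - 1) ^ n ∣ aeval ζ F) :
    (X - 1) ^ n ∣ F.map (Int.castRingHom (ZMod p)) := by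
  induction n generalizing F with
  | zero =>
    rw [pow_zero]
    exact one_dvd _
  | succ n ih =>
    obtain ⟨F₁, hF, hζF⟩ := CycPow_taylor ζ F
    have h1 : ζ - 1 ∣ ((F.eval 1 : ℤ) : 𝓞 M) := by
      have h2 : ζ - 1 ∣ aeval ζ F := (dvd_pow_self _ (Nat.succ_ne_zero n)).trans h
      rw [hζF] at h2
      exact (dvd_add_left (dvd_mul_right _ _)).1 h2
    have h2 : (p : ℤ) ∣ F.eval 1 := (CycPow_dvd p M hζ _).1 h1
    have h3 : (ζ - 1) ^ (n + 1) ∣ ((F.eval 1 : ℤ) : 𝓞 M) := by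
      refine (pow_dvd_pow _ hn).trans ((CycPow_assoc p M hζ).dvd.trans ?_)
      obtain ⟨c, hc⟩ := h2
      refine ⟨(c : 𝓞 M), ?_⟩
      rw [hc]
      push_cast
      rfl
    have h4 : (ζ - 1) ^ n ∣ aeval ζ F₁ := by
      rw [hζF] at h
      have h5 := (dvd_add_right h3).1 h
      rw [pow_succ'] at h5
      exact (mul_dvd_mul_iff_left (CycPow_prime p M hζ).ne_zero).1 h5
    have h5 := ih (by omega) F₁ h4
    have h6 : F.map (Int.castRingHom (ZMod p)) = (X - 1) * F₁.map (Int.castRingHom (ZMod p)) := by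
      conv_lhs => rw [hF]
      rw [Polynomial.map_add, Polynomial.map_mul, Polynomial.map_sub, map_X, Polynomial.map_one,
        map_C]
      have h7 : (Int.castRingHom (ZMod p)) (F.eval 1) = 0 := by
        rw [eq_intCast]
        exact (ZMod.intCast_zmod_eq_zero_iff_dvd _ _).2 h2
      rw [h7, C_0, zero_add]
    rw [h6, pow_succ']
    exact mul_dvd_mul_left _ h5

theorem exists_semi (p : ℕ) [Fact p.Prime] (hp2 : p ≠ 2) (M : Type*) [Field M] [NumberField M]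
    [IsCyclotomicExtension {p} ℚ M] {ζ : 𝓞 M} (hζ : IsPrimitiveRoot ζ p) (A : 𝓞 M)
    (hA0 : ∀ P : Ideal (𝓞 M), P.IsPrime → (p : 𝓞 M) ∈ P → A ∉ P) :
    ∃ (j₀ : ℕ) (x : ℤ), (ζ - 1) ^ 2 ∣ ζ ^ j₀ * A - x := by
  obtain ⟨g, hg⟩ := CycPow_exists p M hζ A
  obtain ⟨g₁, -, hg₁⟩ := CycPow_taylor ζ g
  obtain ⟨g₂, -, hg₂⟩ := CycPow_taylor ζ g₁
  set x : ℤ := g.eval 1 with hx
  set y : ℤ := g₁.eval 1 with hy
  have hxp : ¬ (p : ℤ) ∣ x := by
    intro h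
    have h1 : ζ - 1 ∣ A := by
      rw [hg, hg₁]
      exact dvd_add ((CycPow_dvd p M hζ _).2 h) (dvd_mul_right _ _)
    refine hA0 (Ideal.span {ζ - 1}) ?_ ?_ (Ideal.mem_span_singleton.2 h1)
    · exact (Ideal.span_singleton_prime (CycPow_prime p M hζ).ne_zero).2 (CycPow_prime p M hζ)
    · rw [Ideal.mem_span_singleton]
      have h2 := (CycPow_dvd p M hζ (p : ℤ)).2 dvd_rfl
      simpa using h2
  have hx0 : (x : ZMod p) ≠ 0 := by
    intro h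
    exact hxp ((ZMod.intCast_zmod_eq_zero_iff_dvd _ _).1 h)
  have : NeZero p := ⟨(Fact.out : p.Prime).ne_zero⟩
  set j : ℕ := (-(y : ZMod p) * (x : ZMod p)⁻¹).val with hj
  have hj' : (p : ℤ) ∣ y + j * x := by
    rw [← ZMod.intCast_zmod_eq_zero_iff_dvd]
    push_cast
    rw [hj, ZMod.natCast_val, ZMod.cast_id, mul_assoc, inv_mul_cancel₀ hx0]
    ring
  obtain ⟨d, hd⟩ := (CycPow_dvd p M hζ _).2 hj'
  obtain ⟨c, hc⟩ := CycPow_bin ζ j
  have hA : A = x + (ζ - 1) * (y + (ζ - 1) * aeval ζ g₂) := by rw [hg, hg₁, hg₂]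
  refine ⟨j, x, d + j * (y + (ζ - 1) * aeval ζ g₂) + aeval ζ g₂ + c * A, ?_⟩
  push_cast at hd
  have h1 : ζ ^ j * A - x = (1 + j * (ζ - 1)) * A + (ζ - 1) ^ 2 * (c * A) - x := by
    rw [hc]
    ring
  have h2 : (1 + j * (ζ - 1)) * A - x = (ζ - 1) * (y + j * x) +
      (ζ - 1) ^ 2 * (j * (y + (ζ - 1) * aeval ζ g₂) + aeval ζ g₂) := by
    rw [hA]
    ring
  rw [h1]
  linear_combination h2 + (ζ - 1) * hd

theorem aeval_pow_congr (p : ℕ) [Fact p.Prime] (M : Type*) [Field M] [NumberField M]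
    [IsCyclotomicExtension {p} ℚ M] {ζ : 𝓞 M} (hζ : IsPrimitiveRoot ζ p) (n : ℕ)
    (A : 𝓞 M) (F : ℤ[X]) (h : (ζ - 1) ^ n ∣ A - aeval ζ F) (σ : M ≃ₐ[ℚ] M) :
    (ζ - 1) ^ n ∣ σ • A
      - aeval (ζ ^ (IsCyclotomicExtension.Rat.galEquivZMod p M σ).val.val) F := by
  have : NeZero p := ⟨(Fact.out : p.Prime).ne_zero⟩
  obtain ⟨B, hB⟩ := h
  have h1 := congrArg (fun z : 𝓞 M => σ • z) hB
  simp only [smul_sub, smul_mul', smul_pow', smul_one] at h1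
  have h2 : σ • aeval ζ F = aeval (σ • ζ) F := by
    have h3 := (Polynomial.aeval_algHom_apply
      (MulSemiringAction.toRingHom (M ≃ₐ[ℚ] M) (𝓞 M) σ).toIntAlgHom ζ F).symm
    exact h3
  have h4 := IsCyclotomicExtension.Rat.galEquivZMod_smul_of_pow_eq p M σ hζ.pow_eq_one
  rw [h2, h4] at h1
  rw [h1]
  refine (pow_dvd_pow_of_dvd ?_ n).mul_right _
  have h5 := sub_dvd_pow_sub_pow ζ 1 (IsCyclotomicExtension.Rat.galEquivZMod p M σ).val.val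
  rwa [one_pow] at h5

end H45KC
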