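import Pool.Agent.H45.KC.Defs

/-!
# KC, module DJ: the calculus of the logarithmic derivatives `DL j`

`θ f = X f'` is a derivation of `k[X]`: `θ (f g) = θ f g + f θ g`, `θ (C c) = 0`, `θ X = X`.

PROOFS.
`Nm_mul`: `Nm (G H) n = Nm G n * H ^ (n+1) + Nm H n * G ^ (n+1)`, by induction on `n`:
`n = 0` is the product rule.  With `j = n + 1`, `A = Nm G n`, `B = Nm H n`:
`G H θ (A H^j + B G^j) - j (A H^j + B G^j) θ (G H)`
`= G H (θA H^j + j A H^(j-1) θH + θB G^j + j B G^(j-1) θG) - j (A H^j + B G^j) (θG H + G θH)`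
`= H^(j+1) (G θA - j A θG) + G^(j+1) (H θB - j B θH)` (the other terms cancel: `ring` after
`θ (H^j) = j H^(j-1) θH`, `derivative_pow`; write `H ^ j = H * H ^ n`).
`DL_mul`: divide by `(G H)(1)^j`.  `DL_pow`, `DL_prod`: induction (`DL j 1 = 0`).
`DL_comp`: `θ (f (X^i)) = i (θ f)(X^i)` (`derivative_comp`), so by induction
`Nm (G (X^i)) n = i^(n+1) (Nm G n)(X^i)`; evaluate at `1` (`eval_comp`, `1 ^ i = 1`).
`DL_X`: `Nm X 0 = X`, `Nm X 1 = X θX - X θX = 0`, so `Nm X n = 0` for `n ≥ 1`.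
`Nm_congr`: if `(X-1)^m ∣ G - H` then `(X-1)^(m-(n+1)) ∣ Nm G n - Nm H n`: `θ` lowers the divisibility
by one (`(X-1)^(m+1) ∣ f → (X-1)^m ∣ θ f`), induction on `n`.  `DL_congr`: with `m = j + 1` the
difference `Nm G (j-1) - Nm H (j-1)` is divisible by `X - 1` and `G(1) = H(1)`.
-/

open Polynomial

namespace H45KC

variable {k : Type*} [Field k]

theorem th_mul (f g : k[X]) : th (f * g) = th f * g + f * th g := by
  rw [th, th, th, derivative_mul]
  ring

private theorem DJ_th_add (f g : k[X]) : th (f + g) = th f + th g := by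
  simp [th, mul_add]

private theorem DJ_th_sub (f g : k[X]) : th (f - g) = th f - th g := by
  simp [th, mul_sub]

private theorem DJ_th_C (c : k) : th (C c) = 0 := by simp [th]

private theorem DJ_th_pow (f : k[X]) (n : ℕ) :
    th (f ^ (n + 1)) = ((n + 1 : ℕ) : k[X]) * f ^ n * th f := by
  rw [th, derivative_pow, th, C_eq_natCast]
  simp only [Nat.add_sub_cancel]
  ring

theorem Nm_mul (G H : k[X]) (n : ℕ) :
    Nm (G * H) n = Nm G n * H ^ (n + 1) + Nm H n * G ^ (n + 1) := by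
  induction n with
  | zero => simp only [Nm, th_mul]; ring
  | succ n ih =>
    rw [Nm, ih, DJ_th_add, th_mul (Nm G n), th_mul (Nm H n), DJ_th_pow, DJ_th_pow, th_mul G H,
      Nm, Nm]
    ring

theorem DL_mul (j : ℕ) (hj : 1 ≤ j) (G H : k[X]) (hG : G.eval 1 ≠ 0) (hH : H.eval 1 ≠ 0) :
    DL j (G * H) = DL j G + DL j H := by
  obtain ⟨n, rfl⟩ : ∃ n, j = n + 1 := ⟨j - 1, by omega⟩
  rw [DL, DL, DL, Nat.add_sub_cancel, Nm_mul]
  simp only [eval_add, eval_mul, eval_pow]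
  have h1 : (eval 1 G) ^ (n + 1) ≠ 0 := pow_ne_zero _ hG
  have h2 : (eval 1 H) ^ (n + 1) ≠ 0 := pow_ne_zero _ hH
  rw [mul_pow, div_add_div _ _ h1 h2]
  congr 1
  ring

private theorem DJ_Nm_C (c : k) (n : ℕ) : Nm (C c) n = 0 := by
  induction n with
  | zero => exact DJ_th_C c
  | succ n ih =>
    rw [Nm, ih]
    simp [th]

theorem DL_C (j : ℕ) (hj : 1 ≤ j) (c : k) : DL j (C c) = 0 := by
  obtain ⟨n, rfl⟩ : ∃ n, j = n + 1 := ⟨j - 1, by omega⟩
  rw [DL, Nat.add_sub_cancel, DJ_Nm_C]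
  simp

theorem DL_pow (j : ℕ) (hj : 1 ≤ j) (G : k[X]) (hG : G.eval 1 ≠ 0) (n : ℕ) :
    DL j (G ^ n) = n * DL j G := by
  induction n with
  | zero =>
    have := DL_C j hj (1 : k)
    rw [C_1] at this
    rw [pow_zero, this]
    simp
  | succ n ih =>
    rw [pow_succ, DL_mul j hj _ _ (by rw [eval_pow]; exact pow_ne_zero _ hG) hG, ih]
    push_cast
    ring

theorem DL_prod (j : ℕ) (hj : 1 ≤ j) {ι : Type*} (s : Finset ι) (G : ι → k[X]) (n : ι → ℕ)
    (hG : ∀ i ∈ s, (G i).eval 1 ≠ 0) :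
    DL j (∏ i ∈ s, G i ^ n i) = ∑ i ∈ s, (n i : k) * DL j (G i) := by
  classical
  induction s using Finset.induction_on with
  | empty =>
    have := DL_C j hj (1 : k)
    rw [C_1] at this
    simp [this]
  | insert a s ha ih =>
    have h1 : ∀ i ∈ s, (G i).eval 1 ≠ 0 := fun i hi => hG i (Finset.mem_insert_of_mem hi)
    have h2 : (G a).eval 1 ≠ 0 := hG a (Finset.mem_insert_self _ _)
    rw [Finset.prod_insert ha, Finset.sum_insert ha, DL_mul j hj, DL_pow j hj _ h2, ih h1]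
    · rw [eval_pow]
      exact pow_ne_zero _ h2
    · rw [eval_prod]
      refine Finset.prod_ne_zero_iff.mpr fun i hi => ?_
      rw [eval_pow]
      exact pow_ne_zero _ (h1 i hi)

private theorem DJ_th_comp (f : k[X]) (i : ℕ) :
    th (f.comp (X ^ i)) = (i : k[X]) * (th f).comp (X ^ i) := by
  rcases i with _ | i
  · simp [th, derivative_comp]
  · rw [th, derivative_comp, derivative_X_pow, th, mul_comp, X_comp, C_eq_natCast]
    simp only [Nat.add_sub_cancel]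
    ring

private theorem DJ_Nm_comp (G : k[X]) (i n : ℕ) :
    Nm (G.comp (X ^ i)) n = (i : k[X]) ^ (n + 1) * (Nm G n).comp (X ^ i) := by
  induction n with
  | zero => simp only [Nm, DJ_th_comp]; ring
  | succ n ih =>
    have h1 : th ((i : k[X]) ^ (n + 1) * (Nm G n).comp (X ^ i))
        = (i : k[X]) ^ (n + 2) * (th (Nm G n)).comp (X ^ i) := by
      have h2 : th ((i : k[X]) ^ (n + 1)) = 0 := by
        have : ((i : k[X]) ^ (n + 1)) = C ((i : k) ^ (n + 1)) := by simp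
        rw [this, DJ_th_C]
      rw [th_mul, h2, DJ_th_comp]
      ring
    rw [Nm, ih, h1, DJ_th_comp, Nm]
    simp only [sub_comp, mul_comp, natCast_comp]
    ring

theorem DL_comp (j : ℕ) (hj : 1 ≤ j) (G : k[X]) (i : ℕ) :
    DL j (G.comp (X ^ i)) = (i : k) ^ j * DL j G := by
  obtain ⟨n, rfl⟩ : ∃ n, j = n + 1 := ⟨j - 1, by omega⟩
  rw [DL, DL, Nat.add_sub_cancel, DJ_Nm_comp]
  simp only [eval_mul, eval_pow, eval_comp, eval_X, one_pow, eval_natCast]
  ring

theorem DL_one_X : DL 1 (X : k[X]) = 1 := by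
  simp [DL, Nm, th]

private theorem DJ_Nm_X (n : ℕ) : Nm (X : k[X]) (n + 1) = 0 := by
  induction n with
  | zero => simp [Nm, th]
  | succ n ih =>
    rw [Nm, ih]
    simp [th]

theorem DL_X (j : ℕ) (hj : 2 ≤ j) : DL j (X : k[X]) = 0 := by
  obtain ⟨n, rfl⟩ : ∃ n, j = n + 2 := ⟨j - 2, by omega⟩
  rw [DL, show n + 2 - 1 = n + 1 by omega, DJ_Nm_X]
  simp

private theorem DJ_th_dvd (f : k[X]) (m : ℕ) (h : (X - 1) ^ m ∣ f) : (X - 1) ^ (m - 1) ∣ th f := by
  rcases m with _ | m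
  · simp
  · obtain ⟨g, rfl⟩ := h
    refine ⟨X * (((m + 1 : ℕ) : k[X]) * g + (X - 1) * derivative g), ?_⟩
    have h1 : derivative ((X - 1 : k[X]) ^ (m + 1)) = ((m + 1 : ℕ) : k[X]) * (X - 1) ^ m := by
      rw [derivative_pow]
      simp
    rw [th, derivative_mul, h1]
    simp only [Nat.add_sub_cancel]
    ring

private theorem DJ_Nm_congr (G H : k[X]) (m : ℕ) (h : (X - 1) ^ m ∣ G - H) (n : ℕ) :
    (X - 1) ^ (m - (n + 1)) ∣ Nm G n - Nm H n := by
  induction n with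
  | zero =>
    rw [Nm, Nm, ← DJ_th_sub]
    exact DJ_th_dvd _ _ h
  | succ n ih =>
    have h1 : (X - 1) ^ (m - (n + 1 + 1)) ∣ th (Nm G n) - th (Nm H n) := by
      rw [← DJ_th_sub, ← Nat.sub_sub m (n + 1) 1]
      exact DJ_th_dvd _ _ ih
    have h2 : (X - 1) ^ (m - (n + 1 + 1)) ∣ th G - th H := by
      rw [← DJ_th_sub]
      exact dvd_trans (pow_dvd_pow _ (by omega)) (DJ_th_dvd _ _ h)
    have h3 : (X - 1) ^ (m - (n + 1 + 1)) ∣ G - H := dvd_trans (pow_dvd_pow _ (by omega)) h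
    have h4 : (X - 1) ^ (m - (n + 1 + 1)) ∣ Nm G n - Nm H n :=
      dvd_trans (pow_dvd_pow _ (by omega)) ih
    have h5 : Nm G (n + 1) - Nm H (n + 1)
        = (G - H) * th (Nm G n) + H * (th (Nm G n) - th (Nm H n))
          - (((n + 1 : ℕ) : k[X]) * (Nm G n - Nm H n) * th G
            + ((n + 1 : ℕ) : k[X]) * Nm H n * (th G - th H)) := by
      rw [Nm, Nm]
      ring
    rw [h5]
    refine dvd_sub (dvd_add (h3.mul_right _) (h1.mul_left _)) (dvd_add ?_ (h2.mul_left _))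
    exact Dvd.dvd.mul_right (h4.mul_left _) _

theorem DL_congr (j : ℕ) (hj : 1 ≤ j) (G H : k[X]) (h : (X - 1) ^ (j + 1) ∣ G - H) :
    DL j G = DL j H := by
  obtain ⟨n, rfl⟩ : ∃ n, j = n + 1 := ⟨j - 1, by omega⟩
  have h1 := DJ_Nm_congr G H (n + 1 + 1) h n
  rw [Nat.add_sub_cancel_left, pow_one] at h1
  have h2 : (Nm G n).eval 1 = (Nm H n).eval 1 := by
    obtain ⟨g, hg⟩ := h1
    have h3 := congrArg (eval 1) hg
    rw [eval_sub, eval_mul] at h3
    simp only [eval_sub, eval_X, eval_one, sub_self, zero_mul] at h3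
    exact sub_eq_zero.mp h3
  have h4 : G.eval 1 = H.eval 1 := by
    obtain ⟨g, hg⟩ := h
    have h3 := congrArg (eval 1) hg
    rw [eval_sub, eval_mul, eval_pow] at h3
    simp only [eval_sub, eval_X, eval_one, sub_self, zero_mul, ne_eq, Nat.add_eq_zero_iff,
      one_ne_zero, and_false, not_false_eq_true, zero_pow] at h3
    exact sub_eq_zero.mp h3
  rw [DL, DL, Nat.add_sub_cancel, h2, h4]

end H45KC
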