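import Pool.Agent.H45.KC.DJ

/-!
# KC, module DK: vanishing of the logarithmic derivatives, and reflection (characteristic `p`)

PROOFS.
`DL_kernel`: let `c = G(1) ≠ 0`.  We show by induction on `i ≤ m + 1`, `i ≥ 1`, that
`(X-1)^i ∣ G - C c`.  `i = 1`: clear.  Let `1 ≤ i ≤ m` and `G = C c + (X-1)^i H`.  Claim: for
`n + 1 ≤ i`: `(X-1)^(i-(n+1)) ∣ Nm G n`, more precisely
`Nm G n ≡ C (c^n) θ^(n+1) G` modulo `(X-1)^(i-n)`: for `n = 0` equality; step:
`Nm G (n+1) = G θ(Nm G n) - (n+1) Nm G n θG`; `θ G` is divisible by `(X-1)^(i-1)` and `Nm G n` by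
`(X-1)^(i-n-1)`, so the last term is divisible by `(X-1)^(2i-n-2)`, and `2i-n-2 ≥ i-n-1` (as
`i ≥ 1`); `θ (Nm G n) ≡ C (c^n) θ^(n+2) G` modulo `(X-1)^(i-n-1)` and `G ≡ c` modulo `(X-1)^i`.
For `n = i - 1`: `Nm G (i-1) ≡ C (c^(i-1)) θ^i G` modulo `(X-1)`, and `θ^i ((X-1)^i H) (1) = i! H(1)`.
So `0 = DL i G = c^(i-1) i! H(1) / c^i`, and `i! ≠ 0` in `k` as `i ≤ m < p`; so `H(1) = 0`,
`X - 1 ∣ H`.
(Alternative: a simpler organisation by `(X-1)^i ∣ Nm`-divisibility is fine too.)
`DL_eq_imp`: apply `DL_kernel` to `G = U V^(p-1)`: `DL j G = DL j U + (p-1) DL j V = 0` (`p = 0` in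
`k`). So `(X-1)^(m+1) ∣ U V^(p-1) - c`, `c = U(1) V(1)^(p-1)`; multiply by `V`:
`(X-1)^(m+1) ∣ U V^p - c V`; and `V^p ≡ V(1)^p` modulo `(X-1)^p` (`V - C (V(1))` is divisible by
`X - 1`; `sub_pow_char`/`add_pow_char`), `m + 1 ≤ p`; divide by `V(1)^(p-1) ≠ 0`.
`DL_reflect`: for `deg F ≤ d`: `F.reflect d ≡ X^d F(X^(p-1))` modulo `(X-1)^p`: coefficientwise
`X^(d-i) ≡ X^d X^((p-1) i)` as `X^(p i) ≡ 1` modulo `(X-1)^p = X^p - 1`.  Now `DL_congr` (`j + 1 ≤ p`),
`DL_mul`, `DL_pow`, `DL_X`, `DL_comp`, and `(p - 1 : k) ^ j = (-1)^j`.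
-/

open Polynomial

namespace H45KC

variable {k : Type*} [Field k]

private theorem DK_th_add (f g : k[X]) : th (f + g) = th f + th g := by
  simp [th, mul_add]

private theorem DK_th_sub (f g : k[X]) : th (f - g) = th f - th g := by
  simp [th, mul_sub]

private theorem DK_th_C (c : k) : th (C c) = 0 := by simp [th]

private theorem DK_th_dvd (f : k[X]) (m : ℕ) (h : (X - 1) ^ m ∣ f) : (X - 1) ^ (m - 1) ∣ th f := by
  rcases m with _ | m
  · simp
  · obtain ⟨g, rfl⟩ := h
    refine ⟨X * (((m + 1 : ℕ) : k[X]) * g + (X - 1) * derivative g), ?_⟩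
    have h1 : derivative ((X - 1 : k[X]) ^ (m + 1)) = ((m + 1 : ℕ) : k[X]) * (X - 1) ^ m := by
      rw [derivative_pow]
      simp
    rw [th, derivative_mul, h1]
    simp only [Nat.add_sub_cancel]
    ring

private theorem DK_iter (n m : ℕ) (H : k[X]) :
    ∃ H' : k[X], th^[n] ((X - 1) ^ (m + n) * H) = (X - 1) ^ m * H' ∧
      H'.eval 1 = (((m + n).descFactorial n : ℕ) : k) * H.eval 1 := by
  induction n generalizing H with
  | zero => exact ⟨H, by simp, by simp⟩
  | succ n ih =>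
    set H1 : k[X] := X * (((m + n + 1 : ℕ) : k[X]) * H + (X - 1) * derivative H) with hH1
    have h1 : th ((X - 1) ^ (m + (n + 1)) * H) = (X - 1) ^ (m + n) * H1 := by
      have h2 : derivative ((X - 1 : k[X]) ^ (m + (n + 1)))
          = ((m + n + 1 : ℕ) : k[X]) * (X - 1) ^ (m + n) := by
        rw [derivative_pow]
        simp [← add_assoc]
      rw [th, derivative_mul, h2, hH1]
      rw [show m + (n + 1) = (m + n) + 1 by ring, pow_succ]
      ring
    obtain ⟨H', h3, h4⟩ := ih H1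
    refine ⟨H', ?_, ?_⟩
    · rw [Function.iterate_succ_apply, h1, h3]
    · rw [h4, hH1, show m + (n + 1) = (m + n) + 1 by ring, Nat.succ_descFactorial_succ]
      simp
      ring

private theorem DK_iter_sub (n : ℕ) (c : k) (G : k[X]) :
    th^[n + 1] (G - C c) = th^[n + 1] G := by
  rw [Function.iterate_succ_apply, Function.iterate_succ_apply, DK_th_sub, DK_th_C, sub_zero]

private theorem DK_iter_dvd (n i : ℕ) (f : k[X]) (h : (X - 1) ^ i ∣ f) :
    (X - 1) ^ (i - n) ∣ th^[n] f := by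
  induction n with
  | zero => simpa using h
  | succ n ih =>
    rw [Function.iterate_succ_apply', ← Nat.sub_sub]
    exact DK_th_dvd _ _ ih

private theorem DK_step (G : k[X]) (c : k) (i : ℕ) (h : (X - 1) ^ i ∣ G - C c)
    (n : ℕ) (hn : n + 1 ≤ i) :
    (X - 1) ^ (i - n) ∣ Nm G n - C (c ^ n) * th^[n + 1] G := by
  induction n with
  | zero => simp [Nm]
  | succ n ih =>
    have ih' := ih (by omega)
    have hG : (X - 1) ^ (i - (n + 1)) ∣ th^[n + 1] G := by
      rw [← DK_iter_sub n c G]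
      exact DK_iter_dvd _ _ _ h
    have hN : (X - 1) ^ (i - (n + 1)) ∣ Nm G n := by
      have h1 : (X - 1) ^ (i - (n + 1)) ∣ Nm G n - C (c ^ n) * th^[n + 1] G :=
        (pow_dvd_pow _ (by omega)).trans ih'
      have h2 := dvd_add h1 (hG.mul_left (C (c ^ n)))
      simpa using h2
    have hthG : (X - 1) ^ (i - 1) ∣ th G := by
      have h3 : th G = th (G - C c) := by rw [DK_th_sub, DK_th_C, sub_zero]
      rw [h3]
      exact DK_th_dvd _ _ h
    have h4 : (X - 1) ^ (i - (n + 1)) ∣ Nm G n * th G := by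
      exact hN.mul_right _
    have h5 : (X - 1) ^ (i - (n + 1)) ∣ th (Nm G n) - C (c ^ n) * th^[n + 2] G := by
      have h6 := DK_th_dvd _ _ ih'
      rw [DK_th_sub] at h6
      have h7 : th (C (c ^ n) * th^[n + 1] G) = C (c ^ n) * th^[n + 2] G := by
        rw [Function.iterate_succ_apply' th (n + 1), th, derivative_C_mul, th]
        ring
      rw [h7] at h6
      rw [← Nat.sub_sub]
      exact h6
    have h8 : (X - 1) ^ (i - (n + 1)) ∣ (G - C c) * th (Nm G n) :=
      ((pow_dvd_pow _ (by omega)).trans h).mul_right _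
    have h9 : Nm G (n + 1) - C (c ^ (n + 1)) * th^[n + 1 + 1] G
        = (G - C c) * th (Nm G n) + C c * (th (Nm G n) - C (c ^ n) * th^[n + 2] G)
          - ((n + 1 : ℕ) : k[X]) * (Nm G n * th G) := by
      rw [Nm, pow_succ, C_mul]
      ring
    rw [h9]
    exact dvd_sub (dvd_add h8 (h5.mul_left _)) (h4.mul_left _)

theorem DL_kernel (p : ℕ) [Fact p.Prime] [CharP k p] (G : k[X]) (hG : G.eval 1 ≠ 0) (m : ℕ)
    (hm : m < p) (h : ∀ j, 1 ≤ j → j ≤ m → DL j G = 0) :
    (X - 1) ^ (m + 1) ∣ G - C (G.eval 1) := by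
  have key : ∀ i, i ≤ m → (X - 1) ^ (i + 1) ∣ G - C (G.eval 1) := by
    intro i
    induction i with
    | zero =>
      intro _
      have : (X - C (1 : k)) ∣ G - C (G.eval 1) := by
        rw [dvd_iff_isRoot]
        simp
      simpa using this
    | succ i ih =>
      intro hi
      obtain ⟨H, hH⟩ := ih (by omega)
      have hdiv : (X - 1) ^ (i + 1) ∣ G - C (G.eval 1) := ⟨H, hH⟩
      have h1 := DK_step G (G.eval 1) (i + 1) hdiv i (le_refl _)
      rw [Nat.add_sub_cancel_left, pow_one] at h1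
      have h2 : (Nm G i).eval 1 = 0 := by
        have h3 := h (i + 1) (by omega) hi
        rw [DL, Nat.add_sub_cancel, div_eq_zero_iff] at h3
        rcases h3 with h3 | h3
        · exact h3
        · exact absurd h3 (pow_ne_zero _ hG)
      have h4 : (Nm G i - C (G.eval 1 ^ i) * th^[i + 1] G).eval 1 = 0 := by
        obtain ⟨g, hg⟩ := h1
        rw [hg]
        simp
      have h5 : (th^[i + 1] G).eval 1 = 0 := by
        rw [eval_sub, h2, eval_mul, eval_C, zero_sub, neg_eq_zero, mul_eq_zero] at h4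
        rcases h4 with h4 | h4
        · exact absurd h4 (pow_ne_zero _ hG)
        · exact h4
      obtain ⟨H', h6, h7⟩ := DK_iter (i + 1) 0 H
      rw [zero_add, pow_zero, one_mul] at h6
      rw [zero_add, Nat.descFactorial_self] at h7
      have h8 : th^[i + 1] G = H' := by
        rw [← h6, ← hH, DK_iter_sub]
      rw [h8, h7, mul_eq_zero] at h5
      have hfac : (((i + 1).factorial : ℕ) : k) ≠ 0 := by
        intro h0
        rw [CharP.cast_eq_zero_iff k p, (Fact.out : p.Prime).dvd_factorial] at h0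
        omega
      have h9 : H.eval 1 = 0 := h5.resolve_left hfac
      have h10 : (X - 1) ∣ H := by
        have : (X - C (1 : k)) ∣ H := by
          rw [dvd_iff_isRoot]
          exact h9
        simpa using this
      rw [hH, pow_succ (X - 1 : k[X]) (i + 1)]
      exact mul_dvd_mul_left _ h10
  exact key m le_rfl

theorem DL_eq_imp (p : ℕ) [Fact p.Prime] [CharP k p] (U V : k[X]) (hU : U.eval 1 ≠ 0)
    (hV : V.eval 1 ≠ 0) (m : ℕ) (hm : m < p) (h : ∀ j, 1 ≤ j → j ≤ m → DL j U = DL j V) :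
    (X - 1) ^ (m + 1) ∣ C (V.eval 1) * U - C (U.eval 1) * V := by
  have hp : p.Prime := Fact.out
  have hp1 : 1 ≤ p := hp.one_le
  have hVp : (V ^ (p - 1)).eval 1 ≠ 0 := by
    rw [eval_pow]
    exact pow_ne_zero _ hV
  have hG : (U * V ^ (p - 1)).eval 1 ≠ 0 := by
    rw [eval_mul]
    exact mul_ne_zero hU hVp
  have h1 : (X - 1) ^ (m + 1) ∣ U * V ^ (p - 1) - C ((U * V ^ (p - 1)).eval 1) := by
    apply DL_kernel p _ hG m hm
    intro j hj hjm
    rw [DL_mul j hj U _ hU hVp, DL_pow j hj V hV, h j hj hjm]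
    have : (((p - 1 : ℕ)) : k) = -1 := by
      rw [Nat.cast_sub hp1, CharP.cast_eq_zero, Nat.cast_one, zero_sub]
    rw [this]
    ring
  have h2 : (X - 1) ^ (m + 1) ∣ V ^ p - C (V.eval 1 ^ p) := by
    have h3 : (X - 1) ∣ V - C (V.eval 1) := by
      have : (X - C (1 : k)) ∣ V - C (V.eval 1) := by
        rw [dvd_iff_isRoot]
        simp
      simpa using this
    have h4 : (X - 1) ^ p ∣ (V - C (V.eval 1)) ^ p := pow_dvd_pow_of_dvd h3 p
    have h4b : (V - C (V.eval 1)) ^ p = V ^ p - C (V.eval 1 ^ p) := by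
      rw [sub_pow_char V (C (V.eval 1)), C_pow]
    rw [h4b] at h4
    exact dvd_trans (pow_dvd_pow _ (by omega)) h4
  have h5 : (X - 1) ^ (m + 1) ∣ C (V.eval 1 ^ (p - 1)) * (C (V.eval 1) * U - C (U.eval 1) * V) := by
    have h6 := dvd_sub (h1.mul_left V) (h2.mul_left U)
    have h7 : V * (U * V ^ (p - 1) - C ((U * V ^ (p - 1)).eval 1)) - U * (V ^ p - C (V.eval 1 ^ p))
        = C (V.eval 1 ^ (p - 1)) * (C (V.eval 1) * U - C (U.eval 1) * V) := by
      have h8 : V ^ p = V ^ (p - 1) * V := by rw [← pow_succ, Nat.sub_add_cancel hp1]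
      have h9 : V.eval 1 ^ p = V.eval 1 ^ (p - 1) * V.eval 1 := by
        rw [← pow_succ, Nat.sub_add_cancel hp1]
      rw [h8, h9, eval_mul, eval_pow, C_mul, C_mul]
      ring
    rw [h7] at h6
    exact h6
  have hu : IsUnit (C (V.eval 1 ^ (p - 1)) : k[X]) := by
    rw [isUnit_C]
    exact (pow_ne_zero _ hV).isUnit
  exact (hu.dvd_mul_left).mp h5

theorem reflect_congr (p : ℕ) [Fact p.Prime] [CharP k p] (F : k[X]) (d : ℕ)
    (hd : F.natDegree ≤ d) :
    (X - 1) ^ p ∣ F.reflect d - X ^ d * F.comp (X ^ (p - 1)) := by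
  have hp : p.Prime := Fact.out
  have hp1 : 1 ≤ p := hp.one_le
  have hX : ((X : k[X]) - 1) ^ p = X ^ p - 1 := by
    rw [sub_pow_char]
    simp
  rw [hX]
  have h1 : F.reflect d = ∑ i ∈ Finset.range (d + 1), C (F.coeff i) * X ^ (d - i) := by
    ext n
    rw [coeff_reflect]
    simp only [finsetSum_coeff, coeff_C_mul, coeff_X_pow]
    by_cases hn : n ≤ d
    · rw [revAt_le hn, Finset.sum_eq_single (d - n)]
      · rw [if_pos (by omega)]
        ring
      · intro b hb hbn
        rw [if_neg, mul_zero]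
        rw [Finset.mem_range] at hb
        omega
      · intro hb
        exfalso
        apply hb
        rw [Finset.mem_range]
        omega
    · rw [revAt_eq_self_of_lt (by omega), coeff_eq_zero_of_natDegree_lt (by omega)]
      symm
      apply Finset.sum_eq_zero
      intro b hb
      rw [if_neg (by omega), mul_zero]
  have h2 : F.comp (X ^ (p - 1))
      = ∑ i ∈ Finset.range (d + 1), C (F.coeff i) * (X ^ (p - 1)) ^ i := by
    conv_lhs => rw [F.as_sum_range_C_mul_X_pow' (n := d + 1) (by omega)]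
    rw [comp, eval₂_finsetSum]
    apply Finset.sum_congr rfl
    intro i _
    rw [eval₂_mul, eval₂_C, eval₂_pow, eval₂_X]
  rw [h1, h2, Finset.mul_sum, ← Finset.sum_sub_distrib]
  apply Finset.dvd_sum
  intro i hi
  rw [Finset.mem_range] at hi
  have h3 : C (F.coeff i) * X ^ (d - i) - X ^ d * (C (F.coeff i) * (X ^ (p - 1)) ^ i)
      = - (C (F.coeff i) * X ^ (d - i)) * ((X ^ p) ^ i - 1) := by
    have h4 : (X : k[X]) ^ d * (X ^ (p - 1)) ^ i = X ^ (d - i) * (X ^ p) ^ i := by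
      rw [← pow_mul, ← pow_mul, ← pow_add, ← pow_add]
      congr 1
      obtain ⟨q, rfl⟩ : ∃ q, p = q + 1 := ⟨p - 1, by omega⟩
      obtain ⟨e, rfl⟩ : ∃ e, d = e + i := ⟨d - i, by omega⟩
      simp only [Nat.add_sub_cancel]
      ring
    linear_combination (- C (F.coeff i)) * h4
  rw [h3]
  apply Dvd.dvd.mul_left
  have h5 := sub_dvd_pow_sub_pow ((X : k[X]) ^ p) 1 i
  rwa [one_pow] at h5

theorem DL_reflect (p : ℕ) [Fact p.Prime] [CharP k p] (F : k[X]) (hF : F.eval 1 ≠ 0) (d : ℕ)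
    (hd : F.natDegree ≤ d) (j : ℕ) (hj : 2 ≤ j) (hjp : j < p) :
    DL j (F.reflect d) = (-1) ^ j * DL j F := by
  have hp : p.Prime := Fact.out
  have hp1 : 1 ≤ p := hp.one_le
  rw [DL_congr j (by omega) _ _ ((pow_dvd_pow _ (by omega)).trans (reflect_congr p F d hd))]
  rw [DL_mul j (by omega) _ _ (by simp) (by simpa [eval_comp] using hF),
    DL_pow j (by omega) X (by simp), DL_X j hj, DL_comp j (by omega)]
  have : (((p - 1 : ℕ)) : k) = -1 := by
    rw [Nat.cast_sub hp1, CharP.cast_eq_zero, Nat.cast_one, zero_sub]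
  rw [this, mul_zero, zero_add]

end H45KC
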