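import Mathlib

/-!
# KC (Kummer's criterion over number fields, MP_ef6a16_nt): definitions

Logarithmic derivatives at `1` for the derivation `θ = X d/dX` of `k[X]`, `k` a field.
`Nm G n` is the numerator of `θ^n (θ G / G)`: `θ^n (θ G / G) = Nm G n / G ^ (n + 1)`.
`DL j G` (`j ≥ 1`) is the value at `1` of `θ^(j-1) (θ G / G)`, the `j`-th logarithmic derivative
of `G (e ^ v)` at `v = 0`.
`TB p b` is the set of the units `t` of `ZMod p` with `p < t + (b t mod p)` (`1 ≤ t < p`).
-/

open Polynomial

namespace H45KC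

/-- `θ f = X f'` -/
noncomputable def th {k : Type*} [Field k] (f : k[X]) : k[X] := X * derivative f

/-- the numerator of `θ^n (θ G / G)` with denominator `G ^ (n + 1)` -/
noncomputable def Nm {k : Type*} [Field k] (G : k[X]) : ℕ → k[X]
  | 0 => th G
  | n + 1 => G * th (Nm G n) - ((n + 1 : ℕ) : k[X]) * Nm G n * th G

/-- the `j`-th logarithmic derivative of `G` at `1` (`j ≥ 1`) -/
noncomputable def DL {k : Type*} [Field k] (j : ℕ) (G : k[X]) : k :=
  (Nm G (j - 1)).eval 1 / (G.eval 1) ^ j

/-- the `t` with `1 ≤ t < p` and `p < t + (b t mod p)` -/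
noncomputable def TB (p : ℕ) [Fact p.Prime] (b : ℕ) : Finset (ZMod p)ˣ := by
  classical
  exact Finset.univ.filter (fun t => p < t.val.val + (b * t.val.val) % p)

end H45KC
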