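import Pool.Agent.H9.FC.NfEmb
import Pool.Agent.H9.FC.Red

/-!
# KC, module EichG

If the norm form `nf K a b` is quasi-palindromic modulo `p`, then the part of the norm form belonging
to the places not dividing `a b c` is symmetric in `a`, `b` modulo `p` (variant of `H9FC.eich_fc`, proof
by helper9).
-/

namespace H45KC

open Polynomial NumberField H9FC

private theorem EichG_split {Ω ι : Type*} [Field Ω] [Fintype ι] [DecidableEq ι]
    (a b c : ι → Ω) (h : ∀ i, a i + b i + c i = 0)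
    (h2 : ∀ i, ¬ (a i = 0 ∧ b i = 0) ∧ ¬ (b i = 0 ∧ c i = 0) ∧ ¬ (c i = 0 ∧ a i = 0))
    (Z : Finset ι) (hZ : ∀ i, i ∈ Z ↔ a i ≠ 0 ∧ b i ≠ 0 ∧ c i ≠ 0) :
    ∃ (u : Ω) (n m k : ℕ), u ≠ 0 ∧
      ∏ i, (C (a i) + X * C (b i)) = C u * X ^ n * (X - C 1) ^ k * ∏ i ∈ Z, (C (a i) + X * C (b i)) ∧
      ∏ i, (C (b i) + X * C (a i))
        = C ((-1) ^ k * u) * X ^ m * (X - C 1) ^ k * ∏ i ∈ Z, (C (b i) + X * C (a i)) := by
  classical
  have key : ∀ S : Finset ι, (∀ i ∈ S, i ∉ Z) → ∃ (u : Ω) (n m k : ℕ), u ≠ 0 ∧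
      ∏ i ∈ S, (C (a i) + X * C (b i)) = C u * X ^ n * (X - C 1) ^ k ∧
      ∏ i ∈ S, (C (b i) + X * C (a i)) = C ((-1) ^ k * u) * X ^ m * (X - C 1) ^ k := by
    intro S
    induction S using Finset.induction_on with
    | empty => exact fun _ => ⟨1, 0, 0, 0, one_ne_zero, by simp, by simp⟩
    | insert i S hi ih =>
      intro hS
      obtain ⟨u, n, m, k, hu, h1, h2'⟩ := ih fun j hj => hS j (Finset.mem_insert_of_mem hj)
      have hiZ := hS i (Finset.mem_insert_self _ _)
      rw [hZ] at hiZ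
      rw [Finset.prod_insert hi, Finset.prod_insert hi, h1, h2']
      by_cases ha : a i = 0
      · have hb : b i ≠ 0 := fun hb => (h2 i).1 ⟨ha, hb⟩
        refine ⟨b i * u, n + 1, m, k, mul_ne_zero hb hu, ?_, ?_⟩
        · rw [ha]
          simp only [map_mul, map_zero]
          ring
        · rw [ha]
          simp only [map_mul, map_zero, map_pow, map_neg, map_one]
          ring
      · by_cases hb : b i = 0
        · refine ⟨a i * u, n, m + 1, k, mul_ne_zero ha hu, ?_, ?_⟩
          · rw [hb]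
            simp only [map_mul, map_zero]
            ring
          · rw [hb]
            simp only [map_mul, map_zero, map_pow, map_neg, map_one]
            ring
        · have hc : c i = 0 := by
            by_contra hc
            exact hiZ ⟨ha, hb, hc⟩
          have hba : b i = - a i := by
            have := h i
            rw [hc] at this
            linear_combination this
          refine ⟨- a i * u, n, m, k + 1, mul_ne_zero (neg_ne_zero.mpr ha) hu, ?_, ?_⟩
          · rw [hba]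
            simp only [map_mul, map_neg, map_one]
            ring
          · rw [hba]
            simp only [map_mul, map_neg, map_one, map_pow]
            ring
  obtain ⟨u, n, m, k, hu, h1, h3⟩ := key (Finset.univ \ Z) (fun i hi => (Finset.mem_sdiff.mp hi).2)
  refine ⟨u, n, m, k, hu, ?_, ?_⟩
  · rw [← Finset.prod_sdiff (Finset.subset_univ Z), h1]
  · rw [← Finset.prod_sdiff (Finset.subset_univ Z), h3]

private theorem EichG_mult {Ω : Type*} [Field Ω] (u : Ω) (hu : u ≠ 0) (n k : ℕ)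
    (G : Polynomial Ω) (hG0 : G.eval 0 ≠ 0) (hG1 : G.eval 1 ≠ 0) :
    (C u * X ^ n * (X - C 1) ^ k * G).rootMultiplicity 0 = n ∧
    (C u * X ^ n * (X - C 1) ^ k * G).rootMultiplicity 1 = k := by
  have hG : G ≠ 0 := by
    rintro rfl
    simp at hG0
  have hC : C u ≠ 0 := C_ne_zero.mpr hu
  have hX : (X : Polynomial Ω) ^ n ≠ 0 := pow_ne_zero _ X_ne_zero
  have hX1 : (X - C 1 : Polynomial Ω) ^ k ≠ 0 := pow_ne_zero _ (X_sub_C_ne_zero 1)
  have e1 : ∀ z : Ω, (C u * X ^ n * (X - C 1) ^ k * G).rootMultiplicity z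
      = (X ^ n : Polynomial Ω).rootMultiplicity z + ((X - C 1) ^ k : Polynomial Ω).rootMultiplicity z
        + G.rootMultiplicity z := by
    intro z
    rw [rootMultiplicity_mul (mul_ne_zero (mul_ne_zero (mul_ne_zero hC hX) hX1) hG),
      rootMultiplicity_mul (mul_ne_zero (mul_ne_zero hC hX) hX1),
      rootMultiplicity_mul (mul_ne_zero hC hX), rootMultiplicity_C, zero_add]
  constructor
  · rw [e1]
    have h1 : (X ^ n : Polynomial Ω).rootMultiplicity 0 = n := by
      have := rootMultiplicity_X_sub_C_pow (0 : Ω) n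
      simpa using this
    have h2 : ((X - C 1) ^ k : Polynomial Ω).rootMultiplicity 0 = 0 := by
      apply rootMultiplicity_eq_zero
      simp [IsRoot.def]
    have h3 : G.rootMultiplicity 0 = 0 := rootMultiplicity_eq_zero hG0
    rw [h1, h2, h3]
    ring
  · rw [e1]
    have h1 : (X ^ n : Polynomial Ω).rootMultiplicity 1 = 0 := by
      apply rootMultiplicity_eq_zero
      simp [IsRoot.def]
    have h2 : ((X - C 1) ^ k : Polynomial Ω).rootMultiplicity 1 = k :=
      rootMultiplicity_X_sub_C_pow (1 : Ω) k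
    have h3 : G.rootMultiplicity 1 = 0 := rootMultiplicity_eq_zero hG1
    rw [h1, h2, h3]
    ring

/-- `F` is quasi-palindromic modulo `p` -/
def QPal (p : ℕ) [Fact p.Prime] (F : ℤ[X]) (d : ℕ) : Prop :=
  X ^ (((F.reflect d).map (Int.castRingHom (ZMod p))).rootMultiplicity 0)
      * F.map (Int.castRingHom (ZMod p))
    = C ((-1) ^ ((F.map (Int.castRingHom (ZMod p))).rootMultiplicity 1))
      * X ^ ((F.map (Int.castRingHom (ZMod p))).rootMultiplicity 0)
      * (F.reflect d).map (Int.castRingHom (ZMod p))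

theorem nf_map_ne_zero (K : Type*) [Field K] [NumberField K] (p : ℕ) [Fact p.Prime]
    (a b c : 𝓞 K) (h : FSol K p a b c) (hcp : CopAt K p a b c) :
    (nf K a b).map (Int.castRingHom (ZMod p)) ≠ 0 := by
  intro h0
  obtain ⟨ψ, hψ⟩ := exists_redFam K p (AlgebraicClosure (ZMod p))
  have h1 := hψ a b
  let g : ZMod p →+* AlgebraicClosure (ZMod p) := algebraMap _ _
  have hgg : g.comp (Int.castRingHom (ZMod p)) = Int.castRingHom (AlgebraicClosure (ZMod p)) :=
    RingHom.ext_int _ _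
  rw [← hgg, ← Polynomial.map_map, h0, Polynomial.map_zero] at h1
  have h2 := Finset.prod_eq_zero_iff.mp h1.symm
  obtain ⟨i, -, hi⟩ := h2
  have h3 := congrArg (fun f => f.coeff 0) hi
  have h4 := congrArg (fun f => f.coeff 1) hi
  simp only [coeff_add, coeff_C_zero, coeff_zero] at h3
  simp only [coeff_add, coeff_zero] at h4
  have h5 : (X * C ((ψ i) b) : (AlgebraicClosure (ZMod p))[X]).coeff 0 = 0 := by simp
  have h6 : (X * C ((ψ i) b) : (AlgebraicClosure (ZMod p))[X]).coeff 1 = ψ i b := by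
    simp
  rw [h5, add_zero] at h3
  rw [h6, coeff_C_of_ne_zero one_ne_zero, zero_add] at h4
  exact (cop_hom h hcp (ψ i)).1 ⟨h3, h4⟩

theorem eich_fc_gen (K : Type*) [Field K] [NumberField K] (p : ℕ) [Fact p.Prime]
    (a b c : 𝓞 K) (h : FSol K p a b c)
    (hcp : CopAt K p a b c) (hE : QPal p (nf K a b) (Module.finrank ℚ K))
    {Ω : Type*} [Field Ω] [CharP Ω p]
    {ψ : Fin (Module.finrank ℚ K) → (𝓞 K →+* Ω)} (hψ : IsRedFam ψ) (x y : Ω) :
    ∏ i ∈ ZZ ψ a b c, (x * ψ i b + y * ψ i a) = ∏ i ∈ ZZ ψ a b c, (x * ψ i a + y * ψ i b) := by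
  classical
  have hsum : ∀ i, ψ i a + ψ i b + ψ i c = 0 := fun i => fsol_hom h (ψ i)
  have hcop : ∀ i, ¬ (ψ i a = 0 ∧ ψ i b = 0) ∧ ¬ (ψ i b = 0 ∧ ψ i c = 0) ∧
      ¬ (ψ i c = 0 ∧ ψ i a = 0) := fun i => cop_hom h hcp (ψ i)
  obtain ⟨u, n, m, k, hu, e1, e2⟩ := EichG_split (fun i => ψ i a) (fun i => ψ i b)
    (fun i => ψ i c) hsum hcop (ZZ ψ a b c) (fun i => mem_ZZ ψ a b c i)
  set G : Polynomial Ω := ∏ i ∈ ZZ ψ a b c, (C (ψ i a) + X * C (ψ i b)) with hG
  set G' : Polynomial Ω := ∏ i ∈ ZZ ψ a b c, (C (ψ i b) + X * C (ψ i a)) with hG'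
  have hF := hψ a b
  have hF' := hψ b a
  rw [e1] at hF
  rw [e2] at hF'
  have hZa : ∀ i ∈ ZZ ψ a b c, ψ i a ≠ 0 := fun i hi => ((mem_ZZ ψ a b c i).mp hi).1
  have hZb : ∀ i ∈ ZZ ψ a b c, ψ i b ≠ 0 := fun i hi => ((mem_ZZ ψ a b c i).mp hi).2.1
  have hZc : ∀ i ∈ ZZ ψ a b c, ψ i c ≠ 0 := fun i hi => ((mem_ZZ ψ a b c i).mp hi).2.2
  have hG0 : G.eval 0 ≠ 0 := by
    rw [hG, eval_prod]
    refine Finset.prod_ne_zero_iff.mpr fun i hi => ?_
    simpa using hZa i hi
  have hG0' : G'.eval 0 ≠ 0 := by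
    rw [hG', eval_prod]
    refine Finset.prod_ne_zero_iff.mpr fun i hi => ?_
    simpa using hZb i hi
  have hab : ∀ i ∈ ZZ ψ a b c, ψ i a + ψ i b ≠ 0 := by
    intro i hi h0
    apply hZc i hi
    have := hsum i
    rw [h0, zero_add] at this
    exact this
  have hG1 : G.eval 1 ≠ 0 := by
    rw [hG, eval_prod]
    refine Finset.prod_ne_zero_iff.mpr fun i hi => ?_
    simpa using hab i hi
  have hG1' : G'.eval 1 ≠ 0 := by
    rw [hG', eval_prod]
    refine Finset.prod_ne_zero_iff.mpr fun i hi => ?_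
    simpa [add_comm] using hab i hi
  have hu' : (-1) ^ k * u ≠ 0 := mul_ne_zero (pow_ne_zero _ (by simp)) hu
  have hGne : G ≠ 0 := by
    intro h0
    rw [h0] at hG0
    simp at hG0
  have hFne : (nf K a b).map (Int.castRingHom Ω) ≠ 0 := by
    rw [hF]
    exact mul_ne_zero (mul_ne_zero (mul_ne_zero (C_ne_zero.mpr hu) (pow_ne_zero _ X_ne_zero))
      (pow_ne_zero _ (X_sub_C_ne_zero 1))) hGne
  let g : ZMod p →+* Ω := ZMod.castHom dvd_rfl Ω
  have hg : Function.Injective g := g.injective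
  have hgg : g.comp (Int.castRingHom (ZMod p)) = Int.castRingHom Ω := RingHom.ext_int _ _
  have key : X ^ (((nf K b a).map (Int.castRingHom (ZMod p))).rootMultiplicity 0)
      * (nf K a b).map (Int.castRingHom (ZMod p))
    = C ((-1) ^ (((nf K a b).map (Int.castRingHom (ZMod p))).rootMultiplicity 1))
      * X ^ (((nf K a b).map (Int.castRingHom (ZMod p))).rootMultiplicity 0)
      * (nf K b a).map (Int.castRingHom (ZMod p)) := by
    rw [nf_swap K a b]
    exact hE
  have hm0 : ((nf K b a).map (Int.castRingHom (ZMod p))).rootMultiplicity 0 = m := by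
    rw [eq_rootMultiplicity_map hg, map_zero, Polynomial.map_map, hgg, hF']
    exact (EichG_mult _ hu' m k G' hG0' hG1').1
  have hn0 : ((nf K a b).map (Int.castRingHom (ZMod p))).rootMultiplicity 0 = n := by
    rw [eq_rootMultiplicity_map hg, map_zero, Polynomial.map_map, hgg, hF]
    exact (EichG_mult _ hu n k G hG0 hG1).1
  have hk0 : ((nf K a b).map (Int.castRingHom (ZMod p))).rootMultiplicity 1 = k := by
    rw [eq_rootMultiplicity_map hg, map_one, Polynomial.map_map, hgg, hF]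
    exact (EichG_mult _ hu n k G hG0 hG1).2
  rw [hm0, hn0, hk0] at key
  have key2 := congrArg (Polynomial.map g) key
  simp only [Polynomial.map_mul, Polynomial.map_pow, Polynomial.map_X, Polynomial.map_C,
    Polynomial.map_map, hgg, hF, hF'] at key2
  have hGG : G = G' := by
    have hne : C u * X ^ n * X ^ m * (X - C 1) ^ k ≠ (0 : Polynomial Ω) :=
      mul_ne_zero (mul_ne_zero (mul_ne_zero (C_ne_zero.mpr hu) (pow_ne_zero _ X_ne_zero))
        (pow_ne_zero _ X_ne_zero)) (pow_ne_zero _ (X_sub_C_ne_zero 1))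
    apply mul_left_cancel₀ hne
    have h3 : (C (g ((-1) ^ k)) * C ((-1) ^ k * u) : Polynomial Ω) = C u := by
      rw [← C_mul]
      congr 1
      rw [map_pow, map_neg, map_one, ← mul_assoc, ← mul_pow]
      simp
    calc C u * X ^ n * X ^ m * (X - C 1) ^ k * G
        = X ^ m * (C u * X ^ n * (X - C 1) ^ k * G) := by ring
      _ = C (g ((-1) ^ k)) * X ^ n * (C ((-1) ^ k * u) * X ^ m * (X - C 1) ^ k * G') := key2
      _ = (C (g ((-1) ^ k)) * C ((-1) ^ k * u)) * X ^ n * X ^ m * (X - C 1) ^ k * G' := by ring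
      _ = C u * X ^ n * X ^ m * (X - C 1) ^ k * G' := by rw [h3]
  rcases eq_or_ne x 0 with rfl | hx
  · have h0 := congrArg (eval 0) hGG
    rw [hG, hG', eval_prod, eval_prod] at h0
    simp only [eval_add, eval_C, eval_mul, eval_X, zero_mul, add_zero] at h0
    simp only [zero_mul, zero_add, Finset.prod_mul_distrib, h0]
  · have h0 := congrArg (eval (y / x)) hGG
    rw [hG, hG', eval_prod, eval_prod] at h0
    simp only [eval_add, eval_C, eval_mul, eval_X] at h0
    have f1 : ∀ i ∈ ZZ ψ a b c, x * ψ i b + y * ψ i a = x * (ψ i b + y / x * ψ i a) := by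
      intro i _
      field_simp
    have f2 : ∀ i ∈ ZZ ψ a b c, x * ψ i a + y * ψ i b = x * (ψ i a + y / x * ψ i b) := by
      intro i _
      field_simp
    rw [Finset.prod_congr rfl f1, Finset.prod_congr rfl f2, Finset.prod_mul_distrib,
      Finset.prod_mul_distrib, h0]

end H45KC
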