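import Pool.Agent.H45.KC.KRel
import Pool.Agent.H9.FC.APart
import Pool.Agent.H9.FC.StickEl

/-!
# KC, module KDL: Kummer's congruences for a polynomial `F` whose value at `ζ` is (nearly) a
`p`-th power of an ideal

`F ≡ (X-1)^μ P` modulo `p`, `P(1)` prime to `p`, and `I^p = (F(ζ) F(ζ⁻¹)^(p-1))`.
CLAIM: `DL j P = 0` (modulo `p`) for every odd `j`, `3 ≤ j < p - 1 - μ`, such that `p` does not divide
the numerator of `B_(p-j)`.

PROOF. If there is such a `j` then `μ + 1 < p` and `p ≠ 2`.  Put `n = p - 1 - μ`, `ζ' = ζ^(p-1)`, a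
primitive `p`-th root of unity. Let `A₁`, `A₁'` be the `A`-parts of `F(ζ)`, `F(ζ')` (`exists_apart`
for `η = ζ`, `ζ'`); they lie in no prime above `p` and are `≠ 0` (there is a prime
above `p`, `prime_zeta_sub_one`). `A = A₁ A₁'^(p-1)` lies in no prime above `p`, and `(A)` is a
`p`-th power (`apart_pow_ideal`).  Modulo `(ζ-1)^n`: `A₁ ≡ P(ζ)`, and `A₁' ≡ P(ζ')` because
`(ζ' - 1)^n` is a multiple of `(ζ - 1)^n` (`ζ - 1 ∣ ζ^(p-1) - 1`). So `A ≡ G(ζ)` modulo `(ζ-1)^n`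
with `G = P * (P.comp (X^(p-1)))^(p-1)`.
Now `krel` applies: `hpow` is `pow_p_mod`; `hst` is `stick_elem` for `b`, where the product over
`TS p M b` is the product over `TB p b` by the bijection `galEquivZMod p M`
(`σ = (galEquivZMod p M).symm t`; the two filters agree).  So `DL j G = 0` in `ZMod p`.  By `DL_mul`,
`DL_pow`, `DL_comp` (`P(1) ≠ 0` in `ZMod p`): `DL j G = DL j P + (p-1) (p-1)^j DL j P
= (1 - (-1)^j) DL j P = 2 DL j P` (`(p - 1 : ZMod p) = -1`, `j` odd). `2 ≠ 0` in `ZMod p`.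
-/

open Polynomial NumberField H9FC

namespace H45KC

private theorem KDL_prod (p : ℕ) [Fact p.Prime] (M : Type*) [Field M] [NumberField M]
    [IsCyclotomicExtension {p} ℚ M] (b : ℕ) (A : 𝓞 M) :
    ∏ t ∈ TB p b, ((IsCyclotomicExtension.Rat.galEquivZMod p M).symm t)⁻¹ • A
      = ∏ σ ∈ TS p M b, σ⁻¹ • A := by
  classical
  refine Finset.prod_nbij' (fun t => (IsCyclotomicExtension.Rat.galEquivZMod p M).symm t)
    (fun σ => IsCyclotomicExtension.Rat.galEquivZMod p M σ) ?_ ?_ ?_ ?_ ?_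
  · intro t ht
    have h1 : p < t.val.val + (b * t.val.val) % p := by
      simpa [TB] using ht
    have h2 : IsCyclotomicExtension.Rat.galEquivZMod p M
        ((IsCyclotomicExtension.Rat.galEquivZMod p M).symm t) = t :=
      MulEquiv.apply_symm_apply _ t
    unfold TS
    rw [Finset.mem_filter, h2]
    exact ⟨Finset.mem_univ _, h1⟩
  · intro σ hσ
    have h1 : p < (IsCyclotomicExtension.Rat.galEquivZMod p M σ).val.val
      + (b * (IsCyclotomicExtension.Rat.galEquivZMod p M σ).val.val) % p := by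
      simpa [TS] using hσ
    have h2 : IsCyclotomicExtension.Rat.galEquivZMod p M σ ∈ TB p b ↔
        p < (IsCyclotomicExtension.Rat.galEquivZMod p M σ).val.val
      + (b * (IsCyclotomicExtension.Rat.galEquivZMod p M σ).val.val) % p := by
      simp [TB]
    exact h2.2 h1
  · intro t _
    exact MulEquiv.apply_symm_apply _ t
  · intro σ _
    exact MulEquiv.symm_apply_apply _ σ
  · intro t _
    rfl

private theorem KDL_eval (p : ℕ) [Fact p.Prime] (P : ℤ[X]) :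
    (P.map (Int.castRingHom (ZMod p))).eval 1 = ((P.eval 1 : ℤ) : ZMod p) := by
  have h : (1 : ZMod p) = Int.castRingHom (ZMod p) 1 := (map_one _).symm
  rw [← Polynomial.eval₂_eq_eval_map]
  conv_lhs => rw [h]
  rw [Polynomial.eval₂_at_apply]
  rfl

theorem kdl (p : ℕ) [Fact p.Prime] (M : Type*) [Field M] [NumberField M]
    [IsCyclotomicExtension {p} ℚ M] {ζ : 𝓞 M} (hζ : IsPrimitiveRoot ζ p) (F P : ℤ[X]) (μ : ℕ)
    (hF : F.map (Int.castRingHom (ZMod p)) = (X - 1) ^ μ * P.map (Int.castRingHom (ZMod p)))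
    (hP1 : ¬ (p : ℤ) ∣ P.eval 1)
    (hI : ∃ I : Ideal (𝓞 M),
      I ^ p = Ideal.span {aeval ζ F * (aeval (ζ ^ (p - 1)) F) ^ (p - 1)})
    (j : ℕ) (hj : Odd j) (h3 : 3 ≤ j) (hjn : j < p - 1 - μ)
    (hB : ¬ (p : ℤ) ∣ (_root_.bernoulli (p - j)).num) :
    DL j (P.map (Int.castRingHom (ZMod p))) = 0 := by
  have hp : p.Prime := Fact.out
  have hp2 : p ≠ 2 := by omega
  have hμ : μ + 1 < p := by omega
  have hp1 : 1 ≤ p := hp.one_le
  have hcop : (p - 1).Coprime p := by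
    have h1 := (Nat.coprime_self_sub_left hp1).2 (Nat.coprime_one_left p)
    exact h1
  have hζ' : IsPrimitiveRoot (ζ ^ (p - 1)) p := hζ.pow_of_coprime (p - 1) hcop
  obtain ⟨A₁, hA1, hA2, hA3, -⟩ := exists_apart p M hζ F P μ hμ hF
  obtain ⟨A₂, hB1, hB2, hB3, -⟩ := exists_apart p M hζ' F P μ hμ hF
  have hA3' := hA3 hP1
  have hB3' := hB3 hP1
  obtain ⟨hpr, -, -⟩ := prime_zeta_sub_one p M hζ
  have hpmem : (p : 𝓞 M) ∈ Ideal.span {ζ - 1} := by
    rw [Ideal.mem_span_singleton]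
    exact (dvd_pow_self (ζ - 1) (by omega)).trans (associated_p p M hζ).symm.dvd
  have h0 : A₁ ≠ 0 := fun h => hA3' _ hpr hpmem (by rw [h]; exact Ideal.zero_mem _)
  have h0' : A₂ ≠ 0 := fun h => hB3' _ hpr hpmem (by rw [h]; exact Ideal.zero_mem _)
  have hid := apart_pow_ideal p hp2 M hζ F μ A₁ A₂ hA1 hB1 hI h0 h0'
  have hdvd : (ζ - 1) ^ (p - 1 - μ) ∣ A₂ - aeval (ζ ^ (p - 1)) P := by
    refine (pow_dvd_pow_of_dvd ?_ _).trans hB2
    have := sub_dvd_pow_sub_pow ζ 1 (p - 1)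
    rwa [one_pow] at this
  have hAG : (ζ - 1) ^ (p - 1 - μ) ∣
      A₁ * A₂ ^ (p - 1) - aeval ζ (P * (P.comp (X ^ (p - 1))) ^ (p - 1)) := by
    have h1 : aeval ζ (P * (P.comp (X ^ (p - 1))) ^ (p - 1)) =
        aeval ζ P * (aeval (ζ ^ (p - 1)) P) ^ (p - 1) := by
      rw [map_mul, map_pow, aeval_comp, map_pow, aeval_X]
    rw [h1]
    have h2 : A₁ * A₂ ^ (p - 1) - aeval ζ P * (aeval (ζ ^ (p - 1)) P) ^ (p - 1) =
        (A₁ - aeval ζ P) * A₂ ^ (p - 1) +
          aeval ζ P * (A₂ ^ (p - 1) - (aeval (ζ ^ (p - 1)) P) ^ (p - 1)) := by ring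
    rw [h2]
    exact dvd_add (hA2.mul_right _)
      ((hdvd.trans (sub_dvd_pow_sub_pow _ _ _)).mul_left _)
  have hDL := krel p hp2 M hζ
    (fun δ => by
      obtain ⟨n, hn, -⟩ := pow_p_mod p M δ
      exact ⟨n, hn⟩)
    (fun b hb hb' A hA0 hAs h𝔞 => by
      obtain ⟨𝔞, h𝔞⟩ := h𝔞
      obtain ⟨s, J, hJ⟩ := stick_elem p hp2 M hζ b hb hb' A hA0 hAs 𝔞 h𝔞
      exact ⟨s, J, by rw [KDL_prod, hJ]⟩)
    (A₁ * A₂ ^ (p - 1))
    (fun Q hQ hpQ hmem => by
      rcases hQ.mem_or_mem hmem with h | h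
      · exact hA3' Q hQ hpQ h
      · exact hB3' Q hQ hpQ (hQ.mem_of_pow_mem _ h))
    hid (P * (P.comp (X ^ (p - 1))) ^ (p - 1)) (p - 1 - μ) (by omega) hAG j hj h3 hjn hB
  have hP1' : (P.map (Int.castRingHom (ZMod p))).eval 1 ≠ 0 := by
    rw [KDL_eval]
    intro h
    exact hP1 ((ZMod.intCast_zmod_eq_zero_iff_dvd _ p).1 h)
  have hj1 : 1 ≤ j := by omega
  have hcm : ((p - 1 : ℕ) : ZMod p) = -1 := by
    rw [Nat.cast_sub hp1, ZMod.natCast_self, Nat.cast_one, zero_sub]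
  have hC1 : ((P.map (Int.castRingHom (ZMod p))).comp (X ^ (p - 1))).eval 1 ≠ 0 := by
    rw [eval_comp, eval_pow, eval_X, one_pow]
    exact hP1'
  rw [Polynomial.map_mul, Polynomial.map_pow, Polynomial.map_comp, Polynomial.map_pow,
    Polynomial.map_X, DL_mul j hj1 _ _ hP1' (by rw [eval_pow]; exact pow_ne_zero _ hC1),
    DL_pow j hj1 _ hC1, DL_comp j hj1, hcm, hj.neg_one_pow] at hDL
  have h2 : (2 : ZMod p) * DL j (P.map (Int.castRingHom (ZMod p))) = 0 := by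
    linear_combination hDL
  rcases mul_eq_zero.1 h2 with h | h
  · exfalso
    have h4 : ((2 : ℕ) : ZMod p) = 0 := by exact_mod_cast h
    rw [ZMod.natCast_eq_zero_iff] at h4
    exact hp2 ((Nat.prime_dvd_prime_iff_eq hp Nat.prime_two).1 h4)
  · exact h

end H45KC
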