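import Pool.Agent.H45.KC.KFin

/-!
# KC, module KFin2: the norm forms for solutions in `K`, reformulation of the hypothesis
-/

open Polynomial NumberField IsDedekindDomain H9FC

namespace H45KC

theorem irr_card (p : ℕ) :
    {m : ℕ | Even m ∧ 2 ≤ m ∧ m + 3 ≤ p ∧ (p : ℤ) ∣ (_root_.bernoulli m).num}.ncard
      = (irr p).card := by
  classical
  rw [← Set.ncard_coe_finset]
  congr 1
  ext m
  simp only [Set.mem_ofPred_eq, irr, Finset.coe_filter, Finset.mem_range]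
  constructor
  · rintro ⟨h1, h2, h3, h4⟩
    exact ⟨by omega, h1, h2, h4⟩
  · rintro ⟨h0, h1, h2, h4⟩
    exact ⟨h1, h2, by omega, h4⟩

section
variable {K : Type*} [Field K] [NumberField K] {p : ℕ} [Fact p.Prime]

theorem not_dvd_norm' (x : 𝓞 K)
    (hx : ∀ P : Ideal (𝓞 K), P.IsPrime → (p : 𝓞 K) ∈ P → x ∉ P) :
    ¬ (p : ℤ) ∣ Algebra.norm ℤ x := by
  intro h0
  obtain ⟨ψ, hψ⟩ := exists_redFam K p (AlgebraicClosure (ZMod p))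
  have h1 := redFam_norm hψ x
  rw [(CharP.intCast_eq_zero_iff (AlgebraicClosure (ZMod p)) p _).mpr h0] at h1
  obtain ⟨i, -, hi⟩ := Finset.prod_eq_zero_iff.mp h1.symm
  exact hx (RingHom.ker (ψ i)) (RingHom.ker_isPrime _)
    (by rw [RingHom.mem_ker, map_natCast, CharP.cast_eq_zero]) (RingHom.mem_ker.mpr hi)

theorem fin_forms (hC : Cond (Module.finrank ℚ K) p)
    (a b c : K) (ha : a ≠ 0) (hb : b ≠ 0) (hc : c ≠ 0) (h : a ^ p + b ^ p + c ^ p = 0)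
    (hfc : ∀ v : HeightOneSpectrum (𝓞 K), (p : 𝓞 K) ∈ v.asIdeal →
      v.valuation K a = v.valuation K b ∧ v.valuation K b = v.valuation K c) (x y : ℤ) (u w : K)
    (huw : (u = a ∧ w = b) ∨ (u = b ∧ w = a) ∨ (u = b ∧ w = c) ∨ (u = c ∧ w = b) ∨
        (u = c ∧ w = a) ∨ (u = a ∧ w = c)) :
    ∃ s t : ℤ, ¬ (p : ℤ) ∣ t ∧
      (t : ℚ) * (Algebra.norm ℚ ((x : K) * u + (y : K) * w)
          - Algebra.norm ℚ ((x : K) * a + (y : K) * b))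
        = (p : ℚ) * (s : ℚ) * Algebra.norm ℚ a := by
  obtain ⟨l, a', b', c', hl, ea, eb, ec, hF, hcp, -⟩ := exists_norm K p p a b c ha hb hc h
  have hp0 : (p : 𝓞 K) ≠ 0 := Nat.cast_ne_zero.mpr (Fact.out : p.Prime).ne_zero
  have h1 : ∀ P : Ideal (𝓞 K), P.IsPrime → (p : 𝓞 K) ∈ P → a' ∉ P ∧ b' ∉ P ∧ c' ∉ P := by
    intro P hP hpP
    have hne : P ≠ ⊥ := by
      rintro rfl
      exact hp0 (Ideal.mem_bot.mp hpP)
    obtain ⟨n1, n2, n3⟩ := (not_dv_iff ha hb hc h ⟨P, hP, hne⟩).mpr (hfc ⟨P, hP, hne⟩ hpP)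
    rw [dv_iff hl ea eb ec hcp _ hpP] at n1
    rw [dv_iff hl eb ec ea hcp.rot _ hpP] at n2
    rw [dv_iff hl ec ea eb hcp.rot.rot _ hpP] at n3
    exact ⟨n1, n2, n3⟩
  have hnl : Algebra.norm ℚ l ≠ 0 := by
    rw [Ne, Algebra.norm_eq_zero_iff]
    exact hl
  have key : ∀ (u w : K) (u' w' : 𝓞 K), (u' : K) = l * u → (w' : K) = l * w →
      ((Algebra.norm ℤ ((x : 𝓞 K) * u' + (y : 𝓞 K) * w') : ℤ) : ℚ)
        = Algebra.norm ℚ l * Algebra.norm ℚ ((x : K) * u + (y : K) * w) := by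
    intro u w u' w' hu hw
    rw [← map_mul, Algebra.coe_norm_int]
    congr 1
    have h8 : (((x : 𝓞 K) * u' + (y : 𝓞 K) * w' : 𝓞 K) : K)
        = (x : K) * (u' : K) + (y : K) * (w' : K) := by
      simp only [map_add, map_mul, map_intCast]
    rw [h8, hu, hw]
    ring
  obtain ⟨u', w', hu, hw, huw'⟩ : ∃ u' w' : 𝓞 K, (u' : K) = l * u ∧ (w' : K) = l * w ∧
      ((u' = a' ∧ w' = b') ∨ (u' = b' ∧ w' = a') ∨ (u' = b' ∧ w' = c') ∨ (u' = c' ∧ w' = b') ∨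
        (u' = c' ∧ w' = a') ∨ (u' = a' ∧ w' = c')) := by
    rcases huw with ⟨rfl, rfl⟩ | ⟨rfl, rfl⟩ | ⟨rfl, rfl⟩ | ⟨rfl, rfl⟩ | ⟨rfl, rfl⟩ | ⟨rfl, rfl⟩
    · exact ⟨a', b', ea, eb, Or.inl ⟨rfl, rfl⟩⟩
    · exact ⟨b', a', eb, ea, Or.inr (Or.inl ⟨rfl, rfl⟩)⟩
    · exact ⟨b', c', eb, ec, Or.inr (Or.inr (Or.inl ⟨rfl, rfl⟩))⟩
    · exact ⟨c', b', ec, eb, Or.inr (Or.inr (Or.inr (Or.inl ⟨rfl, rfl⟩)))⟩
    · exact ⟨c', a', ec, ea, Or.inr (Or.inr (Or.inr (Or.inr (Or.inl ⟨rfl, rfl⟩))))⟩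
    · exact ⟨a', c', ea, ec, Or.inr (Or.inr (Or.inr (Or.inr (Or.inr ⟨rfl, rfl⟩))))⟩
  obtain ⟨s, hs⟩ := main_forms hC hF hcp h1 x y u' w' huw'
  refine ⟨s, Algebra.norm ℤ a', not_dvd_norm' a' fun P hP hpP => (h1 P hP hpP).1, ?_⟩
  have k1 := key u w u' w' hu hw
  have k2 := key a b a' b' ea eb
  have k3 : ((Algebra.norm ℤ a' : ℤ) : ℚ) = Algebra.norm ℚ l * Algebra.norm ℚ a := by
    rw [← map_mul, Algebra.coe_norm_int, ea]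
  have k4 : ((Algebra.norm ℤ ((x : 𝓞 K) * u' + (y : 𝓞 K) * w') : ℤ) : ℚ)
      - ((Algebra.norm ℤ ((x : 𝓞 K) * a' + (y : 𝓞 K) * b') : ℤ) : ℚ) = (p : ℚ) * (s : ℚ) := by
    rw [← Int.cast_sub, hs]
    push_cast
    ring
  rw [k1, k2] at k4
  apply mul_left_cancel₀ hnl
  rw [k3]
  linear_combination (Algebra.norm ℚ l * Algebra.norm ℚ a) * k4

end

end H45KC
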