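import Pool.Agent.H45.KC.KFin3

/-!
# KC, module KFin4: the further consequences for solutions in `K`
-/

open Polynomial NumberField IsDedekindDomain H9FC

namespace H45KC

section
variable {K : Type*} [Field K] [NumberField K] {p : ℕ} [Fact p.Prime]

/-- from a prime ideal containing none of the normalised `a, b, c` to equal valuations -/
theorem val_eq_of_ideal {a b c l : K} (hl : l ≠ 0) {a' b' c' : 𝓞 K} (ea : (a' : K) = l * a)
    (eb : (b' : K) = l * b) (ec : (c' : K) = l * c)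
    (v : HeightOneSpectrum (𝓞 K))
    (hn : a' ∉ v.asIdeal ∧ b' ∉ v.asIdeal ∧ c' ∉ v.asIdeal) :
    v.valuation K a = v.valuation K b ∧ v.valuation K b = v.valuation K c := by
  have key : ∀ (x : K) (x' : 𝓞 K), (x' : K) = l * x → x' ∉ v.asIdeal →
      v.valuation K l * v.valuation K x = 1 := by
    intro x x' hx hx'
    rw [← map_mul, ← hx]
    refine le_antisymm (v.valuation_le_one x') ?_
    by_contra h6
    exact hx' ((HeightOneSpectrum.valuation_lt_one_iff_mem (K := K) v x').mp (not_le.mp h6))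
  have hvl : v.valuation K l ≠ 0 := by
    rw [Valuation.ne_zero_iff]
    exact hl
  have k1 := key a a' ea hn.1
  have k2 := key b b' eb hn.2.1
  have k3 := key c c' ec hn.2.2
  exact ⟨mul_left_cancel₀ hvl (k1.trans k2.symm), mul_left_cancel₀ hvl (k2.trans k3.symm)⟩

/-- the converse, for normalised `a, b, c` -/
theorem ideal_of_val_eq {q : ℕ} {a b c l : K} (ha : a ≠ 0) (hb : b ≠ 0) (hc : c ≠ 0)
    (h : a ^ p + b ^ p + c ^ p = 0) (hl : l ≠ 0) {a' b' c' : 𝓞 K} (ea : (a' : K) = l * a)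
    (eb : (b' : K) = l * b) (ec : (c' : K) = l * c) (hcq : CopAt K q a' b' c')
    (v : HeightOneSpectrum (𝓞 K)) (hv : (q : 𝓞 K) ∈ v.asIdeal)
    (h1 : v.valuation K a = v.valuation K b) (h2 : v.valuation K b = v.valuation K c) :
    a' ∉ v.asIdeal ∧ b' ∉ v.asIdeal ∧ c' ∉ v.asIdeal := by
  obtain ⟨n1, n2, n3⟩ := (not_dv_iff ha hb hc h v).mpr ⟨h1, h2⟩
  rw [dv_iff hl ea eb ec hcq v hv] at n1
  rw [dv_iff hl eb ec ea hcq.rot v hv] at n2
  rw [dv_iff hl ec ea eb hcq.rot.rot v hv] at n3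
  exact ⟨n1, n2, n3⟩

theorem val_quad {a b l : K} {a' b' : 𝓞 K} (ea : (a' : K) = l * a)
    (eb : (b' : K) = l * b) (v : HeightOneSpectrum (𝓞 K)) (hn : a' ∉ v.asIdeal)
    (hq : a' ^ 2 + a' * b' + b' ^ 2 ∈ v.asIdeal) :
    v.valuation K (a ^ 2 + a * b + b ^ 2) < v.valuation K (a ^ 2) := by
  have h4 : v.valuation K ((a' ^ 2 + a' * b' + b' ^ 2 : 𝓞 K) : K) < 1 := by
    rw [HeightOneSpectrum.valuation_lt_one_iff_mem]
    exact hq
  have h5 : v.valuation K ((a' : 𝓞 K) : K) = 1 := by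
    refine le_antisymm (v.valuation_le_one a') ?_
    by_contra h6
    exact hn ((HeightOneSpectrum.valuation_lt_one_iff_mem (K := K) v a').mp (not_le.mp h6))
  have h6 : ((a' ^ 2 + a' * b' + b' ^ 2 : 𝓞 K) : K) = l ^ 2 * (a ^ 2 + a * b + b ^ 2) := by
    have h8 : ((a' ^ 2 + a' * b' + b' ^ 2 : 𝓞 K) : K)
        = (a' : K) ^ 2 + (a' : K) * (b' : K) + (b' : K) ^ 2 := by
      simp only [map_add, map_mul, map_pow]
    rw [h8, ea, eb]
    ring
  have h7 : v.valuation K (l ^ 2) * v.valuation K (a ^ 2) = 1 := by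
    rw [← map_mul, ← mul_pow, ← ea, map_pow, h5, one_pow]
  rw [h6, map_mul, ← h7] at h4
  exact lt_of_mul_lt_mul_left' h4

/-- the number `s` of the places not dividing `a b c`, and the consequences of the symmetry -/
theorem fin_all (hC : Cond (Module.finrank ℚ K) p) (a b c : K) (ha : a ≠ 0) (hb : b ≠ 0)
    (hc : c ≠ 0) (h : a ^ p + b ^ p + c ^ p = 0) :
    ∃ s : ℕ, s + nu K p a b c + nu K p b c a + nu K p c a b = Module.finrank ℚ K ∧
      (Odd s → p ^ 2 ∣ 2 ^ (p - 1) - 1 ∧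
        ∃ v₁ v₂ v₃ : HeightOneSpectrum (𝓞 K), v₁ ≠ v₂ ∧ v₂ ≠ v₃ ∧ v₃ ≠ v₁ ∧
          ∀ v : HeightOneSpectrum (𝓞 K), v = v₁ ∨ v = v₂ ∨ v = v₃ →
            (p : 𝓞 K) ∈ v.asIdeal ∧ v.valuation K a = v.valuation K b ∧
            v.valuation K b = v.valuation K c) ∧
      (¬ 3 ∣ s → ∃ v : HeightOneSpectrum (𝓞 K), (p : 𝓞 K) ∈ v.asIdeal ∧
        v.valuation K a = v.valuation K b ∧ v.valuation K b = v.valuation K c ∧
        v.valuation K (a ^ 2 + a * b + b ^ 2) < v.valuation K (a ^ 2) ∧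
        (p % 3 = 2 → Even (v.asIdeal.inertiaDeg ℤ)) ∧
        (p % 3 = 1 → ∃ v' : HeightOneSpectrum (𝓞 K), v' ≠ v ∧ (p : 𝓞 K) ∈ v'.asIdeal ∧
          v'.valuation K a = v'.valuation K b ∧ v'.valuation K b = v'.valuation K c ∧
          v'.valuation K (a ^ 2 + a * b + b ^ 2) < v'.valuation K (a ^ 2))) ∧
      (s ≤ 5 → ¬ p ^ 2 ∣ 2 ^ (p - 1) - 1 →
        ∀ v : HeightOneSpectrum (𝓞 K), (p : 𝓞 K) ∈ v.asIdeal →
          v.valuation K a = v.valuation K b → v.valuation K b = v.valuation K c →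
          v.valuation K (a ^ 2 + a * b + b ^ 2) < v.valuation K (a ^ 2)) := by
  obtain ⟨s, hs, hodd⟩ := fin_parity hC a b c ha hb hc h
  refine ⟨s, hs, hodd, ?_, ?_⟩
  · intro h3
    obtain ⟨l, a', b', c', hl, ea, eb, ec, hF, hcp, -⟩ := exists_norm K p p a b c ha hb hc h
    have hs' : s + mm K p a' + mm K p b' + mm K p c' = Module.finrank ℚ K := by
      rw [← nu_eq_mm hl ea eb ec hcp, ← nu_eq_mm hl eb ec ea hcp.rot,
        ← nu_eq_mm hl ec ea eb hcp.rot.rot]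
      exact hs
    have hp0 : (p : 𝓞 K) ≠ 0 := Nat.cast_ne_zero.mpr (Fact.out : p.Prime).ne_zero
    obtain ⟨P, hP, hpP, hn, hq, he, hex⟩ := main_omega hC hF hcp s h3 hs'
    have hne : P ≠ ⊥ := by
      rintro rfl
      exact hp0 (Ideal.mem_bot.mp hpP)
    have k1 := val_eq_of_ideal hl ea eb ec ⟨P, hP, hne⟩ hn
    refine ⟨⟨P, hP, hne⟩, hpP, k1.1, k1.2, val_quad ea eb ⟨P, hP, hne⟩ hn.1 hq, he, ?_⟩
    intro hp1
    obtain ⟨P', hPP, hP', hpP', hn', hq'⟩ := hex hp1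
    have hne' : P' ≠ ⊥ := by
      rintro rfl
      exact hp0 (Ideal.mem_bot.mp hpP')
    have k2 := val_eq_of_ideal hl ea eb ec ⟨P', hP', hne'⟩ hn'
    refine ⟨⟨P', hP', hne'⟩, ?_, hpP', k2.1, k2.2, val_quad ea eb ⟨P', hP', hne'⟩ hn'.1 hq'⟩
    intro h0
    exact hPP (congrArg HeightOneSpectrum.asIdeal h0)
  · intro h5 hW v hv h1 h2
    obtain ⟨l, a', b', c', hl, ea, eb, ec, hF, hcp, -⟩ := exists_norm K p p a b c ha hb hc h
    have hs' : s + mm K p a' + mm K p b' + mm K p c' = Module.finrank ℚ K := by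
      rw [← nu_eq_mm hl ea eb ec hcp, ← nu_eq_mm hl eb ec ea hcp.rot,
        ← nu_eq_mm hl ec ea eb hcp.rot.rot]
      exact hs
    obtain ⟨n1, n2, n3⟩ := ideal_of_val_eq ha hb hc h hl ea eb ec hcp v hv h1 h2
    exact val_quad ea eb v n1
      (main_five' hC hW hF hcp s h5 hs' v.asIdeal v.isPrime hv n1 n2 n3)

/-- all residue fields above `2` have two elements -/
theorem fin_split (hC : Cond (Module.finrank ℚ K) p) (hW : ¬ p ^ 2 ∣ 2 ^ (p - 1) - 1)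
    (h3 : ¬ 3 ∣ Module.finrank ℚ K)
    (h2 : ∀ v : HeightOneSpectrum (𝓞 K), (2 : 𝓞 K) ∈ v.asIdeal → Nat.card (𝓞 K ⧸ v.asIdeal) = 2)
    (a b c : K) (ha : a ≠ 0) (hb : b ≠ 0) (hc : c ≠ 0) (h : a ^ p + b ^ p + c ^ p = 0)
    (hfc : ∀ v : HeightOneSpectrum (𝓞 K), (p : 𝓞 K) ∈ v.asIdeal →
      v.valuation K a = v.valuation K b ∧ v.valuation K b = v.valuation K c) : False := by
  have hf2 : Fact (Nat.Prime 2) := ⟨Nat.prime_two⟩
  obtain ⟨l, a', b', c', hl, ea, eb, ec, hF, hcp, hc2⟩ := exists_norm K p 2 a b c ha hb hc h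
  refine main_split hC hW h3 ?_ hF hcp hc2 ?_
  · intro P hP h2P
    have hne : P ≠ ⊥ := by
      rintro rfl
      rw [Ideal.mem_bot, Nat.cast_eq_zero] at h2P
      omega
    exact h2 ⟨P, hP, hne⟩ (by simpa using h2P)
  · intro P hP hpP
    have hne : P ≠ ⊥ := by
      rintro rfl
      rw [Ideal.mem_bot, Nat.cast_eq_zero] at hpP
      exact (Fact.out : p.Prime).ne_zero hpP
    have k := hfc ⟨P, hP, hne⟩ hpP
    exact ideal_of_val_eq ha hb hc h hl ea eb ec hcp ⟨P, hP, hne⟩ hpP k.1 k.2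

/-- exactly one prime above `2`, with residue field of two elements (`2` totally ramified) -/
theorem fin_tot (hC : Cond (Module.finrank ℚ K) p) (hW : ¬ p ^ 2 ∣ 2 ^ (p - 1) - 1)
    (h2 : ∀ v : HeightOneSpectrum (𝓞 K), (2 : 𝓞 K) ∈ v.asIdeal → Nat.card (𝓞 K ⧸ v.asIdeal) = 2)
    (h1 : ∀ v v' : HeightOneSpectrum (𝓞 K), (2 : 𝓞 K) ∈ v.asIdeal → (2 : 𝓞 K) ∈ v'.asIdeal →
      v = v')
    (a b c : K) (ha : a ≠ 0) (hb : b ≠ 0) (hc : c ≠ 0) (h : a ^ p + b ^ p + c ^ p = 0) :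
    ∃ x y z : K, ((x = a ∧ y = b ∧ z = c) ∨ (x = b ∧ y = c ∧ z = a) ∨ (x = c ∧ y = a ∧ z = b)) ∧
      ∀ v : HeightOneSpectrum (𝓞 K), ((2 : 𝓞 K) ∈ v.asIdeal ∨ (p : 𝓞 K) ∈ v.asIdeal) →
        Dv v x y z := by
  have hf2 : Fact (Nat.Prime 2) := ⟨Nat.prime_two⟩
  have h5 := five_le hC
  obtain ⟨l, a', b', c', hl, ea, eb, ec, hF, hcp, hc2⟩ := exists_norm K p 2 a b c ha hb hc h
  have hrot : b ^ p + c ^ p + a ^ p = 0 := by rw [← h]; ring
  have hrot2 : c ^ p + a ^ p + b ^ p = 0 := by rw [← h]; ring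
  have hW2 : ¬ p ^ 2 ∣ 2 ^ (p - 1) - 1 := hW
  -- a prime above 2
  obtain ⟨v₀, hv₀⟩ : ∃ v₀ : HeightOneSpectrum (𝓞 K), (2 : 𝓞 K) ∈ v₀.asIdeal := by
    have hnu : ¬ IsUnit (2 : 𝓞 K) := by
      intro hu
      have h3 := hu.map (Algebra.norm ℤ)
      have h4 : Algebra.norm ℤ (2 : 𝓞 K) = 2 ^ Module.finrank ℤ (𝓞 K) := by
        have := Algebra.norm_algebraMap (R := ℤ) (S := 𝓞 K) 2
        simpa using this
      rw [h4, RingOfIntegers.rank] at h3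
      have h6 : IsUnit (2 : ℤ) := (isUnit_pow_iff (Module.finrank_pos (R := ℚ) (M := K)).ne').mp h3
      rw [Int.isUnit_iff] at h6
      omega
    obtain ⟨M, hM, h2M⟩ := exists_max_ideal_of_mem_nonunits hnu
    refine ⟨⟨M, hM.isPrime, ?_⟩, h2M⟩
    rintro rfl
    exact two_ne_zero (Ideal.mem_bot.mp h2M)
  have hv₀' : ((2 : ℕ) : 𝓞 K) ∈ v₀.asIdeal := by simpa using hv₀
  have hall : ∀ v : HeightOneSpectrum (𝓞 K), ((2 : ℕ) : 𝓞 K) ∈ v.asIdeal → v = v₀ := fun v hv =>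
    h1 v v₀ (by simpa using hv) hv₀
  rcases res_two hF v₀.asIdeal v₀.isPrime (h2 v₀ hv₀) with h3 | h3 | h3
  · have hd : ∀ v : HeightOneSpectrum (𝓞 K), ((2 : ℕ) : 𝓞 K) ∈ v.asIdeal → Dv v a b c := by
      intro v hv
      rw [hall v hv]
      exact (dv_iff hl ea eb ec hc2 v₀ hv₀').mpr h3
    refine ⟨a, b, c, Or.inl ⟨rfl, rfl, rfl⟩, ?_⟩
    rintro v (hv | hv)
    · exact hd v (by simpa using hv)
    · exact fin_furt hC 2 (by omega) hW2 a b c ha hb hc h hd v hv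
  · have hd : ∀ v : HeightOneSpectrum (𝓞 K), ((2 : ℕ) : 𝓞 K) ∈ v.asIdeal → Dv v b c a := by
      intro v hv
      rw [hall v hv]
      exact (dv_iff hl eb ec ea hc2.rot v₀ hv₀').mpr h3
    refine ⟨b, c, a, Or.inr (Or.inl ⟨rfl, rfl, rfl⟩), ?_⟩
    rintro v (hv | hv)
    · exact hd v (by simpa using hv)
    · exact fin_furt hC 2 (by omega) hW2 b c a hb hc ha hrot hd v hv
  · have hd : ∀ v : HeightOneSpectrum (𝓞 K), ((2 : ℕ) : 𝓞 K) ∈ v.asIdeal → Dv v c a b := by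
      intro v hv
      rw [hall v hv]
      exact (dv_iff hl ec ea eb hc2.rot.rot v₀ hv₀').mpr h3
    refine ⟨c, a, b, Or.inr (Or.inr ⟨rfl, rfl, rfl⟩), ?_⟩
    rintro v (hv | hv)
    · exact hd v (by simpa using hv)
    · exact fin_furt hC 2 (by omega) hW2 c a b hc ha hb hrot2 hd v hv

end

end H45KC
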