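import Pool.Agent.H45.KC.KMain

/-!
# KC, module KIdx: Kummer's relations index by index

`fl p i s = ∑_{0<k<p} s^k / k^i`.  For a normalised solution (`FSol`, no one of `a, b, c` in a prime
above `p`, that is `ψ_k c ≠ 0` for a reduction family `ψ`) and every even `i`, `2 ≤ i ≤ p - 3`, with
`p ∤ B_i`:  `∑_k fl p i s_k / (1 - s_k ^ p) = 0`, `s_k = - ψ_k b / ψ_k a`.  Also `fl p 1 s_k = 0`.
-/

open Polynomial NumberField H9FC

namespace H45KC

/-- the finite polylogarithm `∑_{0<k<p} s^k / k^i` -/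
noncomputable def fl {Ω : Type*} [Field Ω] (p i : ℕ) (s : Ω) : Ω :=
  ∑ k ∈ Finset.Ioo 0 p, s ^ k / (k : Ω) ^ i

section DLlin
variable {Ω : Type*} [Field Ω]

private theorem KIdx_th_sub (f g : Polynomial Ω) : th (f - g) = th f - th g := by
  simp [th, mul_sub]

private theorem KIdx_th_neg (f : Polynomial Ω) : th (-f) = - th f := by
  simp [th]

private theorem KIdx_th_pow (f : Polynomial Ω) (n : ℕ) :
    th (f ^ (n + 1)) = ((n + 1 : ℕ) : Polynomial Ω) * f ^ n * th f := by
  rw [th, derivative_pow, th, C_eq_natCast]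
  simp only [Nat.add_sub_cancel]
  ring

/-- the sum `∑_{k=1}^{p} s^k X^k` -/
private noncomputable def AA (p : ℕ) (s : Ω) : Polynomial Ω :=
  ∑ k ∈ Finset.range p, C (s ^ (k + 1)) * X ^ (k + 1)

private theorem KIdx_geom (p : ℕ) (s : Ω) :
    (1 - C s * X) * AA p s = C s * X * (1 - C (s ^ p) * X ^ p) := by
  induction p with
  | zero => simp [AA]
  | succ p ih =>
    have h1 : AA (p + 1) s = AA p s + C (s ^ (p + 1)) * X ^ (p + 1) := by
      rw [AA, Finset.sum_range_succ]
      rfl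
    rw [h1, mul_add, ih]
    simp only [C_pow]
    ring

private theorem KIdx_th_iter (p : ℕ) (s : Ω) (n : ℕ) :
    th^[n] (AA p s) = ∑ k ∈ Finset.range p, C (((k + 1 : ℕ) : Ω) ^ n * s ^ (k + 1)) * X ^ (k + 1) := by
  induction n with
  | zero => simp [AA]
  | succ n ih =>
    rw [Function.iterate_succ_apply', ih, th, derivative_sum, Finset.mul_sum]
    refine Finset.sum_congr rfl fun k _ => ?_
    rw [derivative_C_mul, derivative_X_pow]
    simp only [Nat.add_sub_cancel, map_mul, map_pow, C_eq_natCast]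
    ring

variable (p : ℕ) [Fact p.Prime] [CharP Ω p]

private theorem KIdx_D (s : Ω) : (1 - C (s ^ p) * X ^ p : Polynomial Ω) = (1 - C s * X) ^ p := by
  rw [sub_pow_char, one_pow, mul_pow, C_pow]

private theorem KIdx_th_D (s : Ω) : th (1 - C (s ^ p) * X ^ p : Polynomial Ω) = 0 := by
  rw [th]
  have : derivative (1 - C (s ^ p) * X ^ p : Polynomial Ω) = 0 := by
    rw [derivative_sub, derivative_one, derivative_C_mul, derivative_X_pow]
    simp
  rw [this, mul_zero]

private theorem KIdx_Nm (s : Ω) (n : ℕ) :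
    Nm (1 - C s * X) n * (1 - C (s ^ p) * X ^ p) = - ((1 - C s * X) ^ (n + 1) * th^[n] (AA p s)) := by
  have hthG : th (1 - C s * X : Polynomial Ω) = - (C s * X) := by
    rw [th]
    simp
  induction n with
  | zero =>
    rw [Nm, hthG, Function.iterate_zero_apply, zero_add, pow_one, KIdx_geom p s]
    ring
  | succ n ih =>
    have h1 : th (Nm (1 - C s * X) n) * (1 - C (s ^ p) * X ^ p : Polynomial Ω)
        = - (((n + 1 : ℕ) : Polynomial Ω) * (1 - C s * X) ^ n * th (1 - C s * X) * th^[n] (AA p s)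
          + (1 - C s * X) ^ (n + 1) * th^[n + 1] (AA p s)) := by
      have h2 := congrArg th ih
      rw [th_mul, KIdx_th_D, mul_zero, add_zero, KIdx_th_neg, th_mul, KIdx_th_pow] at h2
      rw [h2, Function.iterate_succ_apply']
    rw [Nm]
    have h3 : ((1 - C s * X) * th (Nm (1 - C s * X) n)
          - ((n + 1 : ℕ) : Polynomial Ω) * Nm (1 - C s * X) n * th (1 - C s * X)) * (1 - C (s ^ p) * X ^ p)
        = (1 - C s * X) * (th (Nm (1 - C s * X) n) * (1 - C (s ^ p) * X ^ p : Polynomial Ω))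
          - ((n + 1 : ℕ) : Polynomial Ω) * th (1 - C s * X)
            * (Nm (1 - C s * X) n * (1 - C (s ^ p) * X ^ p)) := by ring
    rw [h3, h1, ih]
    ring

/-- the logarithmic derivatives of `1 - s X` -/
theorem DL_lin (s : Ω) (hs : s ≠ 1) (j : ℕ) (hj : 2 ≤ j) :
    DL j (1 - C s * X) = - (∑ k ∈ Finset.Ioo 0 p, (k : Ω) ^ (j - 1) * s ^ k) / (1 - s ^ p) := by
  have hp : p.Prime := Fact.out
  obtain ⟨n, rfl⟩ : ∃ n, j = n + 1 + 1 := ⟨j - 2, by omega⟩
  have h1s : (1 : Ω) - s ≠ 0 := sub_ne_zero.mpr (Ne.symm hs)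
  have hD : (1 : Ω) - s ^ p ≠ 0 := by
    have : (1 : Ω) - s ^ p = (1 - s) ^ p := by rw [sub_pow_char, one_pow]
    rw [this]
    exact pow_ne_zero _ h1s
  have h1 := congrArg (eval 1) (KIdx_Nm p s (n + 1))
  rw [KIdx_th_iter] at h1
  simp only [eval_mul, eval_sub, eval_one, eval_C, eval_pow, eval_X, one_pow, mul_one, eval_neg,
    eval_finset_sum] at h1
  have h2 : ∑ k ∈ Finset.range p, ((k + 1 : ℕ) : Ω) ^ (n + 1) * s ^ (k + 1)
      = ∑ k ∈ Finset.Ioo 0 p, (k : Ω) ^ (n + 1) * s ^ k := by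
    obtain ⟨q, rfl⟩ : ∃ q, p = q + 1 := ⟨p - 1, by have := hp.one_le; omega⟩
    rw [Finset.sum_range_succ]
    have h3 : ((q + 1 : ℕ) : Ω) = 0 := CharP.cast_eq_zero Ω (q + 1)
    rw [h3, zero_pow (by omega), zero_mul, add_zero]
    have h4 : Finset.Ioo 0 (q + 1) = (Finset.range q).image (fun k => k + 1) := by
      ext k
      simp only [Finset.mem_Ioo, Finset.mem_image, Finset.mem_range]
      constructor
      · rintro ⟨hk1, hk2⟩
        exact ⟨k - 1, by omega, by omega⟩
      · rintro ⟨m, hm, rfl⟩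
        omega
    rw [h4, Finset.sum_image (fun x _ y _ h => by simpa using h)]
  rw [h2] at h1
  rw [DL, Nat.add_sub_cancel]
  have h5 : (1 - C s * X : Polynomial Ω).eval 1 = 1 - s := by simp
  rw [h5, div_eq_div_iff (pow_ne_zero _ h1s) hD, h1]
  ring

theorem Nm_map {k : Type*} [Field k] (f : k →+* Ω) (G : k[X]) (n : ℕ) :
    (Nm G n).map f = Nm (G.map f) n := by
  induction n with
  | zero => simp [Nm, th, derivative_map]
  | succ n ih =>
    rw [Nm, Nm, ← ih]
    simp only [th, Polynomial.map_sub, Polynomial.map_mul, map_X, derivative_map,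
      Polynomial.map_natCast]

omit [Fact p.Prime] [CharP Ω p] in
theorem DL_map {k : Type*} [Field k] (f : k →+* Ω) (G : k[X]) (j : ℕ) :
    DL j (G.map f) = f (DL j G) := by
  rw [DL, DL, ← Nm_map, map_div₀, map_pow]
  have h : ∀ H : k[X], (H.map f).eval 1 = f (H.eval 1) := by
    intro H
    have := eval_map_apply (f := f) (p := H) 1
    rwa [map_one] at this
  rw [h, h]

end DLlin

section
variable {K : Type*} [Field K] [NumberField K] {p : ℕ} [Fact p.Prime]

/-- `fl p 1 s = 0` at every place -/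
theorem fl_one (hp2 : p ≠ 2) (hd : Module.finrank ℚ K < p) {a b c : 𝓞 K} (h : FSol K p a b c)
    {Ω : Type*} [Field Ω] [CharP Ω p] (ψ : 𝓞 K →+* Ω) (ha : ψ a ≠ 0) :
    fl p 1 (- ψ b / ψ a) = 0 := by
  have hpp : p.Prime := Fact.out
  set E : ℤ[X] := ∑ k ∈ Finset.Ioo 0 p, X ^ k * ((p.choose k / p : ℕ) : ℤ[X]) with hEdef
  have hE : C (p : ℤ) * E = (X + 1) ^ p - X ^ p - 1 := by
    rw [add_pow, Finset.sum_range_succ, hEdef, Finset.mul_sum]
    obtain ⟨q, hq⟩ : ∃ q, p = q + 1 := ⟨p - 1, by have := hpp.one_le; omega⟩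
    have h1 : ∑ x ∈ Finset.range p, (X : ℤ[X]) ^ x * 1 ^ (p - x) * (p.choose x : ℤ[X])
        = 1 + ∑ k ∈ Finset.Ioo 0 p, (X : ℤ[X]) ^ k * (p.choose k : ℤ[X]) := by
      have h2 : Finset.range p = insert 0 (Finset.Ioo 0 p) := by
        ext k
        simp only [Finset.mem_range, Finset.mem_insert, Finset.mem_Ioo]
        have := hpp.pos
        omega
      rw [h2, Finset.sum_insert (by simp)]
      simp
    rw [h1]
    have h3 : ∀ k ∈ Finset.Ioo 0 p, C (p : ℤ) * ((X : ℤ[X]) ^ k * ((p.choose k / p : ℕ) : ℤ[X]))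
        = (X : ℤ[X]) ^ k * (p.choose k : ℤ[X]) := by
      intro k hk
      rw [Finset.mem_Ioo] at hk
      have h4 : p ∣ p.choose k := hpp.dvd_choose_self (by omega) hk.2
      have h5 : (p.choose k : ℤ[X]) = (p : ℤ[X]) * ((p.choose k / p : ℕ) : ℤ[X]) := by
        rw [← Nat.cast_mul, Nat.mul_div_cancel' h4]
      have h6 : C (p : ℤ) = (p : ℤ[X]) := by simp
      rw [h5, h6]
      ring
    rw [Finset.sum_congr rfl h3]
    simp
  have h1 := loc_cm hp2 hd h ψ ha E hE
  rw [hEdef, map_sum] at h1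
  have h2 : ∀ k ∈ Finset.Ioo 0 p, aeval (ψ b / ψ a) ((X : ℤ[X]) ^ k * ((p.choose k / p : ℕ) : ℤ[X]))
      = - ((- ψ b / ψ a) ^ k / (k : Ω) ^ 1) := by
    intro k hk
    rw [Finset.mem_Ioo] at hk
    rw [map_mul, map_pow, aeval_X, map_natCast, pow_one]
    have hk0 : (k : Ω) ≠ 0 := by
      intro h0
      rw [CharP.cast_eq_zero_iff Ω p] at h0
      exact absurd (Nat.le_of_dvd hk.1 h0) (by omega)
    -- `k * (C(p,k)/p) = C(p-1,k-1) ≡ (-1)^(k-1)`
    have h4 : p ∣ p.choose k := hpp.dvd_choose_self (by omega) hk.2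
    have h5 : k * (p.choose k / p) = (p - 1).choose (k - 1) := by
      obtain ⟨m, hm⟩ : ∃ m, k = m + 1 := ⟨k - 1, by omega⟩
      obtain ⟨q, hq⟩ : ∃ q, p = q + 1 := ⟨p - 1, by have := hpp.one_le; omega⟩
      have h6 : (q + 1) * q.choose m = (q + 1).choose (m + 1) * (m + 1) := Nat.add_one_mul_choose_eq q m
      have h7 : p * (k * (p.choose k / p)) = p * ((p - 1).choose (k - 1)) := by
        have h8 : p * (p.choose k / p) = p.choose k := Nat.mul_div_cancel' h4
        calc p * (k * (p.choose k / p)) = (p * (p.choose k / p)) * k := by ring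
          _ = p.choose k * k := by rw [h8]
          _ = p * ((p - 1).choose (k - 1)) := by
            rw [hq, hm, Nat.add_sub_cancel, Nat.add_sub_cancel, ← h6]
      exact Nat.eq_of_mul_eq_mul_left hpp.pos h7
    have h9 : ((p - 1).choose (k - 1) : Ω) = (-1) ^ (k - 1) := by
      have h10 : ∀ m, m ≤ p - 1 → ((p - 1).choose m : Ω) = (-1) ^ m := by
        intro m
        induction m with
        | zero => intro _; simp
        | succ m ih =>
          intro hm
          have h11 := Nat.choose_succ_right_eq (p - 1) m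
          have hm0 : ((m + 1 : ℕ) : Ω) ≠ 0 := by
            intro h0
            rw [CharP.cast_eq_zero_iff Ω p] at h0
            exact absurd (Nat.le_of_dvd (by omega) h0) (by have := hpp.one_le; omega)
          have h12 : (((p - 1).choose (m + 1) : ℕ) : Ω) * ((m + 1 : ℕ) : Ω)
              = (((p - 1).choose m : ℕ) : Ω) * ((p - 1 - m : ℕ) : Ω) := by
            exact_mod_cast congrArg (fun x : ℕ => (x : Ω)) h11
          have h13 : ((p - 1 - m : ℕ) : Ω) = - ((m + 1 : ℕ) : Ω) := by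
            have h14 : ((p - 1 - m : ℕ) : Ω) + ((m + 1 : ℕ) : Ω) = 0 := by
              rw [← Nat.cast_add]
              have h15 : p - 1 - m + (m + 1) = p := by have := hpp.one_le; omega
              rw [h15]
              exact CharP.cast_eq_zero Ω p
            linear_combination h14
          rw [ih (by omega), h13] at h12
          have h16 : (((p - 1).choose (m + 1) : ℕ) : Ω) = - (-1) ^ m := by
            apply mul_right_cancel₀ hm0
            rw [h12]
            ring
          rw [h16, pow_succ]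
          ring
      exact h10 (k - 1) (by omega)
    have h17 : (k : Ω) * ((p.choose k / p : ℕ) : Ω) = (-1) ^ (k - 1) := by
      rw [← h9, ← h5]
      push_cast
      ring
    have h18 : ((p.choose k / p : ℕ) : Ω) = (-1) ^ (k - 1) / (k : Ω) := by
      rw [eq_div_iff hk0, ← h17]
      ring
    rw [h18]
    obtain ⟨m, hm⟩ : ∃ m, k = m + 1 := ⟨k - 1, by omega⟩
    rw [hm, Nat.add_sub_cancel, neg_div, neg_pow (ψ b / ψ a) (m + 1), pow_succ (-1 : Ω) m]
    ring
  rw [Finset.sum_congr rfl h2, Finset.sum_neg_distrib, neg_eq_zero] at h1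
  exact h1

/-- Kummer's relation of index `i` -/
theorem kummer_index (hp2 : p ≠ 2) (hd : Module.finrank ℚ K < p) {a b c : 𝓞 K}
    (h : FSol K p a b c) {Ω : Type*} [Field Ω] [CharP Ω p]
    {ψ : Fin (Module.finrank ℚ K) → (𝓞 K →+* Ω)} (hψ : IsRedFam ψ)
    (ha : ∀ k, ψ k a ≠ 0) (hc : ∀ k, ψ k c ≠ 0) (i : ℕ) (hi : Even i) (hi2 : 2 ≤ i)
    (hip : i + 3 ≤ p) (hB : ¬ (p : ℤ) ∣ (_root_.bernoulli i).num) :
    ∑ k, fl p i (- ψ k b / ψ k a) / (1 - (- ψ k b / ψ k a) ^ p) = 0 := by
  have hpp : p.Prime := Fact.out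
  have hodd : Odd p := hpp.odd_of_ne_two hp2
  obtain ⟨j, hj⟩ : ∃ j, p = i + j := ⟨p - i, by omega⟩
  have hjodd : Odd j := by
    rcases Nat.even_or_odd j with he | ho
    · exfalso
      have : Even p := by rw [hj]; exact hi.add he
      exact (Nat.not_even_iff_odd.mpr hodd) this
    · exact ho
  have hj3 : 3 ≤ j := by omega
  have : IsCyclotomicExtension {p} ℚ (CyclotomicField p ℚ) :=
    CyclotomicField.isCyclotomicExtension p ℚ
  obtain ⟨ζ, hζ⟩ : ∃ ζ : 𝓞 (CyclotomicField p ℚ), IsPrimitiveRoot ζ p :=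
    ⟨_, (IsCyclotomicExtension.zeta_spec p ℚ (CyclotomicField p ℚ)).toInteger_isPrimitiveRoot⟩
  have hI := (exists_pow_ideal K p hp2 hd a b c h (CyclotomicField p ℚ) hζ).2
  obtain ⟨g, hg⟩ : ∃ g : ZMod p →+* Ω, g = ZMod.castHom (dvd_refl p) Ω := ⟨_, rfl⟩
  have hgg : g.comp (Int.castRingHom (ZMod p)) = Int.castRingHom Ω := RingHom.ext_int _ _
  have hfac := hψ a b
  -- the value at `1`
  have hlin : ∀ k, (C (ψ k a) + X * C (ψ k b) : Polynomial Ω)
      = C (ψ k a) * (1 - C (- ψ k b / ψ k a) * X) := by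
    intro k
    have h1 : C (ψ k a) * C (- ψ k b / ψ k a) = - C (ψ k b) := by
      rw [← C_mul, mul_div_cancel₀ _ (ha k), C_neg]
    linear_combination X * h1
  have hs1 : ∀ k, - ψ k b / ψ k a ≠ 1 := by
    intro k h1
    rw [div_eq_iff (ha k), one_mul] at h1
    apply hc k
    have h2 := fsol_hom h (ψ k)
    rw [← h1] at h2
    linear_combination h2
  have hF1 : ((nf K a b).map (Int.castRingHom Ω)).eval 1 ≠ 0 := by
    rw [hfac, eval_prod]
    refine Finset.prod_ne_zero_iff.mpr fun k _ => ?_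
    simp only [eval_add, eval_C, eval_mul, eval_X, one_mul]
    intro h0
    apply hc k
    have h2 := fsol_hom h (ψ k)
    linear_combination h2 - h0
  have hP1 : ¬ (p : ℤ) ∣ (nf K a b).eval 1 := by
    intro h0
    apply hF1
    rw [eval_map, eval₂_at_one]
    exact (CharP.intCast_eq_zero_iff Ω p _).2 h0
  have hk := kdl p (CyclotomicField p ℚ) hζ (nf K a b) (nf K a b) 0 (by simp) hP1 hI j hjodd hj3
    (by omega) (by
      have : p - j = i := by omega
      rwa [this])
  have hk2 : DL j ((nf K a b).map (Int.castRingHom Ω)) = 0 := by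
    rw [← hgg, ← Polynomial.map_map, DL_map, hk, map_zero]
  rw [hfac, Finset.prod_congr rfl (fun k _ => hlin k)] at hk2
  have h1 : ∏ k, (C (ψ k a) * (1 - C (- ψ k b / ψ k a) * X))
      = ∏ k, (C (ψ k a) * (1 - C (- ψ k b / ψ k a) * X)) ^ 1 := by simp
  rw [h1, DL_prod j (by omega) Finset.univ _ (fun _ => 1) (by
    intro k _
    simp only [eval_mul, eval_C, eval_sub, eval_one, eval_X, mul_one]
    exact mul_ne_zero (ha k) (sub_ne_zero.mpr (Ne.symm (hs1 k))))] at hk2
  have h2 : ∀ k, ((1 : ℕ) : Ω) * DL j (C (ψ k a) * (1 - C (- ψ k b / ψ k a) * X))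
      = - (fl p i (- ψ k b / ψ k a) / (1 - (- ψ k b / ψ k a) ^ p)) := by
    intro k
    rw [DL_mul j (by omega) _ _ (by simpa using ha k) (by
      simp only [eval_mul, eval_C, eval_sub, eval_one, eval_X, mul_one]
      exact sub_ne_zero.mpr (Ne.symm (hs1 k))), DL_C j (by omega), zero_add,
      DL_lin p _ (hs1 k) j (by omega)]
    have h3 : ∑ m ∈ Finset.Ioo 0 p, (m : Ω) ^ (j - 1) * (- ψ k b / ψ k a) ^ m
        = fl p i (- ψ k b / ψ k a) := by
      rw [fl]
      refine Finset.sum_congr rfl fun m hm => ?_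
      rw [Finset.mem_Ioo] at hm
      have hm0 : (m : Ω) ≠ 0 := by
        intro h0
        rw [CharP.cast_eq_zero_iff Ω p] at h0
        exact absurd (Nat.le_of_dvd hm.1 h0) (by omega)
      have hm1 : (m : Ω) ^ (p - 1) = 1 := by
        have h4 : ((m : ZMod p)) ^ (p - 1) = 1 := by
          apply ZMod.pow_card_sub_one_eq_one
          intro h0
          rw [ZMod.natCast_eq_zero_iff] at h0
          exact absurd (Nat.le_of_dvd hm.1 h0) (by omega)
        have h5 := congrArg g h4
        rwa [map_pow, map_natCast, map_one] at h5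
      rw [eq_div_iff (pow_ne_zero _ hm0)]
      have h6 : (m : Ω) ^ (j - 1) * (m : Ω) ^ i = 1 := by
        rw [← pow_add, ← hm1]
        congr 1
        omega
      linear_combination (- ψ k b / ψ k a) ^ m * h6
    rw [h3]
    simp
    ring
  rw [Finset.sum_congr rfl (fun k _ => h2 k), Finset.sum_neg_distrib, neg_eq_zero] at hk2
  exact hk2

end

end H45KC
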