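import Pool.Agent.H45.KC.KIdx
import Pool.Agent.H10.CQ.Defs

/-!
# KC, module KKum: the fields `kum` and `l1` of `H10CQ.Dat` for a first case solution
-/

open NumberField H9FC

namespace H45KC

theorem el_eq_fl (p : ℕ) [Fact p.Prime] {Ω : Type*} [Field Ω] [CharP Ω p] (i : ℕ) (hi : i + 1 ≤ p)
    (s : Ω) : H10CQ.el p i s = fl p i s := by
  have hp : p.Prime := Fact.out
  have h1 : Finset.Icc 1 (p - 1) = Finset.Ioo 0 p := by
    ext k
    simp only [Finset.mem_Icc, Finset.mem_Ioo]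
    have := hp.one_le
    omega
  rw [H10CQ.el, fl, h1]
  refine Finset.sum_congr rfl fun m hm => ?_
  rw [Finset.mem_Ioo] at hm
  have hm0 : (m : Ω) ≠ 0 := by
    intro h0
    rw [CharP.cast_eq_zero_iff Ω p] at h0
    exact absurd (Nat.le_of_dvd hm.1 h0) (by omega)
  have hm1 : (m : Ω) ^ (p - 1) = 1 := by
    have h4 : ((m : ZMod p)) ^ (p - 1) = 1 := by
      apply ZMod.pow_card_sub_one_eq_one
      intro h0
      rw [ZMod.natCast_eq_zero_iff] at h0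
      exact absurd (Nat.le_of_dvd hm.1 h0) (by omega)
    have h5 := congrArg (ZMod.castHom (dvd_refl p) Ω) h4
    rwa [map_pow, map_natCast, map_one] at h5
  rw [eq_div_iff (pow_ne_zero _ hm0)]
  have h6 : (m : Ω) ^ (p - 1 - i) * (m : Ω) ^ i = 1 := by
    rw [← pow_add, ← hm1]
    congr 1
    omega
  linear_combination s ^ m * h6

/-- the field `kum` of `H10CQ.Dat` -/
theorem dat_kum {K : Type*} [Field K] [NumberField K] {p : ℕ} [Fact p.Prime] (hp2 : p ≠ 2)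
    (hd : Module.finrank ℚ K < p) {a b c : 𝓞 K} (h : FSol K p a b c) {Ω : Type*} [Field Ω]
    [CharP Ω p] {ψ : Fin (Module.finrank ℚ K) → (𝓞 K →+* Ω)} (hψ : IsRedFam ψ)
    (ha : ∀ k, ψ k a ≠ 0) (hc : ∀ k, ψ k c ≠ 0) (i : ℕ) (hi : Even i) (hi2 : 2 ≤ i)
    (hip : i + 3 ≤ p) (hB : ¬ (p : ℤ) ∣ (_root_.bernoulli i).num) :
    ∑ k, H10CQ.el p i (- ψ k b / ψ k a) / (1 - (- ψ k b / ψ k a) ^ p) = 0 := by
  have h1 := kummer_index hp2 hd h hψ ha hc i hi hi2 hip hB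
  rw [← h1]
  refine Finset.sum_congr rfl fun k _ => ?_
  rw [el_eq_fl p i (by omega)]

/-- the field `l1` of `H10CQ.Dat` -/
theorem dat_l1 {K : Type*} [Field K] [NumberField K] {p : ℕ} [Fact p.Prime] (hp2 : p ≠ 2)
    (hd : Module.finrank ℚ K < p) {a b c : 𝓞 K} (h : FSol K p a b c) {Ω : Type*} [Field Ω]
    [CharP Ω p] (ψ : 𝓞 K →+* Ω) (ha : ψ a ≠ 0) : H10CQ.el p 1 (- ψ b / ψ a) = 0 := by
  have hp : p.Prime := Fact.out
  rw [el_eq_fl p 1 (by have := hp.two_le; omega)]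
  exact fl_one hp2 hd h ψ ha

end H45KC
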