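import Pool.Agent.H45.KC.DK

/-!
# KC, module Lin: killing the irregular components

PROOF of `lin`. The linear map `(ZMod p)^(r+1) → (ZMod p)^S`, `x ↦ (∑_i x_i (i+1)^j)_{j ∈ S}` has a
nonzero kernel vector since `|S| ≤ r` (`LinearMap.exists_ne_zero_of_finrank_lt...`,
`exists_ne_zero...`, or rank-nullity); `e_i = (x_i).val`.
PROOF of `hdiv_of_DL`. Put `A = ∏ (Q(X^(i+1)))^(2 e_i)`, `B = ∏ (Q*(X^(i+1)))^(2 e_i)`,
`Q* = Q.reflect D`, `Q*(1) = Q(1) ≠ 0` (`eval_one_reflect`-like: sum of the coefficients).  For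
`2 ≤ j ≤ n - 1` (`n ≤ p`): by `DL_prod`, `DL_comp`, `DL_reflect`:
`DL j A = ∑ 2 e_i (i+1)^j DL j Q`, `DL j B = (-1)^j ∑ 2 e_i (i+1)^j DL j Q`.  For even `j` they agree;
for odd `j` either `DL j Q = 0` or `∑ e_i (i+1)^j = 0` and both are `0`. For `j = 1` let
`s = (DL 1 A - DL 1 B).val`, `V = X^s B`: `DL 1 V = s + DL 1 B = DL 1 A`, and `DL j V = DL j B` for
`j ≥ 2`. `DL_eq_imp` with `m = n - 1`: `(X-1)^n ∣ V(1) A - A(1) V`; divide by `V(1) = B(1) ≠ 0`: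
`c = A(1)/B(1)`.  (If `n = 0` or `n = 1` the statement is easy: `s = 0`.)
-/

open Polynomial

namespace H45KC

theorem lin (p : ℕ) [Fact p.Prime] (r : ℕ) (S : Finset ℕ) (hS : S.card ≤ r) :
    ∃ e : Fin (r + 1) → ℕ, (∀ i, e i < p) ∧ (∃ i, e i ≠ 0) ∧
      ∀ j ∈ S, ∑ i, (e i : ZMod p) * ((i.val + 1 : ℕ) : ZMod p) ^ j = 0 := by
  let M : Matrix S (Fin (r + 1)) (ZMod p) :=
    Matrix.of fun j i => ((i.val + 1 : ℕ) : ZMod p) ^ (j : ℕ)
  have h1 : LinearMap.ker M.mulVecLin ≠ ⊥ := by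
    refine LinearMap.ker_ne_bot_of_finrank_lt ?_
    rw [Module.finrank_fintype_fun_eq_card, Module.finrank_fintype_fun_eq_card, Fintype.card_fin,
      Fintype.card_coe]
    omega
  obtain ⟨x, hx, hx0⟩ := Submodule.exists_mem_ne_zero_of_ne_bot h1
  refine ⟨fun i => (x i).val, fun i => ZMod.val_lt _, ?_, fun j hj => ?_⟩
  · obtain ⟨i, hi⟩ := Function.ne_iff.1 hx0
    refine ⟨i, fun h => hi ?_⟩
    exact (ZMod.val_eq_zero _).1 h
  · have h2 := congrFun (LinearMap.mem_ker.1 hx) ⟨j, hj⟩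
    rw [Matrix.mulVecLin_apply] at h2
    simp only [Matrix.mulVec, dotProduct, M, Matrix.of_apply, Pi.zero_apply] at h2
    rw [← h2]
    refine Finset.sum_congr rfl fun i _ => ?_
    rw [ZMod.natCast_zmod_val, mul_comm]

private theorem Lin_comp {p : ℕ} [Fact p.Prime] (Q : (ZMod p)[X]) (k : ℕ) :
    (Q.comp (X ^ k)).eval 1 = Q.eval 1 := by
  rw [eval_comp, eval_pow, eval_X, one_pow]

private theorem Lin_refl {p : ℕ} [Fact p.Prime] (Q : (ZMod p)[X]) (D : ℕ) (hD : Q.natDegree ≤ D) :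
    (Q.reflect D).eval 1 = Q.eval 1 := by
  obtain ⟨R, hR⟩ := reflect_congr p Q D hD
  have h := congrArg (eval 1) hR
  have hp : p ≠ 0 := (Fact.out : p.Prime).ne_zero
  rw [eval_mul, eval_pow, eval_sub, eval_sub, eval_X, eval_one, sub_self, zero_pow hp, zero_mul,
    eval_mul, eval_pow, eval_X, one_pow, one_mul, Lin_comp] at h
  exact sub_eq_zero.1 h

theorem hdiv_of_DL (p : ℕ) [Fact p.Prime] (Q : (ZMod p)[X]) (D : ℕ) (hD : Q.natDegree ≤ D)
    (hQ1 : Q.eval 1 ≠ 0) (n : ℕ) (hn : n ≤ p) (r : ℕ) (e : Fin (r + 1) → ℕ)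
    (h : ∀ j, Odd j → 3 ≤ j → j < n →
      DL j Q = 0 ∨ ∑ i, (e i : ZMod p) * ((i.val + 1 : ℕ) : ZMod p) ^ j = 0) :
    ∃ (c : ZMod p) (s : ℕ), (X - 1) ^ n ∣
      ∏ i, (Q.comp (X ^ (i.val + 1))) ^ (2 * e i)
        - C c * (X ^ s * ∏ i, ((Q.reflect D).comp (X ^ (i.val + 1))) ^ (2 * e i)) := by
  rcases Nat.eq_zero_or_pos n with hn0 | hn0
  · refine ⟨0, 0, ?_⟩
    rw [hn0, pow_zero]
    exact one_dvd _
  have hR1 : (Q.reflect D).eval 1 ≠ 0 := by rw [Lin_refl Q D hD]; exact hQ1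
  set A : (ZMod p)[X] := ∏ i, (Q.comp (X ^ (i.val + 1))) ^ (2 * e i) with hA
  set B : (ZMod p)[X] := ∏ i, ((Q.reflect D).comp (X ^ (i.val + 1))) ^ (2 * e i) with hB
  have hA1 : A.eval 1 ≠ 0 := by
    rw [hA, eval_prod]
    refine Finset.prod_ne_zero_iff.2 fun i _ => ?_
    rw [eval_pow, Lin_comp]
    exact pow_ne_zero _ hQ1
  have hB1 : B.eval 1 ≠ 0 := by
    rw [hB, eval_prod]
    refine Finset.prod_ne_zero_iff.2 fun i _ => ?_
    rw [eval_pow, Lin_comp]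
    exact pow_ne_zero _ hR1
  have hDA : ∀ j, 1 ≤ j → DL j A =
      2 * (∑ i, (e i : ZMod p) * ((i.val + 1 : ℕ) : ZMod p) ^ j) * DL j Q := by
    intro j hj
    rw [hA, DL_prod j hj _ _ _ (fun i _ => by rw [Lin_comp]; exact hQ1), Finset.mul_sum,
      Finset.sum_mul]
    refine Finset.sum_congr rfl fun i _ => ?_
    rw [DL_comp j hj]
    push_cast
    ring
  have hDB : ∀ j, 1 ≤ j → DL j B =
      2 * (∑ i, (e i : ZMod p) * ((i.val + 1 : ℕ) : ZMod p) ^ j) * DL j (Q.reflect D) := by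
    intro j hj
    rw [hB, DL_prod j hj _ _ _ (fun i _ => by rw [Lin_comp]; exact hR1), Finset.mul_sum,
      Finset.sum_mul]
    refine Finset.sum_congr rfl fun i _ => ?_
    rw [DL_comp j hj]
    push_cast
    ring
  set s : ℕ := (DL 1 A - DL 1 B).val with hs
  have hs' : (s : ZMod p) = DL 1 A - DL 1 B := ZMod.natCast_zmod_val _
  set V : (ZMod p)[X] := X ^ s * B with hV
  have hX1 : (X : (ZMod p)[X]).eval 1 ≠ 0 := by
    rw [eval_X]
    exact one_ne_zero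
  have hXs1 : ((X : (ZMod p)[X]) ^ s).eval 1 ≠ 0 := by
    rw [eval_pow, eval_X, one_pow]
    exact one_ne_zero
  have hV1 : V.eval 1 = B.eval 1 := by
    rw [hV, eval_mul, eval_pow, eval_X, one_pow, one_mul]
  have hV1' : V.eval 1 ≠ 0 := by rw [hV1]; exact hB1
  have hDV : ∀ j, 1 ≤ j → DL j V = s * DL j (X : (ZMod p)[X]) + DL j B := by
    intro j hj
    rw [hV, DL_mul j hj _ _ hXs1 hB1, DL_pow j hj _ hX1]
  have key : ∀ j, 1 ≤ j → j ≤ n - 1 → DL j A = DL j V := by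
    intro j hj hjn
    rcases Nat.eq_or_lt_of_le hj with h1 | h1
    · rw [← h1, hDV 1 le_rfl, DL_one_X, hs']
      ring
    · have hj2 : 2 ≤ j := h1
      rw [hDV j hj, DL_X j hj2, mul_zero, zero_add, hDA j hj, hDB j hj,
        DL_reflect p Q hQ1 D hD j hj2 (by omega)]
      rcases Nat.even_or_odd j with hev | hod
      · rw [hev.neg_one_pow, one_mul]
      · have hj3 : 3 ≤ j := by
          rcases hod with ⟨t, ht⟩
          omega
        rcases h j hod hj3 (by omega) with h3 | h3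
        · rw [h3]
          ring
        · rw [h3]
          ring
  have hdvd := DL_eq_imp p A V hA1 hV1' (n - 1) (by omega) key
  rw [Nat.sub_add_cancel hn0] at hdvd
  refine ⟨A.eval 1 * (V.eval 1)⁻¹, s, ?_⟩
  have e1 : A - C (A.eval 1 * (V.eval 1)⁻¹) * V =
      C ((V.eval 1)⁻¹) * (C (V.eval 1) * A - C (A.eval 1) * V) := by
    have hc : C ((V.eval 1)⁻¹) * C (V.eval 1) = 1 := by
      rw [← C_mul, inv_mul_cancel₀ hV1', C_1]
    rw [C_mul]
    linear_combination (-A) * hc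
  rw [e1]
  exact hdvd.mul_left _

end H45KC
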