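import Pool.Agent.H45.KC.DK

/-!
# KC, module Pade: polynomials of degree `≤ d` with `2 d` equal logarithmic derivatives

PROOF. Put `τ = DL 1 P - DL 1 Q`, `s = τ.val`, `V = X^s Q`.  `DL 1 V = s + DL 1 Q = DL 1 P` and
`DL j V = DL j Q = DL j P` for `2 ≤ j ≤ 2 d + 1` (`DL_mul`, `DL_pow`, `DL_X`, `DL_one_X`).
`DL_eq_imp` with `m = 2 d + 1 < p`: `(X-1)^(2d+2)` divides `V(1) P - P(1) V = P(1) (P - V)`, so it divides
`P - V`; hence `(X-1)^(2d+1) ∣ P' - V'`, so `(X-1)^(2d+1) ∣ P' V - P V'` (`= P'(V - P) + P (P' - V')`).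
`X (P' V - P V') = X^s (θP Q - s P Q - P θQ)`, `θP = X P'`.  `X` is prime to `X - 1`, so
`(X-1)^(2d+1)` divides `G = θP Q - s P Q - P θQ`, of degree `≤ 2 d`, so `G = 0`.  At `0`:
`-s P(0) Q(0) = 0`, so `s = 0` in `ZMod p`, and then `P' Q = P Q'` (cancel `X`).
Let `P = g P₁`, `Q = g Q₁`, `P₁, Q₁` coprime (`EuclideanDomain.gcd`); `P₁' Q₁ = P₁ Q₁'`, so
`P₁ ∣ P₁'`, so `P₁' = 0`, and `deg P₁ ≤ d < p` gives `P₁` constant; similarly `Q₁`.  So `P = c Q` and
`P(1) = Q(1) ≠ 0` gives `c = 1`.
-/

open Polynomial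

namespace H45KC

private theorem Pade_const (p : ℕ) [Fact p.Prime] (P Q : (ZMod p)[X]) (hP : P.natDegree < p)
    (hPQ : IsCoprime P Q) (h : derivative P * Q = P * derivative Q) : P.natDegree = 0 := by
  have h1 : P ∣ derivative P := by
    apply hPQ.dvd_of_dvd_mul_right
    exact ⟨derivative Q, h⟩
  by_contra h0
  have hP0 : P ≠ 0 := by
    rintro rfl
    simp at h0
  have h2 : derivative P = 0 := by
    by_contra h3
    have h4 := natDegree_le_of_dvd h1 h3
    have h5 := natDegree_derivative_lt h0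
    omega
  have h6 : (derivative P).coeff (P.natDegree - 1) = 0 := by rw [h2]; simp
  rw [coeff_derivative, Nat.sub_add_cancel (by omega)] at h6
  have h7 : ((P.natDegree - 1 : ℕ) : ZMod p) + 1 = (P.natDegree : ZMod p) := by
    have h8 : P.natDegree = (P.natDegree - 1) + 1 := by omega
    conv_rhs => rw [h8]
    push_cast
    ring
  rw [h7, mul_eq_zero] at h6
  rcases h6 with h6 | h6
  · rw [coeff_natDegree, leadingCoeff_eq_zero] at h6
    exact hP0 h6
  · rw [ZMod.natCast_eq_zero_iff] at h6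
    have := Nat.le_of_dvd (by omega) h6
    omega

private theorem Pade_prop (p : ℕ) [Fact p.Prime] (P Q : (ZMod p)[X]) (hP : P.natDegree < p)
    (hQ : Q.natDegree < p) (hP0 : P ≠ 0) (hQ0 : Q ≠ 0)
    (h : derivative P * Q = P * derivative Q) : ∃ c : ZMod p, P = C c * Q := by
  classical
  obtain ⟨g, P1, Q1, hP1, hQ1, hco⟩ : ∃ g P1 Q1 : (ZMod p)[X], P = g * P1 ∧ Q = g * Q1 ∧
      IsCoprime P1 Q1 := by
    obtain ⟨P1, Q1, g, hrel, e1, e2⟩ :=
      UniqueFactorizationMonoid.exists_reduced_factors P hP0 Q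
    exact ⟨g, P1, Q1, e1.symm, e2.symm, isRelPrime_iff_isCoprime.mp hrel⟩
  subst hP1 hQ1
  have hg0 : g ≠ 0 := left_ne_zero_of_mul hP0
  have hP10 : P1 ≠ 0 := right_ne_zero_of_mul hP0
  have hQ10 : Q1 ≠ 0 := right_ne_zero_of_mul hQ0
  have h1 : derivative P1 * Q1 = P1 * derivative Q1 := by
    rw [derivative_mul, derivative_mul] at h
    have h2 : g ^ 2 * (derivative P1 * Q1) = g ^ 2 * (P1 * derivative Q1) := by
      linear_combination h
    exact mul_left_cancel₀ (pow_ne_zero 2 hg0) h2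
  have h3 : P1.natDegree = 0 := by
    apply Pade_const p P1 Q1 _ hco h1
    rw [natDegree_mul hg0 hP10] at hP
    omega
  have h4 : Q1.natDegree = 0 := by
    apply Pade_const p Q1 P1 _ hco.symm
    · linear_combination -h1
    rw [natDegree_mul hg0 hQ10] at hQ
    omega
  rw [natDegree_eq_zero] at h3 h4
  obtain ⟨x, rfl⟩ := h3
  obtain ⟨y, rfl⟩ := h4
  have hy : y ≠ 0 := by
    rintro rfl
    simp at hQ10
  refine ⟨x / y, ?_⟩
  have h5 : C (x / y) * (g * C y) = g * C (x / y * y) := by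
    rw [C_mul]
    ring
  rw [h5, div_mul_cancel₀ x hy]

theorem pade (p : ℕ) [Fact p.Prime] (P Q : (ZMod p)[X]) (d : ℕ) (hd : 2 * d + 2 ≤ p)
    (hP : P.natDegree ≤ d) (hQ : Q.natDegree ≤ d) (hP1 : P.eval 1 ≠ 0)
    (hPQ : P.eval 1 = Q.eval 1) (hP0 : P.eval 0 ≠ 0) (hQ0 : Q.eval 0 ≠ 0)
    (h : ∀ j, 2 ≤ j → j ≤ 2 * d + 1 → DL j P = DL j Q) :
    P = Q := by
  have hp : p.Prime := Fact.out
  have hQ1 : Q.eval 1 ≠ 0 := hPQ ▸ hP1
  have hPne : P ≠ 0 := by
    rintro rfl
    simp at hP1
  have hQne : Q ≠ 0 := by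
    rintro rfl
    simp at hQ1
  set s : ℕ := (DL 1 P - DL 1 Q).val with hs
  set V : (ZMod p)[X] := X ^ s * Q with hV
  have hX1 : ((X : (ZMod p)[X]) ^ s).eval 1 ≠ 0 := by simp
  have hV1 : V.eval 1 = P.eval 1 := by
    rw [hV, eval_mul, hPQ]
    simp
  have hDL : ∀ j, 1 ≤ j → j ≤ 2 * d + 1 → DL j P = DL j V := by
    intro j hj hj2
    rw [hV, DL_mul j hj _ _ hX1 hQ1, DL_pow j hj X (by simp)]
    rcases Nat.lt_or_ge j 2 with hj3 | hj3
    · obtain rfl : j = 1 := by omega
      rw [DL_one_X, hs, ZMod.natCast_zmod_val]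
      ring
    · rw [DL_X j hj3, mul_zero, zero_add]
      exact h j hj3 hj2
  have h1 := DL_eq_imp p P V hP1 (by rw [hV1]; exact hP1) (2 * d + 1) (by omega) hDL
  have h2 : (X - 1) ^ (2 * d + 2) ∣ P - V := by
    have h3 : C (V.eval 1) * P - C (P.eval 1) * V = C (P.eval 1) * (P - V) := by
      rw [hV1]
      ring
    rw [h3] at h1
    have hu : IsUnit (C (P.eval 1) : (ZMod p)[X]) := by
      rw [isUnit_C]
      exact hP1.isUnit
    exact (hu.dvd_mul_left).mp h1
  obtain ⟨W, hW⟩ := h2
  have h3 : (X - 1) ^ (2 * d + 1) ∣ derivative P - derivative V := by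
    have h4 : derivative P - derivative V = derivative ((X - 1) ^ (2 * d + 2) * W) := by
      rw [← hW, derivative_sub]
    have h5 : derivative ((X - 1 : (ZMod p)[X]) ^ (2 * d + 2))
        = ((2 * d + 2 : ℕ) : (ZMod p)[X]) * (X - 1) ^ (2 * d + 1) := by
      rw [derivative_pow, C_eq_natCast]
      simp
    refine ⟨((2 * d + 2 : ℕ) : (ZMod p)[X]) * W + (X - 1) * derivative W, ?_⟩
    rw [h4, derivative_mul, h5, pow_succ (X - 1 : (ZMod p)[X]) (2 * d + 1)]
    ring
  have h4 : (X - 1) ^ (2 * d + 1) ∣ derivative P * V - P * derivative V := by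
    have h5 : derivative P * V - P * derivative V
        = P * (derivative P - derivative V) - derivative P * (P - V) := by ring
    rw [h5]
    refine dvd_sub (h3.mul_left _) (Dvd.dvd.mul_left ?_ _)
    rw [hW]
    exact (pow_dvd_pow _ (by omega)).trans (dvd_mul_right _ _)
  set G : (ZMod p)[X] := X * derivative P * Q - C (s : ZMod p) * (P * Q)
    - P * (X * derivative Q) with hG
  have h5 : X * (derivative P * V - P * derivative V) = X ^ s * G := by
    have h6 : X * derivative ((X : (ZMod p)[X]) ^ s) = C (s : ZMod p) * X ^ s := by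
      rcases s with _ | s
      · simp
      · rw [derivative_X_pow]
        simp only [Nat.add_sub_cancel]
        ring
    rw [hV, hG, derivative_mul]
    linear_combination (- (P * Q)) * h6
  have hcop : IsCoprime ((X - 1 : (ZMod p)[X]) ^ (2 * d + 1)) (X ^ s) := by
    apply IsCoprime.pow
    exact ⟨-1, 1, by ring⟩
  have h6 : (X - 1) ^ (2 * d + 1) ∣ G := by
    apply hcop.dvd_of_dvd_mul_left
    rw [← h5]
    exact h4.mul_left _
  have hdeg : G.natDegree ≤ 2 * d := by
    have e1 : (X * derivative P).natDegree ≤ d := by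
      rcases Nat.eq_zero_or_pos P.natDegree with h0 | h0
      · rw [natDegree_eq_zero] at h0
        obtain ⟨x, rfl⟩ := h0
        simp
      · refine natDegree_mul_le.trans ?_
        have := natDegree_derivative_lt (p := P) (by omega)
        rw [natDegree_X]
        omega
    have e2 : (X * derivative Q).natDegree ≤ d := by
      rcases Nat.eq_zero_or_pos Q.natDegree with h0 | h0
      · rw [natDegree_eq_zero] at h0
        obtain ⟨x, rfl⟩ := h0
        simp
      · refine natDegree_mul_le.trans ?_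
        have := natDegree_derivative_lt (p := Q) (by omega)
        rw [natDegree_X]
        omega
    rw [hG]
    refine (natDegree_sub_le _ _).trans (max_le ((natDegree_sub_le _ _).trans (max_le ?_ ?_)) ?_)
    · refine natDegree_mul_le.trans ?_
      omega
    · refine (natDegree_C_mul_le _ _).trans (natDegree_mul_le.trans ?_)
      omega
    · refine natDegree_mul_le.trans ?_
      omega
  have hG0 : G = 0 := by
    by_contra hne
    have h7 := natDegree_le_of_dvd h6 hne
    have h8 : ((X - 1 : (ZMod p)[X]) ^ (2 * d + 1)).natDegree = 2 * d + 1 := by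
      rw [natDegree_pow]
      have : (X - 1 : (ZMod p)[X]) = X - C 1 := by simp
      rw [this, natDegree_X_sub_C, mul_one]
    omega
  have hs0 : (s : ZMod p) = 0 := by
    have h7 : G.eval 0 = 0 := by rw [hG0]; simp
    rw [hG] at h7
    simp only [eval_sub, eval_mul, eval_X, eval_C, zero_mul, mul_zero, sub_zero, zero_sub,
      neg_eq_zero, mul_eq_zero] at h7
    rcases h7 with h7 | h7 | h7
    · exact h7
    · exact absurd h7 hP0
    · exact absurd h7 hQ0
  have h7 : derivative P * Q = P * derivative Q := by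
    have h8 : X * (derivative P * Q) = X * (P * derivative Q) := by
      have h9 : G = 0 := hG0
      rw [hG, hs0, C_0] at h9
      linear_combination h9
    exact mul_left_cancel₀ X_ne_zero h8
  obtain ⟨c, hc⟩ := Pade_prop p P Q (by omega) (by omega) hPne hQne h7
  have hc1 : c = 1 := by
    have h8 := congrArg (eval 1) hc
    rw [eval_mul, eval_C, ← hPQ] at h8
    have h9 : (c - 1) * P.eval 1 = 0 := by linear_combination -h8
    rcases mul_eq_zero.mp h9 with h10 | h10
    · exact sub_eq_zero.mp h10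
    · exact absurd h10 hP1
  rw [hc, hc1, C_1, one_mul]

end H45KC
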