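import Pool.Agent.H45.KC.KDL
import Pool.Agent.H45.KC.QCore
import Pool.Agent.H45.KC.Lin
import Pool.Agent.H45.KC.Pade
import Pool.Agent.H9.FC.PolCore

/-!
# KC, module KPal: `F` is quasi-palindromic modulo `p`; hypotheses on Bernoulli numbers

`irr p` is the set of the even `m`, `2 ≤ m ≤ p - 3`, such that `p` divides the numerator of `B_m`.

PROOF of `eich_bern`. If `d = 0` both `F`, `F.reflect 0` are the same constant polynomial modulo `p`
and the assertion is clear (or use `qpal_of_core` with `μ = 0`). Let `d ≥ 1`.  `exists_fact` gives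
`μ ≤ d`, `P`.  `hdr` gives `d (r+1)(r+2) < p - 2`, so `r + 1 < p` and `μ + 2 < p`. Let `P̄`, `k = ZMod p`.
Let `S` be the set of the odd `j`, `3 ≤ j ≤ p - 2`, with `p ∣ num B_(p-j)`; `j ↦ p - j` is an injection
of `S` into `irr p`, so `#S ≤ r`.  `lin` gives `e`.  By `kdl`, for odd `j`, `3 ≤ j < n = p - 1 - μ`: `DL j P̄ = 0` or
`j ∈ S`.  `hdiv_of_DL` with `Q = P̄`, `D = d - μ`, `n = p - 1 - μ` gives `c, s` with
`(X-1)^(p-1-μ) ∣ ...`.  Apply `pol_core` with degree bound `d - μ`, `N = p - 2 - μ`, `Q = P̄.reflect (d-μ)`,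
(`Q(1) = P̄(1)`: `eval_one`-type statement, sum of the coefficients; `natDegree` of the
reflection is `≤ d - μ`), and
`(d-μ)(r+1)(r+2) < p - 2 - μ` because `(d-μ)(r+1)(r+2) + μ ≤ d (r+1)(r+2)`.  Then `qpal_of_core`.
PROOF of `eich_mir`. As before `exists_fact`, `P̄ = X^i P₀`, `P₀(0) ≠ 0`, `i` the multiplicity of `0`;
`d' = natDegree P₀ ≤ d - μ - i`, `Q₀ = P₀.reflect d'`; `Q₀(0) = leading coefficient ≠ 0`,
`Q₀(1) = P₀(1) ≠ 0`.  For `2 ≤ j ≤ 2 d' + 1` (`≤ 2 (d - μ) + 1 ≤ p - 2 - 2 μ`, so `j < p - 1 - μ` if `μ ≥ 0`):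
`DL j P₀ = DL j P̄` (`DL_mul`, `DL_pow`, `DL_X`), `DL j Q₀ = (-1)^j DL j P₀` (`DL_reflect`); for even `j`
they agree; for odd `j`, `3 ≤ j ≤ 2 d + 1`, `DL j P̄ = 0` by `kdl`, `hB`. `pade` (`2 d' + 2 ≤ p`):
`P₀ = Q₀ = P₀.reflect d'`. Then `P̄.reflect (d-μ) = X^(d-μ-i-d') P₀` (`reflect_mul` with
`X^i` (bound `i`, reflection `1`) and `P₀` (bound `d-μ-i`; `P₀.reflect (d' + k) = X^k P₀.reflect d'`)), so
the hypothesis `h` of `qpal_of_core` holds: multiplicities of `0` are `d-μ-i-d'` and `i`.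
-/

open Polynomial NumberField H9FC

namespace H45KC

/-- the irregular indices of `p`: the even `m`, `2 ≤ m ≤ p - 3`, with `p ∣ num B_m` -/
noncomputable def irr (p : ℕ) : Finset ℕ := by
  classical
  exact (Finset.range (p - 2)).filter
    (fun m => Even m ∧ 2 ≤ m ∧ (p : ℤ) ∣ (_root_.bernoulli m).num)

private theorem KPal_comp {p : ℕ} [Fact p.Prime] (Q : (ZMod p)[X]) (k : ℕ) :
    (Q.comp (X ^ k)).eval 1 = Q.eval 1 := by
  rw [eval_comp, eval_pow, eval_X, one_pow]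

private theorem KPal_refl {p : ℕ} [Fact p.Prime] (Q : (ZMod p)[X]) (D : ℕ) (hD : Q.natDegree ≤ D) :
    (Q.reflect D).eval 1 = Q.eval 1 := by
  obtain ⟨R, hR⟩ := reflect_congr p Q D hD
  have h := congrArg (eval 1) hR
  have hp : p ≠ 0 := (Fact.out : p.Prime).ne_zero
  rw [eval_mul, eval_pow, eval_sub, eval_sub, eval_X, eval_one, sub_self, zero_pow hp, zero_mul,
    eval_mul, eval_pow, eval_X, one_pow, one_mul, KPal_comp] at h
  exact sub_eq_zero.1 h

private theorem KPal_eval {p : ℕ} [Fact p.Prime] (P : ℤ[X]) (h : ¬ (p : ℤ) ∣ P.eval 1) :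
    (P.map (Int.castRingHom (ZMod p))).eval 1 ≠ 0 := by
  rw [eval_one_map]
  intro h0
  apply h
  rw [eq_intCast] at h0
  exact (ZMod.intCast_zmod_eq_zero_iff_dvd _ _).1 h0

private theorem KPal_mult {p : ℕ} [Fact p.Prime] (k : ℕ) (P : (ZMod p)[X]) (hP : P.eval 0 ≠ 0) :
    (X ^ k * P).rootMultiplicity 0 = k := by
  have hP0 : P ≠ 0 := by
    rintro rfl
    simp at hP
  rw [rootMultiplicity_mul (mul_ne_zero (pow_ne_zero _ X_ne_zero) hP0)]
  have h1 : (X ^ k : (ZMod p)[X]).rootMultiplicity 0 = k := by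
    have := rootMultiplicity_X_sub_C_pow (0 : ZMod p) k
    simpa using this
  rw [h1, rootMultiplicity_eq_zero hP, add_zero]

private theorem KPal_card (p : ℕ) [Fact p.Prime] (hp : 5 ≤ p) (r : ℕ) (hr : (irr p).card ≤ r) :
    ∃ S : Finset ℕ, S.card ≤ r ∧ ∀ j, Odd j → 3 ≤ j → j ≤ p - 2 →
      (p : ℤ) ∣ (_root_.bernoulli (p - j)).num → j ∈ S := by
  classical
  have hpo : Odd p := (Fact.out : p.Prime).odd_of_ne_two (by omega)
  refine ⟨(Finset.range (p - 1)).filter (fun j => Odd j ∧ 3 ≤ j ∧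
    (p : ℤ) ∣ (_root_.bernoulli (p - j)).num), ?_, ?_⟩
  · refine le_trans ?_ hr
    refine Finset.card_le_card_of_injOn (fun j => p - j) ?_ ?_
    · intro j hj
      rw [Finset.mem_coe, Finset.mem_filter, Finset.mem_range] at hj
      obtain ⟨h1, h2, h3, h4⟩ := hj
      rw [Finset.mem_coe]
      unfold irr
      rw [Finset.mem_filter, Finset.mem_range]
      refine ⟨?_, ?_, ?_, h4⟩
      · show p - j < p - 2
        omega
      · show Even (p - j)
        exact Nat.Odd.sub_odd hpo h2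
      · show 2 ≤ p - j
        omega
    · intro j hj j' hj' h
      rw [Finset.mem_coe, Finset.mem_filter, Finset.mem_range] at hj hj'
      have h' : p - j = p - j' := h
      omega
  · intro j h1 h2 h3 h4
    rw [Finset.mem_filter, Finset.mem_range]
    exact ⟨by omega, h1, h2, h4⟩

theorem eich_bern (p : ℕ) [Fact p.Prime] (hp : 5 ≤ p) (M : Type*) [Field M] [NumberField M]
    [IsCyclotomicExtension {p} ℚ M] (r : ℕ) (hr : (irr p).card ≤ r) (F : ℤ[X]) (d : ℕ)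
    (hd : F.natDegree ≤ d) (hdr : d * (r + 1) * (r + 2) < p - 2)
    (hF : F.map (Int.castRingHom (ZMod p)) ≠ 0)
    (hI : ∀ ζ : 𝓞 M, IsPrimitiveRoot ζ p → ∃ I : Ideal (𝓞 M),
      I ^ p = Ideal.span {aeval ζ F * (aeval (ζ ^ (p - 1)) F) ^ (p - 1)}) :
    QPal p F d := by
  obtain ⟨μ, P, hμ, hPd, hP1, hFP⟩ := exists_fact p F d hd hF
  obtain ⟨S, hS, hSmem⟩ := KPal_card p hp r hr
  obtain ⟨e, he, he0, heS⟩ := lin p r S hS
  have hζ : IsPrimitiveRoot (IsCyclotomicExtension.zeta p ℚ M) p :=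
    IsCyclotomicExtension.zeta_spec p ℚ M
  have hζ' := hζ.toInteger_isPrimitiveRoot
  have hPb1 := KPal_eval P hP1
  have hPbd : (P.map (Int.castRingHom (ZMod p))).natDegree ≤ d - μ := natDegree_map_le.trans hPd
  have hdr2 : d ≤ d * (r + 1) * (r + 2) := by
    rw [mul_assoc]
    exact Nat.le_mul_of_pos_right _ (by positivity)
  have hdr3 : (d - μ) * (r + 1) * (r + 2) + μ ≤ d * (r + 1) * (r + 2) := by
    have h1 : d * (r + 1) * (r + 2) = (d - μ) * (r + 1) * (r + 2) + μ * ((r + 1) * (r + 2)) := by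
      have h2 : d = (d - μ) + μ := by omega
      calc d * (r + 1) * (r + 2) = ((d - μ) + μ) * (r + 1) * (r + 2) := by rw [← h2]
        _ = _ := by ring
    rw [h1]
    have h3 : μ ≤ μ * ((r + 1) * (r + 2)) := Nat.le_mul_of_pos_right _ (by positivity)
    omega
  have hDL : ∀ j, Odd j → 3 ≤ j → j < p - 1 - μ →
      DL j (P.map (Int.castRingHom (ZMod p))) = 0 ∨
        ∑ i, (e i : ZMod p) * ((i.val + 1 : ℕ) : ZMod p) ^ j = 0 := by
    intro j hj h3 hjn
    by_cases hB : (p : ℤ) ∣ (_root_.bernoulli (p - j)).num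
    · right
      exact heS j (hSmem j hj h3 (by omega) hB)
    · left
      exact kdl p M hζ' F P μ hFP hP1 (hI _ hζ') j hj h3 hjn hB
  obtain ⟨c, s, hdvd⟩ := hdiv_of_DL p (P.map (Int.castRingHom (ZMod p))) (d - μ) hPbd hPb1
    (p - 1 - μ) (by omega) r e hDL
  have hn : p - 1 - μ = (p - 2 - μ) + 1 := by omega
  rw [hn] at hdvd
  refine qpal_of_core p F d μ hμ (P.map (Int.castRingHom (ZMod p))) _ hFP hPb1 hPbd rfl ?_
  exact pol_core p (by omega) _ _ (d - μ) r (p - 2 - μ) hPbd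
    (natDegree_reflect_le.trans (max_le le_rfl hPbd)) hPb1 (KPal_refl _ _ hPbd).symm
    (by omega) (by omega) e he he0 c s hdvd

theorem eich_mir (p : ℕ) [Fact p.Prime] (M : Type*) [Field M] [NumberField M]
    [IsCyclotomicExtension {p} ℚ M] (F : ℤ[X]) (d : ℕ)
    (hd : F.natDegree ≤ d) (hdp : 2 * d + 3 ≤ p)
    (hB : ∀ j, Odd j → 3 ≤ j → j ≤ 2 * d + 1 → ¬ (p : ℤ) ∣ (_root_.bernoulli (p - j)).num)
    (hF : F.map (Int.castRingHom (ZMod p)) ≠ 0)
    (hI : ∀ ζ : 𝓞 M, IsPrimitiveRoot ζ p → ∃ I : Ideal (𝓞 M),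
      I ^ p = Ideal.span {aeval ζ F * (aeval (ζ ^ (p - 1)) F) ^ (p - 1)}) :
    QPal p F d := by
  obtain ⟨μ, P, hμ, hPd, hP1, hFP⟩ := exists_fact p F d hd hF
  have hζ : IsPrimitiveRoot (IsCyclotomicExtension.zeta p ℚ M) p :=
    IsCyclotomicExtension.zeta_spec p ℚ M
  have hζ' := hζ.toInteger_isPrimitiveRoot
  have hPb1 := KPal_eval P hP1
  have hPbd : (P.map (Int.castRingHom (ZMod p))).natDegree ≤ d - μ := natDegree_map_le.trans hPd
  have hDL : ∀ j, Odd j → 3 ≤ j → j ≤ 2 * (d - μ) + 1 →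
      DL j (P.map (Int.castRingHom (ZMod p))) = 0 := by
    intro j hj h3 hjn
    exact kdl p M hζ' F P μ hFP hP1 (hI _ hζ') j hj h3 (by omega) (hB j hj h3 (by omega))
  refine qpal_of_core p F d μ hμ (P.map (Int.castRingHom (ZMod p))) _ hFP hPb1 hPbd rfl ?_
  obtain ⟨Pb, hPb⟩ : ∃ Pb : (ZMod p)[X], Pb = P.map (Int.castRingHom (ZMod p)) := ⟨_, rfl⟩
  rw [← hPb] at hPb1 hPbd hDL ⊢
  have hPb0 : Pb ≠ 0 := by
    rintro rfl
    simp at hPb1
  obtain ⟨P0, hP0, hndvd⟩ := exists_eq_pow_rootMultiplicity_mul_and_not_dvd Pb hPb0 0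
  obtain ⟨i, hi⟩ : ∃ i : ℕ, i = Pb.rootMultiplicity 0 := ⟨_, rfl⟩
  rw [← hi, C_0, sub_zero] at hP0
  rw [C_0, sub_zero] at hndvd
  have hP00 : P0.eval 0 ≠ 0 := by
    intro h0
    apply hndvd
    rw [X_dvd_iff, coeff_zero_eq_eval_zero]
    exact h0
  have hP0ne : P0 ≠ 0 := by
    rintro rfl
    simp at hP00
  have hdeg : Pb.natDegree = i + P0.natDegree := by
    rw [hP0, natDegree_mul (pow_ne_zero _ X_ne_zero) hP0ne, natDegree_X_pow]
  have hX1 : (X : (ZMod p)[X]).eval 1 ≠ 0 := by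
    rw [eval_X]
    exact one_ne_zero
  have hXi1 : ((X : (ZMod p)[X]) ^ i).eval 1 ≠ 0 := by
    rw [eval_pow, eval_X, one_pow]
    exact one_ne_zero
  have hP01 : P0.eval 1 ≠ 0 := by
    intro h0
    apply hPb1
    rw [hP0, eval_mul, h0, mul_zero]
  have hQ00 : (P0.reflect P0.natDegree).eval 0 ≠ 0 := by
    rw [← coeff_zero_eq_eval_zero, coeff_reflect, revAt_le (Nat.zero_le _), Nat.sub_zero,
      coeff_natDegree]
    exact leadingCoeff_ne_zero.2 hP0ne
  have hPal : P0 = P0.reflect P0.natDegree := by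
    refine pade p P0 (P0.reflect P0.natDegree) P0.natDegree (by omega) le_rfl
      (natDegree_reflect_le.trans (max_le le_rfl le_rfl)) hP01 (KPal_refl _ _ le_rfl).symm hP00
      hQ00 ?_
    intro j hj2 hjd
    rw [DL_reflect p P0 hP01 _ le_rfl j hj2 (by omega)]
    rcases Nat.even_or_odd j with hev | hod
    · rw [hev.neg_one_pow, one_mul]
    · have h3 : 3 ≤ j := by
        rcases hod with ⟨t, ht⟩
        omega
      have h4 := hDL j hod h3 (by omega)
      rw [hP0, DL_mul j (by omega) _ _ hXi1 hP01, DL_pow j (by omega) _ hX1, DL_X j hj2,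
        mul_zero, zero_add] at h4
      rw [h4, mul_zero]
  obtain ⟨k, hk⟩ : ∃ k : ℕ, k = d - μ - i - P0.natDegree := ⟨_, rfl⟩
  have hD : d - μ = i + (k + P0.natDegree) := by omega
  have hQ : Pb.reflect (d - μ) = X ^ k * P0 := by
    have h1 : (X ^ i * P0).reflect (i + (k + P0.natDegree))
        = (X ^ i : (ZMod p)[X]).reflect i * P0.reflect (k + P0.natDegree) :=
      reflect_mul _ _ (natDegree_X_pow_le _) (by omega)
    have h2 : P0.reflect (k + P0.natDegree) = X ^ k * P0 := by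
      have h3 : ((C 1 : (ZMod p)[X]) * P0).reflect (k + P0.natDegree)
          = (C 1 : (ZMod p)[X]).reflect k * P0.reflect P0.natDegree :=
        reflect_mul _ _ (by rw [natDegree_C]; exact Nat.zero_le _) le_rfl
      rw [reflect_C, ← hPal, C_1, one_mul, one_mul] at h3
      exact h3
    rw [hD]
    conv_lhs => rw [hP0]
    rw [h1, h2, reflect_monomial, revAt_le le_rfl, Nat.sub_self, pow_zero, one_mul]
  rw [hQ, KPal_mult k P0 hP00, ← hi]
  conv_lhs => rw [hP0]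
  ring

end H45KC
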