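import Pool.Agent.H45.KC.CycPow
import Pool.Agent.H45.KC.DK
import Pool.Agent.H45.KC.BernB

/-!
# KC, module KRel: Kummer's congruences from the Stickelberger relations

PROOF of `krel`. `λ = ζ - 1`.  By `exists_semi` choose `j₀, x` with `λ² ∣ ζ^j₀ A - x`, and put
`A' = ζ^j₀ A`, `G' = X^j₀ G`: `λ^n ∣ A' - G'(ζ)`; `A'` lies in no prime above `p`, `𝔞^p = (A')`.
`G(1)` is prime to `p`: otherwise `λ ∣ G(1)`, `λ ∣ G(ζ)` (`ζ ≡ 1`), `λ ∣ A` as `n ≥ 4 ≥ 1`.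
By `exists_b` choose `b` with `1 + b^j - (b+1)^j ≠ 0` in `ZMod p`.  By `hst`:
`∏_{t ∈ TB p b} σ_t⁻¹ A' = s J^p`, and `J^p ≡ m` modulo `p` with an integer `m` (`hpow`), so modulo
`λ^n` (`n ≤ p - 1`, `λ^(p-1)` is associated to `p`).  By `aeval_pow_congr` for `σ = σ_t⁻¹`:
`σ_t⁻¹ A' ≡ G'(ζ^(t⁻¹))` modulo `λ^n`, so with `Π = ∏_{t ∈ TB p b} G'.comp (X ^ (t⁻¹).val.val)`:
`λ^n ∣ (Π - C (s m))(ζ)`. By `cyc_pow_dvd`: `(X-1)^n ∣ Π - s m` modulo `p`. `j + 1 ≤ n`, so by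
`DL_congr`, `DL_C`, `DL_prod`, `DL_comp` (`k = ZMod p`, `((t⁻¹).val.val : ZMod p) = t⁻¹`):
`(∑_{t ∈ TB p b} (t⁻¹)^j) DL j G' = 0`.  By `bern_sum` the sum is `(1 + b^j - (b+1)^j) β ≠ 0`.  So
`0 = DL j G' = j₀ DL j X + DL j G = DL j G` (`DL_mul`, `DL_pow`, `DL_X`).
(`galEquivZMod (galEquivZMod.symm t)⁻¹ = t⁻¹`.)
-/

open Polynomial NumberField

namespace H45KC

private theorem KRel_prod {R ι : Type*} [CommRing R] (d : R) (s : Finset ι) (f g : ι → R)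
    (h : ∀ i ∈ s, d ∣ f i - g i) : d ∣ ∏ i ∈ s, f i - ∏ i ∈ s, g i := by
  classical
  induction s using Finset.induction_on with
  | empty => simp
  | insert a s ha ih =>
    rw [Finset.prod_insert ha, Finset.prod_insert ha]
    have h1 := h a (Finset.mem_insert_self _ _)
    have h2 := ih (fun i hi => h i (Finset.mem_insert_of_mem hi))
    have h3 : f a * ∏ i ∈ s, f i - g a * ∏ i ∈ s, g i
        = (f a - g a) * ∏ i ∈ s, f i + g a * (∏ i ∈ s, f i - ∏ i ∈ s, g i) := by ring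
    rw [h3]
    exact dvd_add (h1.mul_right _) (h2.mul_left _)

private theorem KRel_eval {R : Type*} [CommRing R] (z : R) (G : ℤ[X]) :
    z - 1 ∣ aeval z G - ((G.eval 1 : ℤ) : R) := by
  have h1 := sub_dvd_eval_sub z 1 (G.map (Int.castRingHom R))
  rw [eval_map, eval_map] at h1
  have h2 : eval₂ (Int.castRingHom R) z G = aeval z G := by
    rw [aeval_def]
    rfl
  have h3 : eval₂ (Int.castRingHom R) 1 G = ((G.eval 1 : ℤ) : R) := by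
    rw [eval₂_at_one]
    rfl
  rwa [h2, h3] at h1

theorem krel (p : ℕ) [Fact p.Prime] (hp2 : p ≠ 2) (M : Type*) [Field M] [NumberField M]
    [IsCyclotomicExtension {p} ℚ M] {ζ : 𝓞 M} (hζ : IsPrimitiveRoot ζ p)
    (hpow : ∀ δ : 𝓞 M, ∃ m : ℤ, (p : 𝓞 M) ∣ δ ^ p - m)
    (hst : ∀ b : ℕ, 1 ≤ b → b + 2 ≤ p → ∀ A : 𝓞 M,
      (∀ P : Ideal (𝓞 M), P.IsPrime → (p : 𝓞 M) ∈ P → A ∉ P) →
      (∃ x : ℤ, (ζ - 1) ^ 2 ∣ A - x) → (∃ 𝔞 : Ideal (𝓞 M), 𝔞 ^ p = Ideal.span {A}) →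
      ∃ (s : ℤˣ) (J : 𝓞 M),
        ∏ t ∈ TB p b, ((IsCyclotomicExtension.Rat.galEquivZMod p M).symm t)⁻¹ • A
          = ((s : ℤ) : 𝓞 M) * J ^ p)
    (A : 𝓞 M) (hA0 : ∀ P : Ideal (𝓞 M), P.IsPrime → (p : 𝓞 M) ∈ P → A ∉ P)
    (hI : ∃ 𝔞 : Ideal (𝓞 M), 𝔞 ^ p = Ideal.span {A}) (G : ℤ[X]) (n : ℕ) (hn : n ≤ p - 1)
    (hAG : (ζ - 1) ^ n ∣ A - aeval ζ G) (j : ℕ) (hj : Odd j) (h3 : 3 ≤ j) (hjn : j < n)
    (hB : ¬ (p : ℤ) ∣ (_root_.bernoulli (p - j)).num) :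
    DL j (G.map (Int.castRingHom (ZMod p))) = 0 := by
  classical
  have hp : p.Prime := Fact.out
  have hjp : j + 2 ≤ p := by omega
  -- the prime element
  have hz : IsPrimitiveRoot (ζ : M) p := hζ.map_of_injective RingOfIntegers.coe_injective
  have hzi : hz.toInteger = ζ := RingOfIntegers.ext rfl
  have hpr : (Ideal.span {ζ - 1}).IsPrime := by
    have := IsCyclotomicExtension.Rat.isPrime_span_zeta_sub_one' p hz
    rwa [hzi] at this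
  have hassoc : Associated ((ζ - 1) ^ (p - 1)) (p : 𝓞 M) := by
    have := IsCyclotomicExtension.Rat.associated_zeta_sub_one_pow_prime p hz
    rwa [hzi] at this
  have hint : ∀ x : ℤ, ζ - 1 ∣ (x : 𝓞 M) ↔ (p : ℤ) ∣ x := by
    intro x
    have := IsCyclotomicExtension.Rat.zeta_sub_one_dvd_intCast_iff' p hz (n := x)
    rwa [hzi] at this
  have hp1 : p - 1 ≠ 0 := by omega
  have hpmem : (p : 𝓞 M) ∈ Ideal.span {ζ - 1} := by
    rw [Ideal.mem_span_singleton]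
    exact (dvd_pow_self _ hp1).trans hassoc.dvd
  have hlA : ¬ (ζ - 1) ∣ A := by
    intro h
    exact hA0 _ hpr hpmem (Ideal.mem_span_singleton.mpr h)
  have hlnp : (ζ - 1) ^ n ∣ (p : 𝓞 M) := (pow_dvd_pow _ hn).trans hassoc.dvd
  have hzu : IsUnit ζ := hζ.isUnit hp.ne_zero
  obtain ⟨j₀, x, hx⟩ := exists_semi p hp2 M hζ A hA0
  have hzu' : IsUnit (ζ ^ j₀) := hzu.pow _
  -- `A'`, `G'`
  obtain ⟨A', hA'⟩ : ∃ A' : 𝓞 M, A' = ζ ^ j₀ * A := ⟨_, rfl⟩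
  obtain ⟨G', hG'⟩ : ∃ G' : ℤ[X], G' = X ^ j₀ * G := ⟨_, rfl⟩
  rw [← hA'] at hx
  have hAG' : (ζ - 1) ^ n ∣ A' - aeval ζ G' := by
    have h1 : A' - aeval ζ G' = ζ ^ j₀ * (A - aeval ζ G) := by
      rw [hA', hG', map_mul, map_pow, aeval_X]
      ring
    rw [h1]
    exact hAG.mul_left _
  have hA0' : ∀ P : Ideal (𝓞 M), P.IsPrime → (p : 𝓞 M) ∈ P → A' ∉ P := by
    intro P hP hpP hAP
    rw [hA'] at hAP
    rcases hP.mem_or_mem hAP with h | h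
    · exact hP.ne_top (Ideal.eq_top_of_isUnit_mem _ h hzu')
    · exact hA0 P hP hpP h
  have hI' : ∃ 𝔞 : Ideal (𝓞 M), 𝔞 ^ p = Ideal.span {A'} := by
    obtain ⟨𝔞, h⟩ := hI
    refine ⟨𝔞, ?_⟩
    rw [h, hA', Ideal.span_singleton_mul_left_unit hzu']
  -- `G(1)`
  have hev : ((G.map (Int.castRingHom (ZMod p))).eval 1) = ((G.eval 1 : ℤ) : ZMod p) := by
    rw [eval_map, eval₂_at_one]
    rfl
  have hG1 : (G.map (Int.castRingHom (ZMod p))).eval 1 ≠ 0 := by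
    rw [hev]
    intro h0
    rw [ZMod.intCast_zmod_eq_zero_iff_dvd] at h0
    apply hlA
    have h1 : ζ - 1 ∣ ((G.eval 1 : ℤ) : 𝓞 M) := (hint _).mpr h0
    have h2 := KRel_eval ζ G
    have h3 : ζ - 1 ∣ A - aeval ζ G := (dvd_pow_self _ (by omega)).trans hAG
    have h4 : A = (A - aeval ζ G) + (aeval ζ G - ((G.eval 1 : ℤ) : 𝓞 M))
        + ((G.eval 1 : ℤ) : 𝓞 M) := by ring
    rw [h4]
    exact dvd_add (dvd_add h3 h2) h1
  obtain ⟨Gp, hGp⟩ : ∃ Gp : (ZMod p)[X], Gp = G'.map (Int.castRingHom (ZMod p)) := ⟨_, rfl⟩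
  have hGp' : Gp = X ^ j₀ * G.map (Int.castRingHom (ZMod p)) := by
    rw [hGp, hG', Polynomial.map_mul, Polynomial.map_pow, map_X]
  have hGp1 : Gp.eval 1 ≠ 0 := by
    rw [hGp', eval_mul, eval_pow, eval_X, one_pow, one_mul]
    exact hG1
  -- the relation
  obtain ⟨b, hb1, hb2, hbne⟩ := exists_b p j h3 hjp
  obtain ⟨β, hβ, hsum⟩ := bern_sum p j hj h3 hjp
  have hβ0 : β ≠ 0 := fun h => hB (hβ.mp h)
  obtain ⟨s, J, hJ⟩ := hst b hb1 hb2 A' hA0' ⟨x, hx⟩ hI'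
  obtain ⟨m, hm⟩ := hpow J
  obtain ⟨kt, hkt⟩ : ∃ kt : (ZMod p)ˣ → ℕ, kt = fun t => ((t⁻¹ : (ZMod p)ˣ) : ZMod p).val :=
    ⟨_, rfl⟩
  have hterm : ∀ t ∈ TB p b, (ζ - 1) ^ n ∣
      ((IsCyclotomicExtension.Rat.galEquivZMod p M).symm t)⁻¹ • A' - aeval (ζ ^ kt t) G' := by
    intro t _
    have h1 := aeval_pow_congr p M hζ n A' G' hAG'
      ((IsCyclotomicExtension.Rat.galEquivZMod p M).symm t)⁻¹
    rw [map_inv, MulEquiv.apply_symm_apply] at h1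
    rw [hkt]
    exact h1
  have hP := KRel_prod _ _ _ _ hterm
  obtain ⟨Q, hQ⟩ : ∃ Q : ℤ[X], Q = ∏ t ∈ TB p b, G'.comp (X ^ kt t) := ⟨_, rfl⟩
  have hQz : aeval ζ Q = ∏ t ∈ TB p b, aeval (ζ ^ kt t) G' := by
    rw [hQ, map_prod]
    apply Finset.prod_congr rfl
    intro t _
    rw [aeval_comp, map_pow, aeval_X]
  rw [hJ, ← hQz] at hP
  have hF : (ζ - 1) ^ n ∣ aeval ζ (Q - C ((s : ℤ) * m)) := by
    rw [map_sub, aeval_C]
    have h1 : (ζ - 1) ^ n ∣ J ^ p - m := hlnp.trans hm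
    have h2 : aeval ζ Q - algebraMap ℤ (𝓞 M) ((s : ℤ) * m)
        = -(((s : ℤ) : 𝓞 M) * J ^ p - aeval ζ Q) + ((s : ℤ) : 𝓞 M) * (J ^ p - m) := by
      rw [map_mul]
      simp only [algebraMap_int_eq, eq_intCast]
      ring
    rw [h2]
    exact dvd_add (dvd_neg.mpr hP) (h1.mul_left _)
  have hdv := cyc_pow_dvd p M hζ n hn _ hF
  have hmap : (Q - C ((s : ℤ) * m)).map (Int.castRingHom (ZMod p))
      = (∏ t ∈ TB p b, (Gp.comp (X ^ kt t)) ^ 1) - C ((((s : ℤ) * m : ℤ)) : ZMod p) := by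
    rw [Polynomial.map_sub, map_C, hQ, Polynomial.map_prod]
    congr 1
    apply Finset.prod_congr rfl
    intro t _
    rw [pow_one, hGp, Polynomial.map_comp, Polynomial.map_pow, map_X]
  rw [hmap] at hdv
  have hj1 : 1 ≤ j := by omega
  have hDL := DL_congr j hj1 _ _ ((pow_dvd_pow _ (by omega : j + 1 ≤ n)).trans hdv)
  rw [DL_C j hj1, DL_prod j hj1 _ _ (fun _ => 1) (by
    intro t _
    rw [eval_comp, eval_pow, eval_X, one_pow]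
    exact hGp1)] at hDL
  have hS : ∑ t ∈ TB p b, ((1 : ℕ) : ZMod p) * DL j (Gp.comp (X ^ kt t))
      = (∑ t ∈ TB p b, (((t⁻¹ : (ZMod p)ˣ) : ZMod p)) ^ j) * DL j Gp := by
    rw [Finset.sum_mul]
    apply Finset.sum_congr rfl
    intro t _
    rw [DL_comp j hj1, hkt, ZMod.natCast_zmod_val, Nat.cast_one, one_mul]
  rw [hS, hsum b hb1 hb2] at hDL
  have h0 : DL j Gp = 0 := by
    rcases mul_eq_zero.mp hDL with h | h
    · exact absurd h (mul_ne_zero hbne hβ0)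
    · exact h
  rw [hGp', DL_mul j hj1 _ _ (by simp) hG1, DL_pow j hj1 _ (by simp), DL_X j (by omega), mul_zero,
    zero_add] at h0
  exact h0

end H45KC
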